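import Pool.Agent.Lib.MP_0e6856_lc.Defs

/-!
Contact graphs of translates of a regular polygon.
-/

namespace Pool.Agent.Lib.MP_0e6856_lc

/-- The graph `G` is the contact graph of translates of the regular `k`-gon with first corner `a`:
interiors are pairwise disjoint, and two vertices are adjacent exactly when their polygons meet. -/
def ContactCoin (k : ℕ) (a : ℂ) {V : Type} (G : SimpleGraph V) : Prop :=
  ∃ c : V → ℂ, ∀ u v, u ≠ v →
    Disjoint (interior (polygon k a (c u))) (interior (polygon k a (c v))) ∧
    (G.Adj u v ↔ (polygon k a (c u) ∩ polygon k a (c v)).Nonempty)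

end Pool.Agent.Lib.MP_0e6856_lc
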