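import Pool.Agent.Lib.MP_0e6856_lc.All.Norm

/-!
The nested logic engine in the triangular lattice.  A lattice point is `(X, y)` with `X + y` even;
it stands for `X / 2 * a + y / 2 * s`.
-/

namespace Pool.Agent.Lib.MP_0e6856_lc

/-- The dimensions of an engine. -/
structure Par where
  n : ℤ
  M : ℤ
  N : ℤ
  g : ℤ
  t : ℤ
  occ : ℤ → ℤ → Prop

structure Par.Good (P : Par) : Prop where
  n_pos : 1 ≤ P.n
  M_nonneg : 0 ≤ P.M
  g_pos : 1 ≤ P.g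
  g_lt : P.g + 3 < P.N
  wide : 3 * P.M + 6 ≤ P.t
  long : P.g + P.N + 1 ≤ P.t

/-- Neighbours in the triangular lattice. -/
def ladj (X y X' y' : ℤ) : Prop :=
  (y = y' ∧ (X = X' + 2 ∨ X' = X + 2)) ∨ ((y = y' + 1 ∨ y' = y + 1) ∧ (X = X' + 1 ∨ X' = X + 1))

/-- The rigid frame with apex in row `A` and ends in row `T`: two walls and a diamond at the apex,
or the whole triangle if `fill` holds. -/
def Vee (fill : Prop) (A T X y : ℤ) : Prop :=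
  (X + y) % 2 = 0 ∧ A ≤ y ∧ y ≤ T ∧ X ≤ y - A ∧ -X ≤ y - A ∧
    (fill ∨ y - A - 2 ≤ X ∨ y - A - 2 ≤ -X ∨ (X ≤ A + 6 - y ∧ -X ≤ A + 6 - y))

/-- The column of a flag point. -/
def col (X : ℤ) : ℤ := (X + 2) / 6

/-- The row of the chain of armature `j`; its apex is in row `-6 j`. -/
def Par.T (P : Par) (j : ℤ) : ℤ := 2 * P.t + 4 * j

/-- Armature `j` has a flag above its chain in column `i`. -/
def Par.Up (P : Par) (j i : ℤ) : Prop := j ≤ P.n ∧ (i ≤ 0 ∨ j = 0 ∨ ¬P.occ j (i - 1))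

/-- Armature `j` has a flag below its chain in column `i`. -/
def Par.Dn (P : Par) (j i : ℤ) : Prop := (1 ≤ j ∧ i = 0) ∨ j = P.n + 1

/-- The points of armature `j`. -/
def Par.Arm (P : Par) (j X y : ℤ) : Prop :=
  Vee (j = 0) (-6 * j) (P.T j) X y ∨
  ((X + y) % 2 = 0 ∧
    ((y = P.T j ∧ X ≤ y + 6 * j ∧ -X ≤ y + 6 * j) ∨
    (-P.M ≤ col X ∧ col X ≤ P.M ∧ P.Up j (col X) ∧ P.T j < y ∧
      X - 6 * col X ≤ P.T j + 2 - y ∧ 6 * col X - X ≤ P.T j + 2 - y) ∨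
    (-P.M ≤ col X ∧ col X ≤ P.M ∧ P.Dn j (col X) ∧ y < P.T j ∧
      X - 6 * col X ≤ y + 2 - P.T j ∧ 6 * col X - X ≤ y + 2 - P.T j) ∨
    (j = P.n + 1 ∧ y = P.T j + 1 ∧ X ≤ y + 6 * j ∧ -X ≤ y + 6 * j) ∨
    (j = P.n + 1 ∧ y = P.T j + 2 ∧
      (X = 2 * P.g ∨ X = -(2 * P.g) ∨ X = 2 * P.g + 2 * P.N ∨ X = -(2 * P.g + 2 * P.N)))))

/-- The points of a strut. -/
def Strut (N X y : ℤ) : Prop :=
  (X + y) % 2 = 0 ∧ ((y = 0 ∧ (X = 0 ∨ X = 4 * N)) ∨ (y = 1 ∧ -1 ≤ X ∧ X ≤ 4 * N + 1) ∨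
    (y = 2 ∧ 0 ≤ X ∧ X ≤ 4 * N))

/-- The points of part `j`: armatures `0, …, n + 1`, a path `-1` and two struts `-2`, `-3`. -/
def Par.S (P : Par) (j X y : ℤ) : Prop :=
  (0 ≤ j ∧ j ≤ P.n + 1 ∧ P.Arm j X y) ∨
  (j = -1 ∧ y = 0 ∧ X % 2 = 0 ∧ 0 ≤ X ∧ X ≤ 4 * P.N + 12) ∨
  ((j = -2 ∨ j = -3) ∧ Strut P.N X y)

/-- Names of vertices. -/
abbrev Nm : Type := ℤ × ℤ × ℤ

/-- The name of the point `(X, y)` of part `j`; points shared by two parts get one name. -/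
def Par.nm (P : Par) (j X y : ℤ) : Nm :=
  if 0 ≤ j then (if X = 0 then (0, 0, y) else (j, X, y))
  else if j = -1 then
    (if X = 0 then (P.n + 1, -(2 * P.g), P.T (P.n + 1) + 2)
      else if X = 4 * P.N + 12 then (P.n + 1, 2 * P.g, P.T (P.n + 1) + 2) else (j, X, y))
  else if y ≠ 0 then (j, X, y)
  else if j = -2 then
    (if X = 0 then (P.n + 1, -(2 * P.g + 2 * P.N), P.T (P.n + 1) + 2) else (-1, 2 * P.N, 0))
  else (if X = 0 then (P.n + 1, 2 * P.g + 2 * P.N, P.T (P.n + 1) + 2) else (-1, 2 * P.N + 12, 0))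

/-- The edges of the engine. -/
def Par.Edge (P : Par) (u v : Nm) : Prop :=
  ∃ j X y X' y', P.S j X y ∧ P.S j X' y' ∧ ladj X y X' y' ∧ u = P.nm j X y ∧ v = P.nm j X' y'

/-- The assignment `ν` splits every clause. -/
def Par.Split (P : Par) (ν : ℤ → Bool) : Prop :=
  ∀ i, 0 ≤ i → i < P.M → ∀ σ, ∃ j, 1 ≤ j ∧ j ≤ P.n ∧ P.occ j i ∧ ν j = σ

theorem Par.nm_inj {P : Par} (h : P.Good) {j X y X' y' : ℤ} (h1 : P.S j X y) (h2 : P.S j X' y')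
    (e : P.nm j X y = P.nm j X' y') : X = X' ∧ y = y' := by
  obtain ⟨g0, -, g1, g2, -, -⟩ := h
  have e1 := congrArg (·.1) e
  have e2 := congrArg (·.2.1) e
  have e3 := congrArg (·.2.2) e
  unfold Par.nm at e1 e2 e3
  rcases h1 with ⟨a, -⟩ | ⟨rfl, rfl, -⟩ | ⟨a, -, b⟩
  · simp only [if_pos a] at e1 e2 e3
    split_ifs at e1 e2 e3 <;> dsimp only at e1 e2 e3 <;> omega
  · rcases h2 with ⟨a, -⟩ | ⟨-, rfl, -⟩ | ⟨a, -⟩
    · omega
    · split_ifs at e1 e2 e3 <;> dsimp only at e1 e2 e3 <;> omega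
    · omega
  · rcases h2 with ⟨c, -⟩ | ⟨c, -⟩ | ⟨-, -, c⟩
    · omega
    · omega
    · split_ifs at e1 e2 e3 <;> dsimp only at e1 e2 e3 <;> omega

/-- A placement of the points of a part: distinct points are at distance at least one and
neighbours at distance one. -/
def Emb (K : ℕ) (S : ℤ → ℤ → Prop) (q : ℤ → ℤ → ℂ) : Prop :=
  ∀ X y X' y', S X y → S X' y' →
    (¬(X = X' ∧ y = y') → 1 ≤ nu K (q X y - q X' y')) ∧
      (ladj X y X' y' → nu K (q X y - q X' y') = 1)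

/-- The lattice point `(X, y)` in the frame `(o, a, s)`. -/
noncomputable def lat (o a s : ℂ) (X y : ℤ) : ℂ := o + X / 2 * a + y / 2 * s

end Pool.Agent.Lib.MP_0e6856_lc
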