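import Pool.Agent.Lib.MP_0e6856_lc.All.Tri
import Pool.Agent.Lib.MP_0e6856_lc.All.Eng

/-!
Triangulated parts are rigid.
-/

namespace Pool.Agent.Lib.MP_0e6856_lc

variable {K : ℕ} {S : ℤ → ℤ → Prop} {q : ℤ → ℤ → ℂ}

/-- The frame of a unit triangle carries over to the next one. -/
theorem Emb.rule (hK : 3 ≤ K) (h : Emb K S q) {X₁ y₁ X₂ y₂ X₃ y₃ X₄ y₄ : ℤ} (s₁ : S X₁ y₁)
    (s₂ : S X₂ y₂) (s₃ : S X₃ y₃) (s₄ : S X₄ y₄) (a12 : ladj X₁ y₁ X₂ y₂) (a13 : ladj X₁ y₁ X₃ y₃)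
    (a23 : ladj X₂ y₂ X₃ y₃) (hX : X₁ + X₄ = X₂ + X₃) (hy : y₁ + y₄ = y₂ + y₃) :
    q X₄ y₄ = q X₂ y₂ + q X₃ y₃ - q X₁ y₁ := by
  have a24 : ladj X₂ y₂ X₄ y₄ := by unfold ladj at *; omega
  have a34 : ladj X₃ y₃ X₄ y₄ := by unfold ladj at *; omega
  have n14 : ¬(X₁ = X₄ ∧ y₁ = y₄) := by unfold ladj at *; omega
  exact rhomb hK ((h _ _ _ _ s₁ s₂).2 a12) ((h _ _ _ _ s₁ s₃).2 a13) ((h _ _ _ _ s₂ s₃).2 a23)
    ((h _ _ _ _ s₂ s₄).2 a24) ((h _ _ _ _ s₃ s₄).2 a34) ((h _ _ _ _ s₁ s₄).1 n14)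

/-- A lattice frame carries over to the next triangle. -/
theorem Emb.step_rigid (hK : 3 ≤ K) (h : Emb K S q) {o a s : ℂ} {X₁ y₁ X₂ y₂ X₃ y₃ X₄ y₄ : ℤ}
    (s₁ : S X₁ y₁) (s₂ : S X₂ y₂) (s₃ : S X₃ y₃) (s₄ : S X₄ y₄) (a12 : ladj X₁ y₁ X₂ y₂)
    (a13 : ladj X₁ y₁ X₃ y₃) (a23 : ladj X₂ y₂ X₃ y₃) (hX : X₁ + X₄ = X₂ + X₃)
    (hy : y₁ + y₄ = y₂ + y₃) (e₁ : q X₁ y₁ = lat o a s X₁ y₁) (e₂ : q X₂ y₂ = lat o a s X₂ y₂)
    (e₃ : q X₃ y₃ = lat o a s X₃ y₃) : q X₄ y₄ = lat o a s X₄ y₄ := by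
  rw [h.rule hK s₁ s₂ s₃ s₄ a12 a13 a23 hX hy, e₁, e₂, e₃]
  have hX' : (X₄ : ℂ) = X₂ + X₃ - X₁ := by exact_mod_cast (by omega : X₄ = X₂ + X₃ - X₁)
  have hy' : (y₄ : ℂ) = y₂ + y₃ - y₁ := by exact_mod_cast (by omega : y₄ = y₂ + y₃ - y₁)
  unfold lat
  rw [hX', hy']
  ring

/-- The frame carries over across a horizontal edge. -/
theorem Emb.vert_rigid (hK : 3 ≤ K) (h : Emb K S q) {o a s : ℂ} {X y y' y'' : ℤ}
    (hy : y' = y + 1 ∨ y' = y - 1) (hy' : y + y'' = y' + y')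
    (s₁ : S X y) (s₂ : S (X - 1) y') (s₃ : S (X + 1) y') (s₄ : S X y'')
    (e₁ : q X y = lat o a s X y) (e₂ : q (X - 1) y' = lat o a s (X - 1) y')
    (e₃ : q (X + 1) y' = lat o a s (X + 1) y') : q X y'' = lat o a s X y'' :=
  h.step_rigid hK s₁ s₂ s₃ s₄ (by unfold ladj; omega) (by unfold ladj; omega)
    (by unfold ladj; omega) (by omega) hy' e₁ e₂ e₃

/-- A strip of two rows is rigid. -/
theorem Emb.zig_rigid (hK : 3 ≤ K) (h : Emb K S q) {o a s : ℂ} {L H r : ℤ}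
    (hS : ∀ X y, L ≤ X → X ≤ H → (y = r ∨ y = r + 1) → (X + y) % 2 = 0 → S X y)
    (hb : ∀ X y, H - 2 ≤ X → X ≤ H → (y = r ∨ y = r + 1) → (X + y) % 2 = 0 →
      q X y = lat o a s X y) :
    ∀ X y, L ≤ X → X ≤ H → (y = r ∨ y = r + 1) → (X + y) % 2 = 0 → q X y = lat o a s X y := by
  have key : ∀ m : ℕ, ∀ X y, H - 2 - m ≤ X → L ≤ X → X ≤ H → (y = r ∨ y = r + 1) →
      (X + y) % 2 = 0 → q X y = lat o a s X y := by
    intro m
    induction m with
    | zero => exact fun X y h0 _ h2 h3 h4 => hb X y (by omega) h2 h3 h4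
    | succ m ih =>
      intro X y h0 h1 h2 h3 h4
      by_cases hm : H - 2 - m ≤ X
      · exact ih X y hm h1 h2 h3 h4
      · have hm' : X = H - 3 - m := by omega
        refine h.step_rigid hK (X₁ := X + 3) (y₁ := 2 * r + 1 - y) (X₂ := X + 2) (y₂ := y)
          (X₃ := X + 1) (y₃ := 2 * r + 1 - y) (hS _ _ ?_ ?_ ?_ ?_) (hS _ _ ?_ ?_ ?_ ?_)
          (hS _ _ ?_ ?_ ?_ ?_) (hS _ _ h1 h2 h3 h4) ?_ ?_ ?_ ?_ ?_ (ih _ _ ?_ ?_ ?_ ?_ ?_)
          (ih _ _ ?_ ?_ ?_ ?_ ?_) (ih _ _ ?_ ?_ ?_ ?_ ?_)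
        all_goals first | omega | (unfold ladj; omega)
  intro X y h1 h2 h3 h4
  exact key (H - 2 - X).toNat X y (by omega) h1 h2 h3 h4

theorem vee_rigid (hK : 3 ≤ K) (h : Emb K S q) {fill : Prop} {A T : ℤ} (hA : A % 2 = 0)
    (hT : A + 1 ≤ T) (hS : ∀ X y, Vee fill A T X y → S X y) :
    ∃ o a b, Tri K a b ∧ ∀ X y, Vee fill A T X y → q X y = lat o a (2 * b - a) X y := by
  have mk : ∀ X y, (X + y) % 2 = 0 → A ≤ y → y ≤ T → X ≤ y - A → -X ≤ y - A →
      (y - A - 2 ≤ X ∨ y - A - 2 ≤ -X) → Vee fill A T X y := fun X y a b c d e f =>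
    ⟨a, b, c, d, e, Or.inr (f.imp_right Or.inl)⟩
  have v0 : Vee fill A T 0 A := by apply mk <;> omega
  have v1 : Vee fill A T 1 (A + 1) := by apply mk <;> omega
  have v2 : Vee fill A T (-1) (A + 1) := by apply mk <;> omega
  obtain ⟨a, ha⟩ : ∃ a, a = q 1 (A + 1) - q (-1) (A + 1) := ⟨_, rfl⟩
  obtain ⟨b, hb⟩ : ∃ b, b = q 1 (A + 1) - q 0 A := ⟨_, rfl⟩
  obtain ⟨o, ho⟩ : ∃ o, o = q 0 A - A / 2 * (2 * b - a) := ⟨_, rfl⟩
  refine ⟨o, a, b, ⟨?_, ?_, ?_⟩, ?_⟩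
  · rw [ha]
    exact (h _ _ _ _ (hS _ _ v1) (hS _ _ v2)).2 (by unfold ladj; omega)
  · rw [hb]
    exact (h _ _ _ _ (hS _ _ v1) (hS _ _ v0)).2 (by unfold ladj; omega)
  · rw [show b - a = q (-1) (A + 1) - q 0 A by rw [ha, hb]; ring]
    exact (h _ _ _ _ (hS _ _ v2) (hS _ _ v0)).2 (by unfold ladj; omega)
  have key : ∀ m : ℕ, ∀ X y, y ≤ A + 1 + m → Vee fill A T X y →
      q X y = lat o a (2 * b - a) X y := by
    intro m
    induction m with
    | zero =>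
      intro X y h0 ⟨p, h1, _, h3, h4, _⟩
      have : (X = 0 ∧ y = A) ∨ (X = 1 ∧ y = A + 1) ∨ (X = -1 ∧ y = A + 1) := by omega
      rcases this with ⟨rfl, rfl⟩ | ⟨rfl, rfl⟩ | ⟨rfl, rfl⟩
      · unfold lat; rw [ho]; push_cast; ring
      · unfold lat; rw [ho]; push_cast; rw [hb]; ring
      · unfold lat; rw [ho]; push_cast; rw [hb, ha]; ring
    | succ m ih =>
      have inner : ∀ X y, y = A + 2 + m → X ≤ y - 2 - A → -X ≤ y - 2 - A → Vee fill A T X y →
          q X y = lat o a (2 * b - a) X y := by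
        intro X y h0 h1 h2 v
        obtain ⟨p, c1, c2, c3, c4, c5⟩ := id v
        have w₁ : Vee fill A T X (y - 2) :=
          ⟨by omega, by omega, by omega, by omega, by omega, c5.imp_right (by omega)⟩
        have w₂ : Vee fill A T (X - 1) (y - 1) :=
          ⟨by omega, by omega, by omega, by omega, by omega, c5.imp_right (by omega)⟩
        have w₃ : Vee fill A T (X + 1) (y - 1) :=
          ⟨by omega, by omega, by omega, by omega, by omega, c5.imp_right (by omega)⟩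
        exact h.vert_rigid hK (by omega) (by omega) (hS _ _ w₁) (hS _ _ w₂) (hS _ _ w₃) (hS _ _ v)
          (ih _ _ (by omega) w₁) (ih _ _ (by omega) w₂) (ih _ _ (by omega) w₃)
      intro X y h0 v
      by_cases hm : y ≤ A + 1 + m
      · exact ih X y hm v
      obtain ⟨p, c1, c2, c3, c4, -⟩ := id v
      have hy : y = A + 2 + m := by omega
      by_cases d1 : X = y - A
      · have w₁ : Vee fill A T (X - 3) (y - 1) := by apply mk <;> omega
        have w₂ : Vee fill A T (X - 1) (y - 1) := by apply mk <;> omega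
        have w₃ : Vee fill A T (X - 2) y := by apply mk <;> omega
        exact h.step_rigid hK (hS _ _ w₁) (hS _ _ w₂) (hS _ _ w₃) (hS _ _ v)
          (by unfold ladj; omega) (by unfold ladj; omega) (by unfold ladj; omega) (by omega)
          (by omega) (ih _ _ (by omega) w₁) (ih _ _ (by omega) w₂)
          (inner _ _ hy (by omega) (by omega) w₃)
      by_cases d2 : -X = y - A
      · have w₁ : Vee fill A T (X + 3) (y - 1) := by apply mk <;> omega
        have w₂ : Vee fill A T (X + 1) (y - 1) := by apply mk <;> omega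
        have w₃ : Vee fill A T (X + 2) y := by apply mk <;> omega
        exact h.step_rigid hK (hS _ _ w₁) (hS _ _ w₂) (hS _ _ w₃) (hS _ _ v)
          (by unfold ladj; omega) (by unfold ladj; omega) (by unfold ladj; omega) (by omega)
          (by omega) (ih _ _ (by omega) w₁) (ih _ _ (by omega) w₂)
          (inner _ _ hy (by omega) (by omega) w₃)
      exact inner X y hy (by omega) (by omega) v
  intro X y v
  exact key (y - A - 1).toNat X y (by omega) v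

/-- The innermost and the outermost armature are rigid. -/
theorem arm_rigid (hK : 3 ≤ K) {P : Par} (hP : P.Good) {j : ℤ} (hj : j = 0 ∨ j = P.n + 1)
    (h : Emb K (P.Arm j) q) {o a s : ℂ}
    (hv : ∀ X y, Vee (j = 0) (-6 * j) (P.T j) X y → q X y = lat o a s X y) :
    ∀ X y, P.Arm j X y → q X y = lat o a s X y := by
  obtain ⟨g0, g1, g2, g3, g4, g5⟩ := hP
  have hT : P.T j = 2 * P.t + 4 * j := rfl
  rcases hj with hj | hj
  · have mk : ∀ X y, (X + y) % 2 = 0 → 0 ≤ y → y ≤ P.T j → X ≤ y → -X ≤ y →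
        Vee (j = 0) (-6 * j) (P.T j) X y := fun X y a b c d e =>
      ⟨a, by omega, c, by omega, by omega, Or.inl hj⟩
    have up : ∀ X y, -P.M ≤ col X → col X ≤ P.M → y = P.T j + 1 → P.Arm j X y →
        (X + y) % 2 = 0 → X - 6 * col X ≤ 1 → 6 * col X - X ≤ 1 → q X y = lat o a s X y := by
      intro X y c1 c2 c3 v c4 c5 c6
      have w₁ : Vee (j = 0) (-6 * j) (P.T j) X (y - 2) := by apply mk <;> omega
      have w₂ : Vee (j = 0) (-6 * j) (P.T j) (X - 1) (y - 1) := by apply mk <;> omega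
      have w₃ : Vee (j = 0) (-6 * j) (P.T j) (X + 1) (y - 1) := by apply mk <;> omega
      exact h.vert_rigid hK (by omega) (by omega) (Or.inl w₁) (Or.inl w₂) (Or.inl w₃) v
        (hv _ _ w₁) (hv _ _ w₂) (hv _ _ w₃)
    intro X y v
    rcases id v with w | ⟨p, ⟨c1, c2, c3⟩ | ⟨c1, c2, c3, c4, c5, c6⟩ | ⟨-, -, c, -⟩ | ⟨c, -⟩ |
      ⟨c, -⟩⟩
    · exact hv _ _ w
    · exact hv _ _ (by apply mk <;> omega)
    · by_cases d : y = P.T j + 1
      · exact up X y c1 c2 d v p (by omega) (by omega)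
      · have e₂ : col (X - 1) = col X := by unfold col at *; omega
        have e₃ : col (X + 1) = col X := by unfold col at *; omega
        have w₁ : Vee (j = 0) (-6 * j) (P.T j) X (y - 2) := by apply mk <;> omega
        have w₂ : P.Arm j (X - 1) (y - 1) := Or.inr ⟨by omega, Or.inr (Or.inl
          ⟨by omega, by omega, by rw [e₂]; exact c3, by omega, by omega, by omega⟩)⟩
        have w₃ : P.Arm j (X + 1) (y - 1) := Or.inr ⟨by omega, Or.inr (Or.inl
          ⟨by omega, by omega, by rw [e₃]; exact c3, by omega, by omega, by omega⟩)⟩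
        exact h.vert_rigid hK (by omega) (by omega) (Or.inl w₁) w₂ w₃ v (hv _ _ w₁)
          (up _ _ (by omega) (by omega) (by omega) w₂ (by omega) (by omega) (by omega))
          (up _ _ (by omega) (by omega) (by omega) w₃ (by omega) (by omega) (by omega))
    · unfold Par.Dn at c
      omega
    · omega
    · omega
  · obtain ⟨R, hR⟩ : ∃ R, R = P.T j + 6 * j := ⟨_, rfl⟩
    have mk : ∀ X y, (X + y) % 2 = 0 → -6 * j ≤ y → y ≤ P.T j → X ≤ y + 6 * j → -X ≤ y + 6 * j →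
        y + 6 * j - 2 ≤ X → Vee (j = 0) (-6 * j) (P.T j) X y := fun X y a b c d e f =>
      ⟨a, b, c, by omega, by omega, Or.inr (Or.inl (by omega))⟩
    have row : ∀ X y, -(R + 1) ≤ X → X ≤ R + 1 → (y = P.T j ∨ y = P.T j + 1) → (X + y) % 2 = 0 →
        P.Arm j X y := by
      rintro X y c1 c2 (c3 | c3) c4
      · exact Or.inr ⟨c4, Or.inl ⟨c3, by omega, by omega⟩⟩
      · exact Or.inr ⟨c4, Or.inr (Or.inr (Or.inr (Or.inl ⟨hj, c3, by omega, by omega⟩)))⟩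
    have u₁ : Vee (j = 0) (-6 * j) (P.T j) (R - 1) (P.T j - 1) := by apply mk <;> omega
    have u₂ : Vee (j = 0) (-6 * j) (P.T j) (R - 1 - 1) (P.T j) := by apply mk <;> omega
    have u₃ : Vee (j = 0) (-6 * j) (P.T j) (R - 1 + 1) (P.T j) := by apply mk <;> omega
    have r₁ : P.Arm j (R - 1) (P.T j + 1) := by apply row <;> omega
    have r₂ : P.Arm j (R + 1) (P.T j + 1) := by apply row <;> omega
    have b₁ : q (R - 1) (P.T j + 1) = lat o a s (R - 1) (P.T j + 1) :=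
      h.vert_rigid hK (by omega) (by omega) (Or.inl u₁) (Or.inl u₂) (Or.inl u₃) r₁
        (hv _ _ u₁) (hv _ _ u₂) (hv _ _ u₃)
    have b₂ : q (R + 1) (P.T j + 1) = lat o a s (R + 1) (P.T j + 1) :=
      h.step_rigid hK (Or.inl u₂) (Or.inl u₃) r₁ r₂ (by unfold ladj; omega)
        (by unfold ladj; omega) (by unfold ladj; omega) (by omega) (by omega)
        (hv _ _ u₂) (hv _ _ u₃) b₁
    have zig := h.zig_rigid hK (o := o) (a := a) (s := s) row (by
      intro X y c1 c2 c3 c4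
      have : (X = R - 1 ∧ y = P.T j + 1) ∨ (X = R - 1 + 1 ∧ y = P.T j) ∨
        (X = R + 1 ∧ y = P.T j + 1) := by omega
      rcases this with ⟨rfl, rfl⟩ | ⟨rfl, rfl⟩ | ⟨rfl, rfl⟩
      · exact b₁
      · exact hv _ _ u₃
      · exact b₂)
    have dn : ∀ X y, -P.M ≤ col X → col X ≤ P.M → y = P.T j - 1 → P.Arm j X y →
        (X + y) % 2 = 0 → X - 6 * col X ≤ 1 → 6 * col X - X ≤ 1 → q X y = lat o a s X y := by
      intro X y c1 c2 c3 v c4 c5 c6
      refine h.vert_rigid hK (y := y + 2) (y' := y + 1) (by omega) (by omega) ?_ ?_ ?_ v ?_ ?_ ?_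
      all_goals first | (apply row <;> omega) | (apply zig <;> omega)
    intro X y v
    rcases id v with w | ⟨p, ⟨c1, c2, c3⟩ | ⟨-, -, c, -⟩ | ⟨c1, c2, c3, c4, c5, c6⟩ |
      ⟨-, c1, c2, c3⟩ | ⟨-, c1, c2⟩⟩
    · exact hv _ _ w
    · apply zig <;> omega
    · unfold Par.Up at c
      omega
    · by_cases d : y = P.T j - 1
      · exact dn X y c1 c2 d v p (by omega) (by omega)
      · have e₂ : col (X - 1) = col X := by unfold col at *; omega
        have e₃ : col (X + 1) = col X := by unfold col at *; omega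
        have w₂ : P.Arm j (X - 1) (y + 1) := Or.inr ⟨by omega, Or.inr (Or.inr (Or.inl
          ⟨by omega, by omega, Or.inr hj, by omega, by omega, by omega⟩))⟩
        have w₃ : P.Arm j (X + 1) (y + 1) := Or.inr ⟨by omega, Or.inr (Or.inr (Or.inl
          ⟨by omega, by omega, Or.inr hj, by omega, by omega, by omega⟩))⟩
        exact h.vert_rigid hK (y := y + 2) (by omega) (by omega) (by apply row <;> omega) w₂ w₃ v
          (by apply zig <;> omega)
          (dn _ _ (by omega) (by omega) (by omega) w₂ (by omega) (by omega) (by omega))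
          (dn _ _ (by omega) (by omega) (by omega) w₃ (by omega) (by omega) (by omega))
    · apply zig <;> omega
    · refine h.vert_rigid hK (y := y - 2) (y' := y - 1) (by omega) (by omega) ?_ ?_ ?_ v ?_ ?_ ?_
      all_goals first | (apply row <;> omega) | (apply zig <;> omega)

theorem strut_rigid (hK : 3 ≤ K) {N : ℤ} (hN : 1 ≤ N) (h : Emb K (Strut N) q) :
    ∃ u, nu K u = 1 ∧ q (4 * N) 0 - q 0 0 = 2 * N * u := by
  have row : ∀ X y, -1 ≤ X → X ≤ 4 * N + 1 → (y = 1 ∨ y = 1 + 1) → (X + y) % 2 = 0 →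
      Strut N X y := fun X y c1 c2 c3 c4 => ⟨c4, by omega⟩
  obtain ⟨a, ha⟩ : ∃ a, a = q (4 * N + 1) 1 - q (4 * N - 1) 1 := ⟨_, rfl⟩
  obtain ⟨s, hs⟩ : ∃ s, s = 2 * q (4 * N) 2 - q (4 * N + 1) 1 - q (4 * N - 1) 1 := ⟨_, rfl⟩
  obtain ⟨o, ho⟩ : ∃ o, o = q (4 * N) 2 - 2 * N * a - s := ⟨_, rfl⟩
  have zig := h.zig_rigid hK (o := o) (a := a) (s := s) row (by
    intro X y c1 c2 c3 c4
    have : (X = 4 * N - 1 ∧ y = 1) ∨ (X = 4 * N ∧ y = 2) ∨ (X = 4 * N + 1 ∧ y = 1) := by omega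
    rcases this with ⟨rfl, rfl⟩ | ⟨rfl, rfl⟩ | ⟨rfl, rfl⟩ <;>
    · unfold lat; rw [ho]; push_cast; rw [hs, ha]; ring)
  have tip : ∀ X, (X = 0 ∨ X = 4 * N) → q X 0 = lat o a s X 0 := by
    intro X hX
    refine h.vert_rigid hK (y := 2) (y' := 1) (by omega) (by omega) ?_ ?_ ?_
      ⟨by omega, Or.inl ⟨rfl, hX⟩⟩ ?_ ?_ ?_
    all_goals first | (apply row <;> omega) | (apply zig <;> omega)
  refine ⟨a, ?_, ?_⟩
  · rw [ha]
    exact (h _ _ _ _ (by apply row <;> omega) (by apply row <;> omega)).2 (by unfold ladj; omega)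
  · rw [tip _ (Or.inr rfl), tip _ (Or.inl rfl)]
    unfold lat
    push_cast
    ring

/-- A triangle of side two on the row `T`, pointing in the direction `e`. -/
theorem flag_rigid (hK : 3 ≤ K) (h : Emb K S q) {c T e : ℤ} (he : e = 1 ∨ e = -1)
    (s₁ : S (c - 2) T) (s₂ : S c T) (s₃ : S (c - 1) (T + e)) (s₄ : S (c + 1) (T + e))
    (s₅ : S c (T + 2 * e)) :
    Tri K (q c T - q (c - 2) T) (q (c - 1) (T + e) - q (c - 2) T) ∧
      q c (T + 2 * e) - q c T =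
        2 * (q (c - 1) (T + e) - q (c - 2) T) - (q c T - q (c - 2) T) := by
  refine ⟨⟨(h _ _ _ _ s₂ s₁).2 (by unfold ladj; omega), (h _ _ _ _ s₃ s₁).2 (by unfold ladj; omega),
    ?_⟩, ?_⟩
  · rw [sub_sub_sub_cancel_right]
    exact (h _ _ _ _ s₃ s₂).2 (by unfold ladj; omega)
  · rw [h.rule hK s₂ s₃ s₄ s₅ (by unfold ladj; omega) (by unfold ladj; omega)
      (by unfold ladj; omega) (by omega) (by omega), h.rule hK s₁ s₂ s₃ s₄ (by unfold ladj; omega)
      (by unfold ladj; omega) (by unfold ladj; omega) (by omega) (by omega)]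
    ring

end Pool.Agent.Lib.MP_0e6856_lc
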