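import Pool.Agent.Lib.MP_0e6856_lc.All.Extreme
import Pool.Agent.Lib.MP_0e6856_lc.All.Rigid

/-!
The gadget forces a corner direction, and the armatures inherit it.
-/

namespace Pool.Agent.Lib.MP_0e6856_lc

variable {K : ℕ}

theorem tight_dsc (hK : 2 ≤ K) {N : ℝ} (hN : 0 < N) {a u z : ℂ} (ha : nu K a = 1) (hu : nu K u = 1)
    (hz : nu K z ≤ N) (e : z + N * a = (2 * N : ℝ) * u) :
    ∃ l, Fn K l a = rho K ∧ Fn K l z = N * rho K := by
  obtain ⟨l, hl⟩ := exists_nu hK u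
  have a1 := congrArg (Fn K l) e
  rw [Fn_add, Fn_smul, Fn_smul, hl, hu] at a1
  have a2 := (nu_le_iff hK).1 hz l
  have a3 := (nu_le_iff hK).1 ha.le l
  have a4 := mul_le_mul_of_nonneg_left a3 hN.le
  exact ⟨l, mul_left_cancel₀ hN.ne' (by linarith), by linarith⟩

theorem gadget_root (hK : 2 ≤ K) {N g : ℤ} (hN : 1 ≤ N) (hg : g + 3 < N) {a u u' : ℂ} {w : ℤ → ℂ}
    (ha : nu K a = 1) (hu : nu K u = 1) (hu' : nu K u' = 1)
    (hw : ∀ i, 0 ≤ i → i < 2 * N + 6 → nu K (w (i + 1) - w i) ≤ 1)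
    (e : w (2 * N + 6) - w 0 = 2 * g * a) (e₁ : w N - (w 0 - N * a) = 2 * N * u)
    (e₂ : w (N + 6) - (w (2 * N + 6) + N * a) = 2 * N * u') : Root K a := by
  by_contra hr
  have N0 : (0 : ℝ) < N := by exact_mod_cast (by omega : 0 < N)
  have g0 : (g : ℝ) + 3 < N := by exact_mod_cast hg
  have c1 := chain_le hK (m := 0) (n := N) (by omega) fun i a b => hw i a (by omega)
  have c2 := chain_le hK (m := N) (n := N + 6) (by omega) fun i a b => hw i (by omega) (by omega)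
  have c3 := chain_le hK (m := N + 6) (n := 2 * N + 6) (by omega) fun i a b => hw i (by omega) b
  push_cast at c1 c2 c3
  obtain ⟨l, p1, p2⟩ := tight_dsc hK N0 ha hu (z := w N - w 0) (by linarith)
    (by push_cast; linear_combination e₁)
  obtain ⟨l', q1, q2⟩ := tight_dsc hK N0 ha ((nu_neg hK u').trans hu')
    (z := w (2 * N + 6) - w (N + 6)) (by linarith) (by push_cast; linear_combination -e₂)
  rw [← smooth hK ha hr p1 q1] at q2
  rw [nu_sub_comm hK] at c2
  have c4 := (nu_le_iff hK).1 c2 l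
  have c5 := congrArg (Fn K l) (e.trans (show 2 * g * a = (2 * g : ℝ) * a by push_cast; ring))
  rw [Fn_smul, p1] at c5
  simp only [Fn_sub] at p2 q2 c4 c5
  nlinarith [rho_pos hK]

/-- Armature `j`, placed by `q`, has its frame and its chain in the lattice `(o, a, s)` or in its
mirror image. -/
def Par.Fixed (P : Par) (j : ℤ) (q : ℤ → ℤ → ℂ) (o a s : ℂ) : Prop :=
  ∃ a', (a' = a ∨ a' = -a) ∧ ∀ X y, (Vee (j = 0) (-6 * j) (P.T j) X y ∨
    (X % 2 = 0 ∧ y = P.T j ∧ X ≤ y + 6 * j ∧ -X ≤ y + 6 * j)) → q X y = lat o a' s X y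

/-- One step of the descent: the two pivots fix the inner armature. -/
theorem descent (hK : 3 ≤ K) {P : Par} (hP : P.Good) {j : ℤ} (h0 : 0 ≤ j) (h1 : j ≤ P.n)
    {q : ℤ → ℤ → ℂ} (h : Emb K (P.Arm j) q) {o a b : ℂ} (r : Root K a) (t : Tri K a b)
    (e₁ : q 0 (-6 * j) = lat o a (2 * b - a) 0 (-6 * j))
    (e₂ : q 0 (P.T j + 2) = lat o a (2 * b - a) 0 (P.T j + 2) ∨
      q 0 (P.T j + 2) = lat o a (2 * b - a) 0 (P.T j + 6)) :
    P.Fixed j q o a (2 * b - a) := by
  have h2 : 2 ≤ K := by omega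
  obtain ⟨g0, g1, g2, g3, g4, g5⟩ := id hP
  obtain ⟨m, hm⟩ : ∃ m, m = P.t + 5 * j := ⟨_, rfl⟩
  have hT : P.T j = 2 * m - 6 * j := by rw [Par.T]; omega
  have m6 : (6 : ℝ) ≤ m := by exact_mod_cast (by omega : 6 ≤ m)
  obtain ⟨o₁, a₁, b₁, t₁, hv⟩ := vee_rigid hK h (fill := j = 0) (A := -6 * j) (T := P.T j)
    (by omega) (by omega) fun X y h => Or.inl h
  have row : ∀ X, X % 2 = 0 → X ≤ 2 * m → -X ≤ 2 * m → P.Arm j X (P.T j) := fun X a b c =>
    Or.inr ⟨by omega, Or.inl ⟨rfl, by omega, by omega⟩⟩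
  have up : ∀ X y, (X + y) % 2 = 0 → P.T j < y → X ≤ P.T j + 2 - y → -X ≤ P.T j + 2 - y →
      P.Arm j X y := fun X y a b c d => by
    have : col X = 0 := by unfold col; omega
    refine Or.inr ⟨a, Or.inr (Or.inl ?_)⟩
    rw [this]
    exact ⟨by omega, g1, ⟨h1, Or.inl le_rfl⟩, b, by omega, by omega⟩
  have st : ∀ i, -m ≤ i → i < m → nu K (q (2 * (i + 1)) (P.T j) - q (2 * i) (P.T j)) ≤ 1 :=
    fun i a b => ((h _ _ _ _ (row _ (by omega) (by omega) (by omega))
      (row _ (by omega) (by omega) (by omega))).2 (Or.inl ⟨rfl, Or.inl (by ring)⟩)).le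
  have vl := hv (2 * -m) (P.T j) (by unfold Vee; omega)
  have vr := hv (2 * m) (P.T j) (by unfold Vee; omega)
  have v0 := hv 0 (-6 * j) (by unfold Vee; omega)
  have ends : q (2 * m) (P.T j) - q (2 * -m) (P.T j) = ((m : ℂ) - (-m : ℤ)) * a₁ := by
    rw [vl, vr, lat, lat]
    push_cast
    ring
  obtain ⟨t₂, f⟩ := flag_rigid hK h (c := 0) (T := P.T j) (Or.inl rfl)
    (row _ (by omega) (by omega) (by omega)) (row _ (by omega) (by omega) (by omega))
    (up _ _ (by omega) (by omega) (by omega) (by omega))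
    (up _ _ (by omega) (by omega) (by omega) (by omega))
    (up _ _ (by omega) (by omega) (by omega) (by omega))
  rw [mul_one, zero_sub 2] at f
  rw [zero_sub 2] at t₂
  generalize q (0 - 1) (P.T j + 1) - q (-2) (P.T j) = b₂ at t₂ f
  obtain ⟨c, c1, ec⟩ : ∃ c : ℝ, (c = m + 1 ∨ c = m + 3) ∧
      q 0 (P.T j + 2) - q 0 (-6 * j) = c * (2 * b - a) := by
    rcases e₂ with e | e
    · exact ⟨_, Or.inl rfl, by rw [e, e₁, lat, lat, hT]; push_cast; ring⟩
    · exact ⟨_, Or.inr rfl, by rw [e, e₁, lat, lat, hT]; push_cast; ring⟩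
  have base : q (2 * -m) (P.T j) - q 0 (-6 * j) = (m : ℝ) * (2 * b₁ - a₁) - (m : ℝ) * a₁ := by
    rw [vl, v0, lat, lat, hT]
    push_cast
    ring
  have r₁ : Root K a₁ := by
    obtain ⟨l, hl⟩ := exists_nu h2 a₁
    rw [t₁.1, one_mul] at hl
    have tt := fun i => taut h2 (q := fun i => q (2 * i) (P.T j)) (l := l) (i := i) st (by
      rw [ends, ← hl, ← Fn_smul]
      push_cast
      rfl)
    have x0 := tt 0 (by omega) (by omega)
    have x1 := tt (-1) (by omega) (by omega)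
    have y1 := congrArg (Fn K l) ec
    have y2 := congrArg (Fn K l) base
    have y3 := congrArg (Fn K l) f
    rw [mul_zero] at x0
    push_cast at x0 x1
    rw [Fn_smul, Fn_sub] at y1
    rw [Fn_sub, Fn_sub, Fn_smul, Fn_smul, hl] at y2
    rw [Fn_sub] at x0 x1 y3
    exact step_root hK (l := l) (c := c) (H := m) r t t₁ t₂ hl (by rw [Fn_sub]; linarith)
      (by linarith) (by rcases c1 with e | e <;> linarith) (by linarith)
  have ex : ∀ i, -m ≤ i → i ≤ m → q (2 * i) (P.T j) = q (2 * -m) (P.T j) + (i + m) * a₁ :=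
    fun i a b => by
      have := taut_root h2 (q := fun i => q (2 * i) (P.T j)) r₁ st ends a b
      push_cast at this
      linear_combination this
  have x0 := ex 0 (by omega) (by omega)
  have x1 := ex (-1) (by omega) (by omega)
  rw [mul_zero] at x0
  push_cast at x0 x1 base
  have ea : q 0 (P.T j) - q (-2) (P.T j) = a₁ := by linear_combination x0 - x1
  rw [ea] at t₂ f
  have c0 : 0 < c := by rcases c1 with e | e <;> linarith
  obtain ⟨es, ea'⟩ : 2 * b₁ - a₁ = 2 * b - a ∧ (a₁ = a ∨ a₁ = -a) := by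
    rcases t₁.unique hK t₂ with rfl | rfl
    · exact (step_eq hK r t r₁ t₁ c0 (d := m + 1) (by linarith)
        (by push_cast; linear_combination f + x0 + base - ec)).2
    · exact (step_eq hK r t r₁ t₁ c0 (d := m - 1) (by linarith)
        (by push_cast; linear_combination f + x0 + base - ec)).2
  obtain rfl : o₁ = o := by
    rw [v0, es, lat, lat] at e₁
    push_cast at e₁
    linear_combination e₁
  refine ⟨a₁, ea', fun X y hh => ?_⟩
  rcases hh with hh | ⟨p1, rfl, p2, p3⟩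
  · rw [hv X y hh, es]
  · obtain ⟨i, rfl⟩ : ∃ i, X = 2 * i := ⟨X / 2, by omega⟩
    rw [ex i (by omega) (by omega), vl, es, lat, lat]
    push_cast
    ring

/-- The tip of a flag on a fixed chain; `e = 1` for flags above the chain, `e = -1` below. -/
theorem flag_tip (hK : 3 ≤ K) {S : ℤ → ℤ → Prop} {q : ℤ → ℤ → ℂ} (h : Emb K S q) {o a b a' : ℂ}
    (t : Tri K a b) (ha : a' = a ∨ a' = -a) {c T e : ℤ} (he : e = 1 ∨ e = -1)
    (s₁ : S (c - 2) T) (s₂ : S c T) (s₃ : S (c - 1) (T + e)) (s₄ : S (c + 1) (T + e))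
    (s₅ : S c (T + 2 * e)) (e₁ : q (c - 2) T = lat o a' (2 * b - a) (c - 2) T)
    (e₂ : q c T = lat o a' (2 * b - a) c T) :
    q c (T + 2 * e) = lat o a' (2 * b - a) c (T + 2) ∨
      q c (T + 2 * e) = lat o a' (2 * b - a) c (T - 2) := by
  have h2 : 2 ≤ K := by omega
  obtain ⟨t₂, f⟩ := flag_rigid hK h he s₁ s₂ s₃ s₄ s₅
  generalize q (c - 1) (T + e) - q (c - 2) T = b₂ at t₂ f
  have ea : q c T - q (c - 2) T = a' := by
    rw [e₁, e₂, lat, lat]
    push_cast
    ring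
  rw [ea] at t₂ f
  obtain ⟨b', t', eb⟩ : ∃ b', Tri K a' b' ∧ 2 * b' - a' = 2 * b - a := by
    rcases ha with rfl | rfl
    · exact ⟨b, t, rfl⟩
    · exact ⟨b - a, ⟨by rw [nu_neg h2, t.1], t.2.2, by simpa using t.2.1⟩, by ring⟩
  simp only [lat] at e₂ ⊢
  push_cast
  rcases t'.unique hK t₂ with rfl | rfl
  · exact Or.inl (by linear_combination f + e₂ + eb)
  · exact Or.inr (by linear_combination f + e₂ - eb)

end Pool.Agent.Lib.MP_0e6856_lc
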