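import Pool.Agent.Lib.MP_0e6856_lc.All.Tri

/-!
The height of a unit triangle is extremal at the corners.
-/

namespace Pool.Agent.Lib.MP_0e6856_lc

open Complex (I)

variable {K : ℕ}

theorem exists_beta (hK : 2 ≤ K) : ∃ β : ℝ, 0 < β ∧ nu K (1 / 2 + β * Complex.I) = 1 := by
  have h : nu K (1 / 2) = 1 / 2 := by simpa [nu_one hK] using nu_smul hK (t := 1 / 2) (by norm_num) 1
  obtain ⟨t, t0, e⟩ := exists_unit hK (z := 1 / 2) (by linarith) Complex.I_ne_zero
  refine ⟨t, t0.lt_of_ne ?_, e⟩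
  rintro rfl
  rw [Complex.ofReal_zero, zero_mul, add_zero, h] at e
  norm_num at e

theorem tri_one_ext (hK : 2 ≤ K) {β : ℝ} (hβ : nu K (1 / 2 + β * I) = 1) :
    Tri K 1 (1 / 2 + β * I) := by
  refine ⟨nu_one hK, hβ, ?_⟩
  rw [← nu_neg hK, ← nu_conj hK, ← hβ]
  congr 1
  apply Complex.ext <;> simp
  norm_num

theorem Tri.rot (hK : 2 ≤ K) {a b : ℂ} (h : Tri K a b) (r : ℤ) : Tri K (E K r * a) (E K r * b) :=
  ⟨by rw [nu_E_mul hK, h.1], by rw [nu_E_mul hK, h.2.1], by rw [← mul_sub, nu_E_mul hK, h.2.2]⟩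

/-- The unit triangles on a corner. -/
theorem root_apex (hK : 3 ≤ K) {β : ℝ} (hβ : nu K (1 / 2 + β * Complex.I) = 1) {a b : ℂ}
    (ha : Root K a) (h : Tri K a b) :
    2 * b - a = 2 * β * Complex.I * a ∨ 2 * b - a = -(2 * β * Complex.I * a) := by
  obtain ⟨r, rfl⟩ := ha
  have t := (tri_one_ext (by omega) hβ).rot (by omega) r
  rw [mul_one] at t
  rcases t.unique hK h with rfl | rfl
  · left; ring
  · right; ring

theorem mono_ext (hK : 2 ≤ K) {c y x : ℂ} (hc : nu K c = 1) (hy : nu K y = 1) (hx : nu K x = 1)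
    {α γ : ℝ} (a : 0 ≤ α) (g : 0 ≤ γ) (e : x = α * c + γ * y) : nu K (x - c) ≤ nu K (y - c) := by
  have s : 1 ≤ α + γ := by
    have := nu_add_le hK (α * c) (γ * y)
    rwa [← e, hx, nu_smul hK a, nu_smul hK g, hc, hy, mul_one, mul_one] at this
  have s0 : ((α + γ : ℝ) : ℂ) ≠ 0 := by exact_mod_cast (by linarith : α + γ ≠ 0)
  have a1 := nu_add_le hK ((α + γ - 1 : ℝ) * x) (γ * (y - c))
  have a2 := nu_add_le hK x (α * (y - c))
  rw [nu_smul hK (by linarith), nu_smul hK g, hx, show ((α + γ - 1 : ℝ) : ℂ) * x + γ * (y - c) =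
    (α + γ : ℝ) * (x - c) by push_cast; linear_combination -e, nu_smul hK (by linarith)] at a1
  rw [nu_smul hK a, hx, show x + α * (y - c) = (α + γ : ℝ) * y by
    push_cast; linear_combination e, nu_smul hK (by linarith), hy] at a2
  exact le_of_mul_le_mul_left (a := α + γ) (by linarith) (by linarith)

theorem upper_ext (hK : 3 ≤ K) {β τ : ℝ} (hβ0 : 0 < β) (hβ : nu K (1 / 2 + β * I) = 1)
    (t0 : 0 < τ) (t1 : τ < 1) {a b : ℂ} (ha : a = 1 + τ * (E K 1 - 1)) (h : Tri K a b)
    (hb : 0 < a.re * b.im - a.im * b.re) : Fn K 0 (2 * b - a) < 2 * β * sn K := by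
  have h2 : 2 ≤ K := by omega
  have r := rho_pos h2
  have s := sn_pos h2
  have s2 := sn_le hK
  have T := tri_one_ext h2 hβ
  have side := side_le_tri hK
  have side0 := nu_nonneg h2 (E K 1 - 1)
  have are : a.re = 1 - τ * (2 * sn K ^ 2) := by simp [ha, E_one_re, sub_eq_add_neg]
  have aim : a.im = τ * (2 * rho K * sn K) := by simp [ha, E_one_im]
  have i0 : 0 < a.im := by rw [aim]; positivity
  have fa : Fn K 0 a = rho K := by rw [Fn_zero, are, aim]; ring
  have f1 : Fn K 0 1 = rho K := by simp [Fn_zero]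
  have fb : Fn K 0 (1 / 2 + β * I) = rho K / 2 + β * sn K := by
    rw [Fn_zero]
    simp
    ring
  obtain ⟨b₀, hb₀⟩ : ∃ b₀ : ℂ, b₀ = 1 / 2 + β * I := ⟨_, rfl⟩
  have bre : b₀.re = 1 / 2 := by simp [hb₀]
  have bim : b₀.im = β := by simp [hb₀]
  rw [← hb₀] at T fb
  have fl := (nu_le_iff h2).1 T.2.1.le 0
  rw [one_mul] at fl
  have near : ∀ (w : ℂ) (x y : ℝ), 0 ≤ x → 0 < y → nu K w = 1 → Fn K 0 b₀ ≤ Fn K 0 w →
      b₀ = x * w + y * a → False := by
    intro w x y x0 y0 hw fw e
    have a1 := nu_add_le h2 (x * w) (y * a)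
    rw [← e, T.2.1, nu_smul h2 x0, nu_smul h2 y0.le, hw, h.1] at a1
    have a2 := congrArg (Fn K 0) e
    rw [Fn_add, Fn_smul, Fn_smul, fa] at a2
    have p : 0 < Fn K 0 b₀ := by rw [fb]; positivity
    have a3 := mul_le_mul_of_nonneg_left fw x0
    have a4 := mul_le_mul_of_nonneg_left fl y0.le
    have a5 : x + y = 1 := le_antisymm (le_of_mul_le_mul_right (a := Fn K 0 b₀) (by linarith) p)
      (by linarith)
    have a6 : Fn K 0 b₀ = rho K := le_antisymm fl (le_of_mul_le_mul_left (a := y) (by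
      have : (x + y) * Fn K 0 b₀ = Fn K 0 b₀ := by rw [a5, one_mul]
      linarith) y0)
    have a7 := facet_diam hK (l := 0) hw.le (nu_one h2).le (le_antisymm
      (by simpa using (nu_le_iff h2).1 hw.le 0) (a6 ▸ fw)) f1
    have a8 := nu_add_le h2 (x * (w - 1)) ((y * τ : ℝ) * (E K 1 - 1))
    have a9 : (x : ℂ) + y = 1 := by exact_mod_cast a5
    rw [nu_smul h2 x0, nu_smul h2 (by positivity), show x * (w - 1) + (y * τ : ℝ) * (E K 1 - 1) =
      b₀ - 1 by push_cast; linear_combination -e - y * ha - a9, T.2.2] at a8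
    nlinarith [mul_le_mul_of_nonneg_left a7 x0, mul_pos y0 (sub_pos.2 t1),
      mul_le_mul_of_nonneg_left side (mul_pos y0 t0).le]
  have c0 : 0 < a.re * β - a.im / 2 := by
    by_contra hc
    refine near 1 (1 / 2 - β / a.im * a.re) (β / a.im) ?_ (by positivity) (nu_one h2)
      (by rw [f1]; exact fl) ?_
    · rw [div_mul_eq_mul_div, sub_nonneg, div_le_iff₀ i0]
      linarith
    · apply Complex.ext
      · simp only [Complex.add_re, Complex.re_ofReal_mul, bre, Complex.one_re]
        ring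
      · simp only [Complex.add_im, Complex.im_ofReal_mul, bim, Complex.one_im]
        field_simp
        ring
  have d1 : nu K (a - b₀) < 1 := by
    have := mono_ext h2 T.2.1 T.1 h.1 (α := a.im / β) (γ := a.re - a.im / β / 2) (by positivity)
      (by rw [div_right_comm, sub_nonneg, div_le_iff₀ hβ0]; linarith) (by
        apply Complex.ext
        · simp only [Complex.add_re, Complex.re_ofReal_mul, bre, Complex.one_re]
          ring
        · simp only [Complex.add_im, Complex.im_ofReal_mul, bim, Complex.one_im]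
          field_simp
          ring)
    rw [nu_sub_comm h2 1, T.2.2] at this
    refine this.lt_of_ne fun e => ?_
    rcases Tri.unique hK (a := b₀) (b := 1) (b' := a)
      ⟨T.2.1, T.1, by rw [nu_sub_comm h2, T.2.2]⟩ ⟨T.2.1, h.1, e⟩ with e | e
    · rw [e] at i0
      simp at i0
    · have := congrArg Complex.re e
      rw [Complex.sub_re, bre, are, Complex.one_re] at this
      nlinarith
  obtain ⟨x, y, e⟩ : ∃ x y : ℝ, b = x * a + y * b₀ := by
    refine ⟨(b.re * β - b.im / 2) / (a.re * β - a.im / 2),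
      (a.re * b.im - a.im * b.re) / (a.re * β - a.im / 2), ?_⟩
    apply Complex.ext
    · simp only [Complex.add_re, Complex.re_ofReal_mul, bre]
      rw [div_mul_eq_mul_div, div_mul_eq_mul_div, ← add_div, eq_div_iff c0.ne']
      ring
    · simp only [Complex.add_im, Complex.im_ofReal_mul, bim]
      rw [div_mul_eq_mul_div, div_mul_eq_mul_div, ← add_div, eq_div_iff c0.ne']
      ring
  have y0 : 0 < y := by
    rw [e] at hb
    simp only [Complex.add_re, Complex.add_im, Complex.re_ofReal_mul, Complex.im_ofReal_mul, bre,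
      bim] at hb
    exact pos_of_mul_pos_right (b := y) (a := a.re * β - a.im / 2) (by linarith) c0.le
  have x0 : x < 0 := by
    by_contra hc
    have := mono_ext h2 h.1 T.2.1 h.2.1 (not_lt.1 hc) y0.le e
    rw [h.2.2, nu_sub_comm h2] at this
    linarith
  by_contra hc
  have y1 : (y : ℂ) ≠ 0 := by exact_mod_cast y0.ne'
  refine near b (1 / y) (-x / y) (by positivity) (div_pos (by linarith) y0) h.2.1 ?_
    (by rw [e]; push_cast; field_simp; ring)
  rw [Fn_sub, fa, two_mul b, Fn_add] at hc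
  linarith

theorem strict_ext (hK : 3 ≤ K) {β τ : ℝ} (hβ0 : 0 < β) (hβ : nu K (1 / 2 + β * I) = 1)
    (t0 : 0 < τ) (t1 : τ < 1) {a b : ℂ} (ha : a = 1 + τ * (E K 1 - 1)) (h : Tri K a b)
    (hb : 0 < a.re * b.im - a.im * b.re) : |Fn K 0 (2 * b - a)| < 2 * β * sn K := by
  have h2 : 2 ≤ K := by omega
  refine abs_lt.2 ⟨?_, upper_ext hK hβ0 hβ t0 t1 ha h hb⟩
  have R : ∀ z, nu K (E K 1 * (starRingEnd ℂ) z) = nu K z := fun z => by
    rw [nu_E_mul h2, nu_conj h2]
  have n : (E K 1).re ^ 2 + (E K 1).im ^ 2 = 1 := by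
    have := Complex.sq_norm (E K 1)
    rw [norm_E, Complex.normSq_apply] at this
    linarith
  have := upper_ext hK hβ0 hβ (τ := 1 - τ) (by linarith) (by linarith)
    (a := E K 1 * (starRingEnd ℂ) a) (b := E K 1 * (starRingEnd ℂ) (a - b)) (by
      rw [ha, map_add, map_mul, map_sub, conj_E, map_one, Complex.conj_ofReal]
      push_cast
      linear_combination τ * E_mul_neg (K := K) 1)
    ⟨by rw [R, h.1], by rw [R, (h.flip h2).2.1], by
      rw [← mul_sub, ← map_sub, R, (h.flip h2).2.2]⟩ (by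
      simp only [Complex.mul_re, Complex.mul_im, Complex.conj_re, Complex.conj_im, Complex.sub_re,
        Complex.sub_im]
      nlinarith)
  rw [show 2 * (E K 1 * (starRingEnd ℂ) (a - b)) - E K 1 * (starRingEnd ℂ) a =
    E K 1 * (starRingEnd ℂ) (-(2 * b - a)) by
      simp only [map_neg, map_sub, map_mul, map_ofNat]; ring, Fn_E_mul, Fn_conj, Fn_neg] at this
  norm_num at this ⊢
  linarith

theorem perp_ext (l : ℤ) {a : ℂ} (ha : Root K a) : Fn K l (I * a) ^ 2 + Fn K l a ^ 2 = 1 := by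
  have : ‖a * E (2 * K) (-(2 * l + 1))‖ ^ 2 = 1 := by simp [ha.norm]
  rw [Complex.sq_norm, Complex.normSq_apply] at this
  rw [Fn, Fn, mul_assoc, Complex.I_mul_re]
  linarith

theorem abs_root_ext (hK : 3 ≤ K) {β : ℝ} (hβ0 : 0 < β) (hβ : nu K (1 / 2 + β * I) = 1) {a b : ℂ}
    (ha : Root K a) (h : Tri K a b) (l : ℤ) : |Fn K l (2 * b - a)| = 2 * β * |Fn K l (I * a)| := by
  have : |Fn K l (2 * β * I * a)| = 2 * β * |Fn K l (I * a)| := by
    rw [show 2 * β * I * a = (2 * β : ℝ) * (I * a) by push_cast; ring, Fn_smul, abs_mul,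
      abs_of_pos (by positivity)]
  rcases root_apex hK hβ ha h with e | e
  · rw [e, this]
  · rw [e, Fn_neg, abs_neg, this]

/-- The height of a unit triangle, measured by the form of the side that carries its base. -/
theorem extreme (hK : 3 ≤ K) {β : ℝ} (hβ0 : 0 < β) (hβ : nu K (1 / 2 + β * Complex.I) = 1)
    {a b : ℂ} {l : ℤ} (h : Tri K a b) (e : Fn K l a = rho K) :
    |Fn K l (2 * b - a)| ≤ 2 * β * sn K ∧ (¬Root K a → |Fn K l (2 * b - a)| < 2 * β * sn K) := by
  have h2 : 2 ≤ K := by omega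
  have key : ¬Root K a → |Fn K l (2 * b - a)| < 2 * β * sn K := fun hr => by
    have T := h.rot h2 (-l)
    have back : ∀ z, E K l * (E K (-l) * z) = z := fun z => by rw [← mul_assoc, E_mul_neg, one_mul]
    obtain ⟨τ, t0, t1, ha⟩ := side_tri h2 T.1.le (by rw [Fn_E_mul]; simpa using e)
    have t0' : 0 < τ := t0.lt_of_ne fun e => hr ⟨l, by rw [← back a, ha, ← e]; simp⟩
    have t1' : τ < 1 := t1.lt_of_ne fun e => hr ⟨l + 1, by rw [← back a, ha, e, E_add]; simp⟩
    rw [← back (2 * b - a), Fn_E_mul, sub_self, mul_sub, mul_left_comm]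
    generalize E K (-l) * a = a' at *
    generalize E K (-l) * b = b' at *
    rcases lt_trichotomy 0 (a'.re * b'.im - a'.im * b'.re) with c | c | c
    · exact strict_ext hK hβ0 hβ t0' t1' ha T c
    · exfalso
      have i0 : a'.im ≠ 0 := by
        have := rho_pos h2
        have := sn_pos h2
        rw [show a'.im = τ * (2 * rho K * sn K) by simp [ha, E_one_im]]
        positivity
      refine line_tri h2 T (b'.im / a'.im) (Complex.ext ?_ ?_)
      · rw [Complex.re_ofReal_mul]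
        field_simp
        linarith
      · rw [Complex.im_ofReal_mul]
        field_simp
    · have := strict_ext hK hβ0 hβ t0' t1' ha (T.flip h2) (by
        rw [Complex.sub_re, Complex.sub_im]; linarith)
      rwa [show 2 * (a' - b') - a' = -(2 * b' - a') by ring, Fn_neg, abs_neg] at this
  refine ⟨?_, key⟩
  by_cases hr : Root K a
  · rw [abs_root_ext hK hβ0 hβ hr h]
    have := perp_ext l hr
    rw [e] at this
    exact mul_le_mul_of_nonneg_left (abs_le_of_sq_le_sq (by linarith [rho_sn (K := K)])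
      (sn_pos h2).le) (by positivity)
  · exact (key hr).le

/-- First step of the descent through the armatures. -/
theorem step_root (hK : 3 ≤ K) {a₀ b₀ a b a' b' : ℂ} {l : ℤ} {c H : ℝ} (r₀ : Root K a₀)
    (t₀ : Tri K a₀ b₀) (t : Tri K a b) (t' : Tri K a' b') (e : Fn K l a = rho K)
    (e' : Fn K l a' = rho K) (hH : 0 < H) (hc : H + 1 ≤ c)
    (h : c * Fn K l (2 * b₀ - a₀) = H * Fn K l (2 * b - a) + Fn K l (2 * b' - a')) : Root K a := by
  have h2 : 2 ≤ K := by omega
  obtain ⟨β, hβ0, hβ⟩ := exists_beta h2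
  by_contra hr
  have a1 := (extreme hK hβ0 hβ t e).2 hr
  have a2 := (extreme hK hβ0 hβ t' e').1
  have a3 : 2 * β * sn K ≤ |Fn K l (2 * b₀ - a₀)| := by
    rw [abs_root_ext hK hβ0 hβ r₀ t₀]
    refine mul_le_mul_of_nonneg_left (le_of_sq_le_sq ?_ (abs_nonneg _)) (by positivity)
    have p := (nu_le_iff h2).1 t₀.1.le l
    have q := (nu_le_iff h2).1 ((nu_neg h2 a₀).trans t₀.1).le l
    rw [Fn_neg] at q
    have := sq_le_sq' (a := Fn K l a₀) (b := rho K) (by linarith) (by linarith)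
    rw [sq_abs]
    linarith [perp_ext l r₀, rho_sn (K := K)]
  have a4 := abs_add_le (H * Fn K l (2 * b - a)) (Fn K l (2 * b' - a'))
  rw [← h, abs_mul, abs_mul, abs_of_pos hH, abs_of_pos (by linarith)] at a4
  have p : 0 < 2 * β * sn K := by
    have := sn_pos h2
    positivity
  nlinarith [mul_lt_mul_of_pos_left a1 hH, mul_le_mul hc a3 p.le (by linarith)]

/-- Second step of the descent through the armatures. -/
theorem step_eq (hK : 3 ≤ K) {a₀ b₀ a b : ℂ} {c d : ℝ} (r₀ : Root K a₀) (t₀ : Tri K a₀ b₀)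
    (r : Root K a) (t : Tri K a b) (hc : 0 < c) (hd : 0 < d)
    (h : c * (2 * b₀ - a₀) = d * (2 * b - a)) :
    c = d ∧ 2 * b - a = 2 * b₀ - a₀ ∧ (a = a₀ ∨ a = -a₀) := by
  obtain ⟨β, hβ0, hβ⟩ := exists_beta (K := K) (by omega)
  have n : ∀ {a b : ℂ}, Root K a → Tri K a b → ‖2 * b - a‖ = 2 * β := fun r t => by
    rcases root_apex hK hβ r t with e | e <;> simp [e, r.norm, abs_of_pos hβ0]
  have e := congrArg norm h
  rw [norm_mul, norm_mul, n r₀ t₀, n r t, Complex.norm_real, Complex.norm_real,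
    Real.norm_of_nonneg hc.le, Real.norm_of_nonneg hd.le] at e
  obtain rfl : c = d := mul_right_cancel₀ (by positivity) e
  have e2 := mul_left_cancel₀ (by exact_mod_cast hc.ne') h
  have z : (2 * β * I : ℂ) ≠ 0 := by simp [hβ0.ne']
  refine ⟨rfl, e2.symm, ?_⟩
  rcases root_apex hK hβ r₀ t₀ with p | p <;> rcases root_apex hK hβ r t with q | q
  · exact Or.inl (mul_left_cancel₀ z (by rw [← p, ← q, e2]))
  · exact Or.inr (mul_left_cancel₀ z (by linear_combination q - p + e2))
  · exact Or.inr (mul_left_cancel₀ z (by linear_combination p - q - e2))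
  · exact Or.inl (mul_left_cancel₀ z (by linear_combination q - p + e2))

end Pool.Agent.Lib.MP_0e6856_lc
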