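import Pool.Agent.Lib.MP_0e6856_lc.All.Eng

/-!
The placement of the gadget.
-/

namespace Pool.Agent.Lib.MP_0e6856_lc

open Complex (I)

/-- Half the distance of the tips of the two struts. -/
noncomputable def hd (K : ℕ) (N g : ℤ) : ℝ := g - N * (E K 1).re

/-- The midpoint of a side of the unit circle. -/
noncomputable def mid (K : ℕ) : ℂ := (1 + E K 1) / 2

/-- The constants of the placement. -/
structure Con (K : ℕ) (N g : ℤ) (β β' γ : ℝ) : Prop where
  hK : 3 ≤ K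
  g_pos : 1 ≤ g
  g_lt : g + 3 < N
  d_gt : 2 < hd K N g
  d_le : hd K N g ≤ 3
  β_pos : 0 < β
  hβ : nu K (1 / 2 + β * I) = 1
  β'_pos : 0 < β'
  hβ' : nu K ((1 / 2 + β' * I) * mid K) = 1
  γ_nonneg : 0 ≤ γ
  hγ : nu K (((hd K N g - 1) / 2 : ℝ) - γ * I) = 1

section
variable {K : ℕ}

theorem mid_eq_geo : mid K = rho K * (rho K + sn K * I) := by
  have h := rho_sn (K := K)
  apply Complex.ext
  · simp [mid, E_one_re]
    nlinarith
  · simp [mid, E_one_im]
    ring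

theorem norm_mid_geo (hK : 2 ≤ K) : ‖mid K‖ = rho K := by
  rw [mid_eq_geo, ← E_half, norm_mul, Complex.norm_real, Real.norm_of_nonneg (rho_pos hK).le]
  rw [E, Complex.norm_exp_ofReal_mul_I, mul_one]

theorem nu_mid_geo (hK : 2 ≤ K) : nu K (mid K) = 1 := by
  refine le_antisymm ?_ ((le_nu_iff hK).2 ⟨0, ?_⟩)
  · have e : mid K = ((1 / 2 : ℝ) : ℂ) * 1 + ((1 / 2 : ℝ) : ℂ) * E K 1 := by
      simp only [mid]; push_cast; ring
    have a := nu_add_le hK (((1 / 2 : ℝ) : ℂ) * 1) (((1 / 2 : ℝ) : ℂ) * E K 1)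
    rw [nu_smul hK (by norm_num), nu_smul hK (by norm_num), nu_one hK, nu_E hK] at a
    rw [e]; linarith
  · have h := rho_sn (K := K)
    rw [Fn_zero, mid_eq_geo]
    simp
    apply le_of_eq
    linear_combination (-rho K) * h

theorem nu_conj_mid_geo (hK : 2 ≤ K) (z : ℂ) :
    nu K ((starRingEnd ℂ) z * mid K) = nu K (z * mid K) := by
  have h := rho_sn (K := K)
  have e : E K 1 * (starRingEnd ℂ) (mid K) = mid K := by
    have h1 : E K 1 * (starRingEnd ℂ) (E K 1) = 1 := by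
      rw [conj_E, ← E_add]; simp
    simp only [mid, map_div₀, map_add, map_one, map_ofNat]
    linear_combination h1 / 2
  rw [← nu_conj hK (z * mid K), ← nu_E_mul hK 1 ((starRingEnd ℂ) (z * mid K)), map_mul,
    mul_left_comm, e]

end

theorem exists_con {K : ℕ} (hK : 3 ≤ K) {N g : ℤ} (h1 : 1 ≤ g) (h2 : g + 3 < N)
    (h3 : 2 < hd K N g) (h4 : hd K N g ≤ 3) : ∃ β β' γ, Con K N g β β' γ := by
  have hK2 : 2 ≤ K := by omega
  have half : ∀ z : ℂ, nu K z = 1 → nu K (1 / 2 * z) = 1 / 2 := fun z hz => by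
    have := nu_smul hK2 (t := 1 / 2) (by norm_num) z
    rw [hz] at this
    push_cast at this
    linarith
  have m0 : mid K ≠ 0 := by
    rw [← norm_pos_iff, norm_mid_geo hK2]; exact rho_pos hK2
  have a0 : nu K (1 / 2) = 1 / 2 := by simpa using half 1 (nu_one hK2)
  have b0 := half _ (nu_mid_geo hK2)
  obtain ⟨β, a1, a2⟩ := exists_unit hK2 (z := 1 / 2) (w := I) (by linarith) Complex.I_ne_zero
  obtain ⟨β', b1, b2⟩ := exists_unit hK2 (z := 1 / 2 * mid K) (w := I * mid K) (by linarith)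
    (mul_ne_zero Complex.I_ne_zero m0)
  have c0 : nu K (((hd K N g - 1) / 2 : ℝ) : ℂ) ≤ 1 := by
    have := nu_smul hK2 (t := (hd K N g - 1) / 2) (by linarith) 1
    rw [mul_one, nu_one hK2] at this
    linarith
  obtain ⟨γ, c1, c2⟩ := exists_unit hK2 (w := -I) c0 (neg_ne_zero.2 Complex.I_ne_zero)
  refine ⟨β, β', γ, hK, h1, h2, h3, h4, a1.lt_of_ne ?_, a2, b1.lt_of_ne ?_, ?_, c1, ?_⟩
  · rintro rfl
    rw [Complex.ofReal_zero, zero_mul, add_zero] at a2
    linarith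
  · rintro rfl
    rw [Complex.ofReal_zero, zero_mul, add_zero] at b2
    linarith
  · rw [← b2]; congr 1; ring
  · rwa [mul_neg, ← sub_eq_add_neg] at c2

theorem exists_Ng {K : ℕ} (hK : 3 ≤ K) : ∃ N g : ℕ, 1 ≤ g ∧ g + 3 < N ∧ 2 < hd K N g ∧
    hd K N g ≤ 3 := by
  have hK2 : 2 ≤ K := by omega
  have s0 := sn_pos hK2
  have s1 := sn_le hK
  have e := E_one_re (K := K)
  obtain ⟨N, hN⟩ := exists_nat_gt (6 / (2 * sn K ^ 2))
  rw [div_lt_iff₀ (by positivity)] at hN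
  have r0 : 0 ≤ (N : ℝ) * (E K 1).re := by
    refine mul_nonneg (Nat.cast_nonneg _) ?_
    rw [e]; nlinarith
  have f1 := Nat.floor_le r0
  have f2 := Nat.lt_floor_add_one ((N : ℝ) * (E K 1).re)
  refine ⟨N, ⌊(N : ℝ) * (E K 1).re⌋₊ + 3, by omega, ?_, ?_, ?_⟩
  · have : ((⌊(N : ℝ) * (E K 1).re⌋₊ + 3 + 3 : ℕ) : ℝ) < N := by
      push_cast
      have : (N : ℝ) * (E K 1).re = N - N * (2 * sn K ^ 2) := by rw [e]; ring
      linarith
    exact_mod_cast this
  · simp only [hd]; push_cast; linarith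
  · simp only [hd]; push_cast; linarith

/-- A lattice point. -/
noncomputable def lp (β : ℝ) (X y : ℤ) : ℂ := X / 2 + β * y * I

/-- The points of the left strut. -/
noncomputable def sp (K : ℕ) (N g : ℤ) (β' : ℝ) (X y : ℤ) : ℂ := -(g + N) + lp β' X y * mid K

/-- The points of the path. -/
noncomputable def pp (K : ℕ) (N g : ℤ) (γ : ℝ) (i : ℤ) : ℂ :=
  if i ≤ N then -g + i * E K 1
  else if N + 6 ≤ i then g - (2 * N + 6 - i) * (starRingEnd ℂ) (E K 1)
  else ((i - (N + 3)) * (hd K N g - 1) / 2 : ℝ) +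
    ((N * (E K 1).im - if i = N + 2 ∨ i = N + 4 then γ else 0 : ℝ)) * I

/-- The mirror image. -/
noncomputable def mir (z : ℂ) : ℂ := -(starRingEnd ℂ) z

variable {K : ℕ} {N g : ℤ} {β β' γ : ℝ}

theorem nu_mir (hK : 2 ≤ K) (z w : ℂ) : nu K (mir z - mir w) = nu K (z - w) := by
  rw [← nu_conj hK (z - w), ← nu_neg hK ((starRingEnd ℂ) (z - w))]
  congr 1
  simp only [mir, map_sub]
  ring

theorem mir_mir (z : ℂ) : mir (mir z) = z := by
  simp [mir]

theorem mir_lp (X y : ℤ) : mir (lp β X y) = lp β (-X) y := by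
  simp only [mir, lp, map_add, map_mul, map_div₀, map_intCast, map_ofNat, Complex.conj_ofReal,
    Complex.conj_I]
  push_cast
  ring

theorem Con.mir_pp (h : Con K N g β β' γ) (i : ℤ) :
    mir (pp K N g γ i) = pp K N g γ (2 * N + 6 - i) := by
  unfold pp
  by_cases a : i ≤ N
  · rw [if_pos a, if_neg (by omega), if_pos (by omega)]
    simp only [mir, map_add, map_neg, map_mul, map_intCast]
    push_cast
    ring
  · by_cases b : N + 6 ≤ i
    · rw [if_neg a, if_pos b, if_pos (by omega)]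
      simp only [mir, map_sub, map_add, map_mul, map_intCast, map_ofNat, Complex.conj_conj]
      push_cast
      ring
    · rw [if_neg a, if_neg b, if_neg (show ¬2 * N + 6 - i ≤ N by omega),
        if_neg (show ¬N + 6 ≤ 2 * N + 6 - i by omega)]
      have e : (2 * N + 6 - i = N + 2 ∨ 2 * N + 6 - i = N + 4) ↔ (i = N + 2 ∨ i = N + 4) := by
        omega
      simp only [e, mir, map_add, map_mul, Complex.conj_ofReal, Complex.conj_I]
      push_cast
      ring

theorem Con.pp_zero (h : Con K N g β β' γ) : pp K N g γ 0 = lp β (-(2 * g)) 0 := by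
  have := h.g_pos
  have := h.g_lt
  rw [pp, if_pos (by omega), lp]
  push_cast
  ring

theorem sp_zero : sp K N g β' 0 0 = lp β (-(2 * g + 2 * N)) 0 := by
  rw [sp, lp, lp]
  push_cast
  ring

theorem sp_tip : sp K N g β' (4 * N) 0 = pp K N g γ N := by
  rw [sp, lp, pp, if_pos le_rfl, mid]
  push_cast
  ring

theorem edge_geo {f : ℂ → ℝ} (hn : ∀ z, f (-z) = f z) (hc : ∀ z, f ((starRingEnd ℂ) z) = f z)
    (h1 : f 1 = 1) (h2 : f (1 / 2 + β * I) = 1) {X y X' y' : ℤ} (l : ladj X y X' y') :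
    f (lp β X y - lp β X' y') = 1 := by
  have h3 : f (1 / 2 - β * I) = 1 := by
    rw [← hc, ← h2]; congr 1
    apply Complex.ext <;> simp
  rcases l with ⟨rfl, rfl | rfl⟩ | ⟨rfl | rfl, rfl | rfl⟩
  · rw [← h1]; congr 1; simp only [lp]; push_cast; ring
  · rw [← hn, ← h1]; congr 1; simp only [lp]; push_cast; ring
  · rw [← h2]; congr 1; simp only [lp]; push_cast; ring
  · rw [← hn, ← h3]; congr 1; simp only [lp]; push_cast; ring
  · rw [← h3]; congr 1; simp only [lp]; push_cast; ring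
  · rw [← hn, ← h2]; congr 1; simp only [lp]; push_cast; ring

theorem norm_sq_lp_geo (X y X' y' : ℤ) : ‖lp β X y - lp β X' y'‖ ^ 2 =
    ((X - X' : ℤ) : ℝ) ^ 2 / 4 + β ^ 2 * ((y - y' : ℤ) : ℝ) ^ 2 := by
  rw [← Complex.normSq_eq_norm_sq, Complex.normSq_apply]
  simp [lp]
  ring

theorem norm_sq_half_geo (β : ℝ) : ‖(1 / 2 + β * I : ℂ)‖ ^ 2 = 1 / 4 + β ^ 2 := by
  rw [← Complex.normSq_eq_norm_sq, Complex.normSq_apply]
  simp
  ring

theorem far_geo (hβ : 1 / 2 ≤ β ^ 2) {X y X' y' : ℤ} (p : (X + y) % 2 = 0)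
    (p' : (X' + y') % 2 = 0) (l : ‖lp β X y - lp β X' y'‖ ^ 2 ≤ 4 / 3) :
    (X = X' ∧ y = y') ∨ ladj X y X' y' := by
  rw [norm_sq_lp_geo] at l
  have k : (3 * (X - X') ^ 2 + 6 * (y - y') ^ 2 : ℤ) ≤ 16 := by
    have : ((3 * (X - X') ^ 2 + 6 * (y - y') ^ 2 : ℤ) : ℝ) ≤ 16 := by
      have := mul_le_mul_of_nonneg_right hβ (sq_nonneg ((y - y' : ℤ) : ℝ))
      push_cast at *
      linarith
    exact_mod_cast this
  obtain ⟨a, ha⟩ : ∃ a, a = X - X' := ⟨_, rfl⟩
  obtain ⟨b, hb⟩ : ∃ b, b = y - y' := ⟨_, rfl⟩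
  rw [← ha, ← hb] at k
  have a1 : a ≤ 2 := by nlinarith [sq_nonneg b]
  have a2 : -2 ≤ a := by nlinarith [sq_nonneg b]
  have b1 : b ≤ 1 := by nlinarith [sq_nonneg a]
  have b2 : -1 ≤ b := by nlinarith [sq_nonneg a]
  unfold ladj
  omega

theorem Con.β_sq_geo (h : Con K N g β β' γ) : 1 / 2 ≤ β ^ 2 := by
  have hK : 2 ≤ K := by have := h.hK; omega
  have a := nu_le_norm hK (1 / 2 + β * I)
  rw [h.hβ, one_mul] at a
  have b := pow_le_pow_left₀ (rho_pos hK).le a 2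
  rw [norm_sq_half_geo] at b
  linarith [rho_ge h.hK]

theorem Con.β'_sq_geo (h : Con K N g β β' γ) : 3 / 4 ≤ β' ^ 2 := by
  have hK : 2 ≤ K := by have := h.hK; omega
  have a := nu_le_norm hK ((1 / 2 + β' * I) * mid K)
  rw [h.hβ', norm_mul, norm_mid_geo hK] at a
  have b := pow_le_pow_left₀ zero_le_one (le_of_mul_le_mul_right a (rho_pos hK)) 2
  rw [norm_sq_half_geo] at b
  linarith

theorem sp_sub_geo (X y X' y' : ℤ) : sp K N g β' X y - sp K N g β' X' y' =
    (lp β' X y - lp β' X' y') * mid K := by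
  simp only [sp]; ring

theorem Con.lp_edge (h : Con K N g β β' γ) {X y X' y' : ℤ} (l : ladj X y X' y') :
    nu K (lp β X y - lp β X' y') = 1 := by
  have hK : 2 ≤ K := by have := h.hK; omega
  exact edge_geo (nu_neg hK) (nu_conj hK) (nu_one hK) h.hβ l

theorem Con.lp_far (h : Con K N g β β' γ) {X y X' y' : ℤ} (p : (X + y) % 2 = 0)
    (p' : (X' + y') % 2 = 0) (l : nu K (lp β X y - lp β X' y') ≤ 1) :
    (X = X' ∧ y = y') ∨ ladj X y X' y' := by
  have hK : 2 ≤ K := by have := h.hK; omega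
  refine far_geo h.β_sq_geo p p' ?_
  have a := pow_le_pow_left₀ (norm_nonneg _) ((norm_le_nu hK _).trans l) 2
  linarith

theorem Con.sp_edge (h : Con K N g β β' γ) {X y X' y' : ℤ} (l : ladj X y X' y') :
    nu K (sp K N g β' X y - sp K N g β' X' y') = 1 := by
  have hK : 2 ≤ K := by have := h.hK; omega
  rw [sp_sub_geo]
  exact edge_geo (f := fun z => nu K (z * mid K)) (fun z => by rw [neg_mul, nu_neg hK])
    (nu_conj_mid_geo hK) (by rw [one_mul, nu_mid_geo hK]) h.hβ' l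

theorem Con.sp_far (h : Con K N g β β' γ) {X y X' y' : ℤ} (p : (X + y) % 2 = 0)
    (p' : (X' + y') % 2 = 0) (l : nu K (sp K N g β' X y - sp K N g β' X' y') ≤ 1) :
    (X = X' ∧ y = y') ∨ ladj X y X' y' := by
  have hK : 2 ≤ K := by have := h.hK; omega
  refine far_geo (by linarith [h.β'_sq_geo]) p p' (β := β') ?_
  rw [sp_sub_geo] at l
  have a := (norm_le_nu hK _).trans l
  rw [norm_mul, norm_mid_geo hK] at a
  have b := pow_le_pow_left₀ (mul_nonneg (norm_nonneg _) (rho_pos hK).le) a 2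
  rw [mul_pow] at b
  have c := mul_le_mul_of_nonneg_left (rho_ge h.hK) (sq_nonneg ‖lp β' X y - lp β' X' y'‖)
  linarith

end Pool.Agent.Lib.MP_0e6856_lc
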