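import Pool.Agent.Lib.MP_0e6856_lc.All.Geo

/-!
Distances between the parts of the gadget.
-/

namespace Pool.Agent.Lib.MP_0e6856_lc

open Complex (I)

variable {K : ℕ} {N g : ℤ} {β β' γ : ℝ}

theorem normsq_geoB (z : ℂ) : ‖z‖ ^ 2 = z.re ^ 2 + z.im ^ 2 := by
  rw [Complex.sq_norm, Complex.normSq_apply]; ring

theorem far_sq_geoB (hK : 3 ≤ K) {z : ℂ} (h : 1 < z.re ^ 2 + z.im ^ 2) : 1 < nu K z := by
  refine one_lt_nu (by omega) ?_
  rw [← normsq_geoB] at h
  nlinarith [norm_nonneg z]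

theorem far_re_geoB (hK : 3 ≤ K) {z : ℂ} (h : 1 < z.re ∨ z.re < -1) : 1 < nu K z :=
  far_sq_geoB hK (by rcases h with h | h <;> nlinarith [sq_nonneg z.im])

theorem far_im_geoB (hK : 3 ≤ K) {z : ℂ} (h : 1 < z.im) : 1 < nu K z :=
  far_sq_geoB hK (by nlinarith [sq_nonneg z.re])

theorem far_rot_geoB (hK : 3 ≤ K) {z : ℂ} {u v : ℝ} (h1 : z.re = rho K * u - sn K * v)
    (h2 : z.im = sn K * u + rho K * v) (h : 1 < u ^ 2 + v ^ 2) : 1 < nu K z := by
  refine far_sq_geoB hK ?_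
  rw [h1, h2, show (rho K * u - sn K * v) ^ 2 + (sn K * u + rho K * v) ^ 2 =
    (rho K ^ 2 + sn K ^ 2) * (u ^ 2 + v ^ 2) by ring, rho_sn, one_mul]
  exact h

theorem mid_re_geoB : (mid K).re = rho K ^ 2 := by
  have : (mid K).re = (1 + (E K 1).re) / 2 := by simp [mid]
  rw [this, E_one_re]
  linear_combination -rho_sn (K := K)

theorem mid_im_geoB : (mid K).im = rho K * sn K := by
  have : (mid K).im = (E K 1).im / 2 := by simp [mid]
  rw [this, E_one_im]
  ring

theorem lp_re_geoB (X y : ℤ) : (lp β X y).re = X / 2 := by simp [lp]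

theorem lp_im_geoB (X y : ℤ) : (lp β X y).im = β * y := by simp [lp]

theorem sp_re_geoB (X y : ℤ) : (sp K N g β' X y).re =
    -(g + N) + (X / 2 * rho K ^ 2 - β' * y * (rho K * sn K)) := by
  simp [sp, lp_re_geoB, lp_im_geoB, mid_re_geoB, mid_im_geoB]

theorem sp_im_geoB (X y : ℤ) : (sp K N g β' X y).im =
    X / 2 * (rho K * sn K) + β' * y * rho K ^ 2 := by
  simp [sp, lp_re_geoB, lp_im_geoB, mid_re_geoB, mid_im_geoB]

theorem pp_lo_geoB {i : ℤ} (h : i ≤ N) : (pp K N g γ i).re = -g + i * (E K 1).re ∧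
    (pp K N g γ i).im = i * (E K 1).im := by
  simp [pp, h]

theorem pp_hi_geoB {i : ℤ} (h : N + 6 ≤ i) :
    (pp K N g γ i).re = g - (2 * N + 6 - i) * (E K 1).re ∧
    (pp K N g γ i).im = (2 * N + 6 - i) * (E K 1).im := by
  have : ¬i ≤ N := by omega
  simp [pp, h, this]

theorem pp_mid_geoB {i : ℤ} (h : N < i) (h' : i < N + 6) :
    (pp K N g γ i).re = (i - (N + 3)) * (hd K N g - 1) / 2 ∧
    (pp K N g γ i).im = N * (E K 1).im - if i = N + 2 ∨ i = N + 4 then γ else 0 := by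
  have a : ¬i ≤ N := by omega
  have b : ¬N + 6 ≤ i := by omega
  rw [pp, if_neg a, if_neg b]
  simp only [Complex.add_re, Complex.add_im, Complex.ofReal_re, Complex.ofReal_im, Complex.mul_re,
    Complex.mul_im, Complex.I_re, Complex.I_im]
  constructor <;> ring

theorem rho_ge_geoB (hK : 3 ≤ K) : 17 / 20 < rho K := by
  nlinarith [rho_ge hK, rho_pos (K := K) (by omega)]

theorem c_ge_geoB (hK : 3 ≤ K) : 1 / 2 ≤ (E K 1).re := by
  rw [E_one_re]
  nlinarith [sn_le hK, sn_pos (K := K) (by omega)]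

theorem c_le_geoB : (E K 1).re ≤ 1 := by
  rw [E_one_re]
  nlinarith [sq_nonneg (sn K)]

theorem s_pos_geoB (hK : 3 ≤ K) : 0 < (E K 1).im := by
  rw [E_one_im]
  have := rho_pos (K := K) (by omega)
  have := sn_pos (K := K) (by omega)
  positivity

theorem Con.beta_geoB (h : Con K N g β β' γ) : rho K ^ 2 ≤ 1 / 4 + β ^ 2 := by
  have hK := h.hK
  have a := nu_le_norm (K := K) (by omega) (1 / 2 + β * I)
  rw [h.hβ, one_mul] at a
  have b := normsq_geoB (1 / 2 + β * I)
  have c := pow_le_pow_left₀ (rho_pos (K := K) (by omega)).le a 2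
  rw [b] at c
  simp at c
  linarith

theorem Con.beta_ge_geoB (h : Con K N g β β' γ) : 7 / 10 < β := by
  nlinarith [h.beta_geoB, rho_ge h.hK, h.β_pos]

theorem Con.beta'_geoB (h : Con K N g β β' γ) : 3 / 4 ≤ β' ^ 2 := by
  have hK := h.hK
  have r := rho_pos (K := K) (by omega)
  have a := nu_le_norm (K := K) (by omega) ((1 / 2 + β' * I) * mid K)
  rw [h.hβ', one_mul] at a
  have c := pow_le_pow_left₀ r.le a 2
  rw [norm_mul, mul_pow, normsq_geoB, normsq_geoB, mid_re_geoB, mid_im_geoB,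
    show (rho K ^ 2) ^ 2 + (rho K * sn K) ^ 2 = rho K ^ 2 * (rho K ^ 2 + sn K ^ 2) by ring,
    rho_sn] at c
  simp at c
  nlinarith [pow_pos r 2]

theorem Con.beta'_ge_geoB (h : Con K N g β β' γ) : 17 / 20 < β' := by
  nlinarith [h.beta'_geoB, h.β'_pos]

theorem Con.gamma_geoB (h : Con K N g β β' γ) : γ ≤ 1 := by
  have hK := h.hK
  have a := norm_le_nu (K := K) (by omega) (((hd K N g - 1) / 2 : ℝ) - γ * I)
  rw [h.hγ] at a
  have b := Complex.abs_im_le_norm (((hd K N g - 1) / 2 : ℝ) - γ * I)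
  have c : ((((hd K N g - 1) / 2 : ℝ) : ℂ) - γ * I).im = -γ := by
    simp only [Complex.sub_im, Complex.ofReal_re, Complex.ofReal_im, Complex.mul_im, Complex.I_re,
      Complex.I_im]
    ring
  rw [c, abs_neg] at b
  linarith [le_abs_self γ]

theorem Con.high_geoB (h : Con K N g β β' γ) : 5 < N * (E K 1).im := by
  have hK := h.hK
  have d := h.d_gt
  have g1 : (1 : ℝ) ≤ g := by exact_mod_cast h.g_pos
  have g2 : (g : ℝ) + 3 < N := by exact_mod_cast h.g_lt
  rw [hd, E_one_re] at d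
  rw [E_one_im]
  have s0 := sn_pos (K := K) (by omega)
  have : 0 ≤ (N : ℝ) * sn K * (rho K - sn K) :=
    mul_nonneg (mul_nonneg (by linarith) s0.le) (by linarith [rho_ge_geoB hK, sn_le hK])
  nlinarith

theorem Con.pp_edge (h : Con K N g β β' γ) (i : ℤ) :
    nu K (pp K N g γ (i + 1) - pp K N g γ i) = 1 := by
  have hK : 2 ≤ K := by have := h.hK; omega
  have dn : ∀ z : ℂ, z.re = (hd K N g - 1) / 2 → z.im = -γ → nu K z = 1 := fun z a b => by
    rw [← h.hγ]
    congr 1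
    apply Complex.ext
    · rw [a]
      simp only [Complex.sub_re, Complex.ofReal_re, Complex.ofReal_im, Complex.mul_re, Complex.I_re,
        Complex.I_im]
      ring
    · rw [b]
      simp only [Complex.sub_im, Complex.ofReal_re, Complex.ofReal_im, Complex.mul_im, Complex.I_re,
        Complex.I_im]
      ring
  have up : ∀ z : ℂ, z.re = (hd K N g - 1) / 2 → z.im = γ → nu K z = 1 := fun z a b => by
    rw [← nu_conj hK]
    exact dn _ (by simpa using a) (by simpa using b)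
  have one : ∀ z : ℂ, z.re = 1 → z.im = 0 → nu K z = 1 := fun z a b => by
    rw [← nu_one hK]
    congr 1
    exact Complex.ext (by simpa using a) (by simpa using b)
  by_cases c1 : i + 1 ≤ N
  · rw [← nu_E hK 1]
    congr 1
    rw [pp, pp, if_pos c1, if_pos (by omega)]
    push_cast
    ring
  by_cases c2 : N + 6 ≤ i
  · rw [← nu_E hK 1, ← nu_conj hK (E K 1)]
    congr 1
    rw [pp, pp, if_neg c1, if_pos (by omega), if_neg (by omega), if_pos c2]
    push_cast
    ring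
  have : i = N ∨ i = N + 1 ∨ i = N + 2 ∨ i = N + 3 ∨ i = N + 4 ∨ i = N + 5 := by omega
  rcases this with e | e | e | e | e | e
  · obtain ⟨a1, a2⟩ := pp_lo_geoB (K := K) (g := g) (γ := γ) e.le
    obtain ⟨b1, b2⟩ := pp_mid_geoB (K := K) (g := g) (γ := γ) (N := N) (i := i + 1) (by omega)
      (by omega)
    rw [if_neg (by omega)] at b2
    refine one _ ?_ ?_
    · rw [Complex.sub_re, a1, b1, e, hd]; push_cast; ring
    · rw [Complex.sub_im, a2, b2, e]; ring
  · obtain ⟨a1, a2⟩ := pp_mid_geoB (K := K) (g := g) (γ := γ) (N := N) (i := i) (by omega)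
      (by omega)
    obtain ⟨b1, b2⟩ := pp_mid_geoB (K := K) (g := g) (γ := γ) (N := N) (i := i + 1) (by omega)
      (by omega)
    rw [if_neg (by omega)] at a2
    rw [if_pos (by omega)] at b2
    refine dn _ ?_ ?_
    · rw [Complex.sub_re, a1, b1]; push_cast; ring
    · rw [Complex.sub_im, a2, b2]; ring
  · obtain ⟨a1, a2⟩ := pp_mid_geoB (K := K) (g := g) (γ := γ) (N := N) (i := i) (by omega)
      (by omega)
    obtain ⟨b1, b2⟩ := pp_mid_geoB (K := K) (g := g) (γ := γ) (N := N) (i := i + 1) (by omega)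
      (by omega)
    rw [if_pos (by omega)] at a2
    rw [if_neg (by omega)] at b2
    refine up _ ?_ ?_
    · rw [Complex.sub_re, a1, b1]; push_cast; ring
    · rw [Complex.sub_im, a2, b2]; ring
  · obtain ⟨a1, a2⟩ := pp_mid_geoB (K := K) (g := g) (γ := γ) (N := N) (i := i) (by omega)
      (by omega)
    obtain ⟨b1, b2⟩ := pp_mid_geoB (K := K) (g := g) (γ := γ) (N := N) (i := i + 1) (by omega)
      (by omega)
    rw [if_neg (by omega)] at a2
    rw [if_pos (by omega)] at b2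
    refine dn _ ?_ ?_
    · rw [Complex.sub_re, a1, b1]; push_cast; ring
    · rw [Complex.sub_im, a2, b2]; ring
  · obtain ⟨a1, a2⟩ := pp_mid_geoB (K := K) (g := g) (γ := γ) (N := N) (i := i) (by omega)
      (by omega)
    obtain ⟨b1, b2⟩ := pp_mid_geoB (K := K) (g := g) (γ := γ) (N := N) (i := i + 1) (by omega)
      (by omega)
    rw [if_pos (by omega)] at a2
    rw [if_neg (by omega)] at b2
    refine up _ ?_ ?_
    · rw [Complex.sub_re, a1, b1]; push_cast; ring
    · rw [Complex.sub_im, a2, b2]; ring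
  · obtain ⟨a1, a2⟩ := pp_mid_geoB (K := K) (g := g) (γ := γ) (N := N) (i := i) (by omega)
      (by omega)
    obtain ⟨b1, b2⟩ := pp_hi_geoB (K := K) (g := g) (γ := γ) (N := N) (i := i + 1) (by omega)
    rw [if_neg (by omega)] at a2
    refine one _ ?_ ?_
    · rw [Complex.sub_re, a1, b1, e, hd]; push_cast; ring
    · rw [Complex.sub_im, a2, b2, e]; push_cast; ring

theorem Con.pp_far (h : Con K N g β β' γ) {i i' : ℤ} (l : i + 2 ≤ i') :
    1 < nu K (pp K N g γ i' - pp K N g γ i) := by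
  have hK := h.hK
  have c0 := c_ge_geoB hK
  have d1 := h.d_gt
  have l' : (i : ℝ) + 2 ≤ i' := by exact_mod_cast l
  have hE : (E K 1).re ^ 2 + (E K 1).im ^ 2 = 1 := by rw [← normsq_geoB]; simp
  have hd' : (g : ℝ) = hd K N g + N * (E K 1).re := by rw [hd]; ring
  by_cases c1 : i' ≤ N
  · obtain ⟨a1, a2⟩ := pp_lo_geoB (K := K) (g := g) (γ := γ) c1
    obtain ⟨b1, b2⟩ := pp_lo_geoB (K := K) (g := g) (γ := γ) (N := N) (i := i) (by omega)
    refine far_sq_geoB hK ?_
    rw [Complex.sub_re, Complex.sub_im, a1, a2, b1, b2, show (-g + i' * (E K 1).re -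
      (-g + i * (E K 1).re)) ^ 2 + (i' * (E K 1).im - i * (E K 1).im) ^ 2 = ((i' : ℝ) - i) ^ 2 *
      ((E K 1).re ^ 2 + (E K 1).im ^ 2) by ring, hE]
    nlinarith
  by_cases c2 : N + 6 ≤ i
  · obtain ⟨a1, a2⟩ := pp_hi_geoB (K := K) (g := g) (γ := γ) c2
    obtain ⟨b1, b2⟩ := pp_hi_geoB (K := K) (g := g) (γ := γ) (N := N) (i := i') (by omega)
    refine far_sq_geoB hK ?_
    rw [Complex.sub_re, Complex.sub_im, a1, a2, b1, b2, show (g - (2 * N + 6 - i') * (E K 1).re -
      (g - (2 * N + 6 - i) * (E K 1).re)) ^ 2 + ((2 * N + 6 - i') * (E K 1).im -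
      (2 * N + 6 - i) * (E K 1).im) ^ 2 = ((i' : ℝ) - i) ^ 2 *
      ((E K 1).re ^ 2 + (E K 1).im ^ 2) by ring, hE]
    nlinarith
  refine far_re_geoB hK (Or.inl ?_)
  rw [Complex.sub_re]
  by_cases c3 : i ≤ N <;> by_cases c4 : N + 6 ≤ i'
  · have c3' : (i : ℝ) ≤ N := by exact_mod_cast c3
    have c4' : (N : ℝ) + 6 ≤ i' := by exact_mod_cast c4
    rw [(pp_lo_geoB c3).1, (pp_hi_geoB c4).1, hd']
    nlinarith
  · have c3' : (i : ℝ) ≤ N := by exact_mod_cast c3
    rw [(pp_lo_geoB c3).1, (pp_mid_geoB (by omega) (by omega)).1, hd']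
    by_cases e : i' = N + 1
    · have e' : (i' : ℝ) = N + 1 := by exact_mod_cast e
      rw [e'] at l' ⊢
      nlinarith
    · have e' : (N : ℝ) + 2 ≤ i' := by exact_mod_cast (by omega : N + 2 ≤ i')
      nlinarith
  · have c4' : (N : ℝ) + 6 ≤ i' := by exact_mod_cast c4
    rw [(pp_hi_geoB c4).1, (pp_mid_geoB (by omega) (by omega)).1, hd']
    by_cases e : i = N + 5
    · have e' : (i : ℝ) = N + 5 := by exact_mod_cast e
      rw [e'] at l' ⊢
      nlinarith
    · have e' : (i : ℝ) ≤ N + 4 := by exact_mod_cast (by omega : i ≤ N + 4)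
      nlinarith
  · rw [(pp_mid_geoB (by omega) (by omega)).1, (pp_mid_geoB (by omega) (by omega)).1]
    nlinarith

theorem half_geoB {m : ℤ} (hm : m % 2 = 1) : (1 : ℝ) / 2 ≤ m / 2 ∨ (m : ℝ) / 2 ≤ -(1 / 2) := by
  rcases (by omega : 1 ≤ m ∨ m ≤ -1) with a | a
  · have : (1 : ℝ) ≤ m := by exact_mod_cast a
    exact Or.inl (by linarith)
  · have : (m : ℝ) ≤ -1 := by exact_mod_cast a
    exact Or.inr (by linarith)

theorem Con.pp_lp_geoB (h : Con K N g β β' γ) {i X y : ℤ} (h1 : 1 ≤ i) (h2 : i ≤ N)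
    (p : (X + y) % 2 = 0) (hy : y ≤ -1 ∨ (y = 0 ∧ (X = 2 * g + 2 * N ∨ X = -(2 * g + 2 * N)))) :
    1 < (-g + i * (E K 1).re - X / 2) ^ 2 + (i * (E K 1).im - β * y) ^ 2 := by
  have hK := h.hK
  have c0 := c_ge_geoB hK
  have c1 := c_le_geoB (K := K)
  have s0 := s_pos_geoB hK
  have b0 := h.beta_ge_geoB
  have i1 : (1 : ℝ) ≤ i := by exact_mod_cast h1
  have i2 : (i : ℝ) ≤ N := by exact_mod_cast h2
  have g1 : (1 : ℝ) ≤ g := by exact_mod_cast h.g_pos
  have g2 : (g : ℝ) + 3 < N := by exact_mod_cast h.g_lt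
  have is : 0 < (i : ℝ) * (E K 1).im := mul_pos (by linarith) s0
  rcases hy with hy | ⟨rfl, rfl | rfl⟩
  · by_cases e : y = -1
    · subst e
      have r0 := rho_ge_geoB hK
      have n0 := sn_pos (K := K) (by omega)
      have n1 := sn_le hK
      have t0 : 0 ≤ 2 * (i : ℝ) * sn K ^ 2 := by positivity
      have a : 1 / 4 - 2 * i * sn K ^ 2 ≤ (-g + i * (E K 1).re - X / 2) ^ 2 := by
        have e : -g + i * (E K 1).re - X / 2 =
            ((2 * i - 2 * g - X : ℤ) : ℝ) / 2 - 2 * i * sn K ^ 2 := by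
          rw [E_one_re]; push_cast; ring
        rw [e]
        generalize 2 * (i : ℝ) * sn K ^ 2 = t at *
        rcases half_geoB (m := 2 * i - 2 * g - X) (by omega) with u | u <;>
          generalize ((2 * i - 2 * g - X : ℤ) : ℝ) / 2 = v at *
        · by_cases q : 1 / 4 ≤ t
          · nlinarith [sq_nonneg (v - t)]
          · nlinarith
        · nlinarith
      have b : 3 * sn K < 4 * β * rho K := by nlinarith
      have c : sn K ^ 2 < 4 * β * rho K * sn K - 2 * sn K ^ 2 := by nlinarith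
      have d : 4 * β * rho K * sn K - 2 * sn K ^ 2 ≤
          i * (4 * β * rho K * sn K - 2 * sn K ^ 2) := by nlinarith [sq_nonneg (sn K)]
      have f : (i * (E K 1).im - β * ((-1 : ℤ) : ℝ)) ^ 2 =
          β ^ 2 + i * (4 * β * rho K * sn K) + (i * (E K 1).im) ^ 2 := by
        rw [E_one_im]; push_cast; ring
      rw [f]
      nlinarith [h.beta_geoB, rho_sn (K := K), sq_nonneg (i * (E K 1).im)]
    · have y2 : (y : ℝ) ≤ -2 := by exact_mod_cast (by omega : y ≤ -2)
      have : 1 < i * (E K 1).im - β * y := by nlinarith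
      nlinarith [sq_nonneg (-g + i * (E K 1).re - X / 2)]
  · have : -g + i * (E K 1).re - ((2 * g + 2 * N : ℤ) : ℝ) / 2 < -1 := by push_cast; nlinarith
    nlinarith [sq_nonneg (i * (E K 1).im - β * ((0 : ℤ) : ℝ))]
  · have : 1 < -g + i * (E K 1).re - ((-(2 * g + 2 * N) : ℤ) : ℝ) / 2 := by push_cast; nlinarith
    nlinarith [sq_nonneg (i * (E K 1).im - β * ((0 : ℤ) : ℝ))]

theorem Con.pp_lp (h : Con K N g β β' γ) {i X y : ℤ} (h1 : 1 ≤ i) (h2 : i ≤ 2 * N + 5)
    (p : (X + y) % 2 = 0) (hy : y ≤ -1 ∨ (y = 0 ∧ (X = 2 * g + 2 * N ∨ X = -(2 * g + 2 * N)))) :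
    1 < nu K (pp K N g γ i - lp β X y) := by
  have hK := h.hK
  by_cases c1 : i ≤ N
  · refine far_sq_geoB hK ?_
    rw [Complex.sub_re, Complex.sub_im, (pp_lo_geoB c1).1, (pp_lo_geoB c1).2, lp_re_geoB,
      lp_im_geoB]
    exact h.pp_lp_geoB h1 c1 p hy
  by_cases c2 : N + 6 ≤ i
  · refine far_sq_geoB hK ?_
    rw [Complex.sub_re, Complex.sub_im, (pp_hi_geoB c2).1, (pp_hi_geoB c2).2, lp_re_geoB,
      lp_im_geoB]
    have := h.pp_lp_geoB (i := 2 * N + 6 - i) (X := -X) (y := y) (by omega) (by omega) (by omega)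
      (by omega)
    push_cast at this
    convert this using 2
    ring
  refine far_im_geoB hK ?_
  rw [Complex.sub_im, (pp_mid_geoB (by omega) (by omega)).2, lp_im_geoB]
  have y0 : (y : ℝ) ≤ 0 := by exact_mod_cast (by omega : y ≤ 0)
  have := mul_nonpos_of_nonneg_of_nonpos h.β_pos.le y0
  have := h.high_geoB
  have := h.gamma_geoB
  split_ifs <;> linarith

theorem Con.sp_re_le_geoB (h : Con K N g β β' γ) {X y : ℤ} (s : Strut N X y) :
    (sp K N g β' X y).re ≤ -hd K N g + 1 / 2 := by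
  have hK := h.hK
  have gN := h.g_lt
  have g0 := h.g_pos
  obtain ⟨-, s⟩ := s
  have x1 : (X : ℝ) ≤ 4 * N + 1 := by exact_mod_cast (by omega : X ≤ 4 * N + 1)
  have y0 : (0 : ℝ) ≤ y := by exact_mod_cast (by omega : 0 ≤ y)
  have r0 := rho_pos (K := K) (by omega)
  have n0 := sn_pos (K := K) (by omega)
  have b0 := h.β'_pos
  have a : 0 ≤ β' * y * (rho K * sn K) := by positivity
  have b : X / 2 * rho K ^ 2 ≤ (4 * N + 1) / 2 * rho K ^ 2 :=
    mul_le_mul_of_nonneg_right (by linarith) (sq_nonneg _)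
  have c : rho K ^ 2 = 1 - sn K ^ 2 := by linarith [rho_sn (K := K)]
  rw [sp_re_geoB, hd, E_one_re]
  rw [c] at b ⊢
  nlinarith [sq_nonneg (sn K)]

theorem Con.sp_lp (h : Con K N g β β' γ) {X y X' y' : ℤ} (s : Strut N X y) (hy : y ≠ 0)
    (hy' : y' ≤ -1 ∨ (y' = 0 ∧ 0 ≤ X')) : 1 < nu K (sp K N g β' X y - lp β X' y') := by
  have hK := h.hK
  rcases hy' with hy' | ⟨-, hx⟩
  · refine far_im_geoB hK ?_
    rw [Complex.sub_im, sp_im_geoB, lp_im_geoB]
    obtain ⟨-, s⟩ := s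
    have x1 : (-1 : ℝ) ≤ X := by exact_mod_cast (by omega : -1 ≤ X)
    have y1 : (1 : ℝ) ≤ y := by exact_mod_cast (by omega : 1 ≤ y)
    have y2 : (y' : ℝ) ≤ -1 := by exact_mod_cast hy'
    have r0 := rho_pos (K := K) (by omega)
    have r1 : rho K ≤ 1 := by nlinarith [rho_sn (K := K), sq_nonneg (sn K)]
    have r2 := rho_ge hK
    have n0 := sn_pos (K := K) (by omega)
    have n1 := sn_le hK
    have b0 := h.beta_ge_geoB
    have b1 := h.beta'_ge_geoB
    have a : rho K * sn K ≤ 1 / 2 := by nlinarith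
    have a' : 0 < rho K * sn K := by positivity
    have b : -(1 / 4) ≤ X / 2 * (rho K * sn K) := by nlinarith
    have c : 17 / 20 ≤ β' * y := by nlinarith
    have d : 17 / 20 * (3 / 4) ≤ β' * y * rho K ^ 2 := mul_le_mul c r2 (by norm_num) (by linarith)
    have e : β * y' ≤ -(7 / 10) := by nlinarith
    linarith
  · refine far_re_geoB hK (Or.inr ?_)
    rw [Complex.sub_re, lp_re_geoB]
    have x1 : (0 : ℝ) ≤ X' := by exact_mod_cast hx
    linarith [h.sp_re_le_geoB s, h.d_gt]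

theorem Con.rot_geoB (h : Con K N g β β' γ) {m y : ℤ} {r : ℝ} (hr : 1 ≤ r)
    (hy : (y = 1 ∧ m % 2 = 1) ∨ y = 2) :
    1 < (m / 2 * rho K) ^ 2 + (β' * y * rho K + r * sn K) ^ 2 := by
  have hK := h.hK
  have r0 := rho_ge_geoB hK
  have n0 := sn_pos (K := K) (by omega)
  have b0 := h.beta'_ge_geoB
  have b1 := h.beta'_geoB
  have a : sn K ≤ r * sn K := by nlinarith
  have b : 17 / 20 * (17 / 20) < β' * rho K := by nlinarith
  rcases hy with ⟨rfl, hm⟩ | rfl
  · have c : 1 / 4 ≤ ((m : ℝ) / 2) ^ 2 := by rcases half_geoB hm with u | u <;> nlinarith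
    have d : 1 / 4 * rho K ^ 2 ≤ ((m : ℝ) / 2) ^ 2 * rho K ^ 2 :=
      mul_le_mul_of_nonneg_right c (sq_nonneg _)
    have e : 3 / 4 * rho K ^ 2 ≤ β' ^ 2 * rho K ^ 2 :=
      mul_le_mul_of_nonneg_right b1 (sq_nonneg _)
    have f : (β' * rho K + sn K) ^ 2 ≤ (β' * ((1 : ℤ) : ℝ) * rho K + r * sn K) ^ 2 :=
      pow_le_pow_left₀ (by linarith) (by push_cast; linarith) 2
    have g : 0 < β' * rho K * sn K := mul_pos (by linarith) n0
    nlinarith [rho_sn (K := K)]
  · have : 1 < β' * ((2 : ℤ) : ℝ) * rho K + r * sn K := by push_cast; linarith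
    nlinarith [sq_nonneg (m / 2 * rho K)]

theorem Con.sp_pp (h : Con K N g β β' γ) {X y i : ℤ} (s : Strut N X y) (hy : y ≠ 0) (h1 : 0 ≤ i)
    (h2 : i ≠ N) : 1 < nu K (sp K N g β' X y - pp K N g γ i) := by
  have hK := h.hK
  have hs := rho_sn (K := K)
  by_cases c1 : i ≤ N
  · have i1 : (1 : ℝ) ≤ N - i := by exact_mod_cast (by omega : 1 ≤ N - i)
    refine far_rot_geoB hK ?_ ?_ (h.rot_geoB (m := X - 4 * N + 2 * (N - i)) (y := y) i1
      (by obtain ⟨p, s⟩ := s; omega))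
    · rw [Complex.sub_re, sp_re_geoB, (pp_lo_geoB c1).1, E_one_re]
      push_cast
      linear_combination ((N : ℝ) + i) * hs
    · rw [Complex.sub_im, sp_im_geoB, (pp_lo_geoB c1).2, E_one_im]
      push_cast
      ring
  by_cases c2 : i = N + 1
  · obtain ⟨b1, b2⟩ := pp_mid_geoB (K := K) (g := g) (γ := γ) (N := N) (i := i) (by omega)
      (by omega)
    rw [if_neg (by omega)] at b2
    refine far_rot_geoB hK ?_ ?_ (h.rot_geoB (m := X - 4 * N - 2) (y := y) le_rfl
      (by obtain ⟨p, s⟩ := s; omega))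
    · rw [Complex.sub_re, sp_re_geoB, b1, c2, hd, E_one_re]
      push_cast
      linear_combination (2 * (N : ℝ) + 1) * hs
    · rw [Complex.sub_im, sp_im_geoB, b2, E_one_im]
      push_cast
      ring
  refine far_re_geoB hK (Or.inr ?_)
  rw [Complex.sub_re]
  have a := h.sp_re_le_geoB s
  have d := h.d_gt
  by_cases c3 : N + 6 ≤ i
  · have c3' : (N : ℝ) + 6 ≤ i := by exact_mod_cast c3
    have hd' : (g : ℝ) = hd K N g + N * (E K 1).re := by rw [hd]; ring
    have c0 := c_ge_geoB hK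
    have : hd K N g ≤ (pp K N g γ i).re := by
      rw [(pp_hi_geoB c3).1]
      nlinarith
    linarith
  · have e' : (N : ℝ) + 2 ≤ i := by exact_mod_cast (by omega : N + 2 ≤ i)
    have : -((hd K N g - 1) / 2) ≤ (pp K N g γ i).re := by
      rw [(pp_mid_geoB (by omega) (by omega)).1]
      nlinarith
    linarith

theorem Con.sp_sp (h : Con K N g β β' γ) {X y X' y' : ℤ} (s : Strut N X y) (s' : Strut N X' y') :
    1 < nu K (sp K N g β' X y - mir (sp K N g β' X' y')) := by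
  refine far_re_geoB h.hK (Or.inr ?_)
  have e : (mir (sp K N g β' X' y')).re = -(sp K N g β' X' y').re := by simp [mir]
  rw [Complex.sub_re, e]
  linarith [h.sp_re_le_geoB s, h.sp_re_le_geoB s', h.d_gt]

end Pool.Agent.Lib.MP_0e6856_lc
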