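import Pool.Agent.Lib.MP_0e6856_lc.All.PlaceL
import Pool.Agent.Lib.MP_0e6856_lc.All.GeoB

/-!
An assignment that splits every clause gives a placement of the engine.
-/

namespace Pool.Agent.Lib.MP_0e6856_lc

variable {K : ℕ}

/-- The position of the point `(X, y)` of part `j`. -/
noncomputable def posPl (K : ℕ) (P : Par) (e : ℤ → ℤ) (dn : ℤ → ℤ → Prop) (β β' γ : ℝ)
    (u : Nm) : ℂ :=
  if 0 ≤ u.1 then lp β (e u.1 * u.2.1) (P.row dn u.1 u.2.1 u.2.2 - (P.T (P.n + 1) + 2))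
  else if u.1 = -1 then pp K P.N P.g γ (u.2.1 / 2)
  else if u.1 = -2 then sp K P.N P.g β' u.2.1 u.2.2 else mir (sp K P.N P.g β' u.2.1 u.2.2)

section
variable {P : Par} {e : ℤ → ℤ} {dn : ℤ → ℤ → Prop} {β β' γ : ℝ}

theorem posA_Pl {j : ℤ} (h : 0 ≤ j) (X y : ℤ) : posPl K P e dn β β' γ (j, X, y) =
    lp β (e j * X) (P.row dn j X y - (P.T (P.n + 1) + 2)) := if_pos h

theorem posB_Pl (X y : ℤ) : posPl K P e dn β β' γ (-1, X, y) = pp K P.N P.g γ (X / 2) := by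
  simp [posPl]

theorem posC_Pl (X y : ℤ) : posPl K P e dn β β' γ (-2, X, y) = sp K P.N P.g β' X y := by
  simp [posPl]

theorem posD_Pl (X y : ℤ) : posPl K P e dn β β' γ (-3, X, y) = mir (sp K P.N P.g β' X y) := by
  simp [posPl]

theorem tip_Pl (hP : P.Good) (h : P.Flip e dn) (X : ℤ) :
    posPl K P e dn β β' γ (P.n + 1, X, P.T (P.n + 1) + 2) = lp β X 0 := by
  have := hP.n_pos
  rw [posA_Pl (by omega), h.top, one_mul, Par.row, if_neg, sub_self]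
  intro a
  have := h.range _ _ a.2
  omega

theorem nm_tip_Pl (hP : P.Good) {X : ℤ} (h : X ≠ 0) (y : ℤ) :
    P.nm (P.n + 1) X y = (P.n + 1, X, y) := by
  have := hP.n_pos
  rw [Par.nm, if_pos (by omega), if_neg h]

theorem nm_path_Pl {X : ℤ} (h : X ≠ 0) (h' : X ≠ 4 * P.N + 12) (y : ℤ) :
    P.nm (-1) X y = (-1, X, y) := by
  simp [Par.nm, h, h']

theorem nmB0_Pl : P.nm (-1) 0 0 = (P.n + 1, -(2 * P.g), P.T (P.n + 1) + 2) := by
  simp [Par.nm]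

theorem nmB1_Pl (hP : P.Good) :
    P.nm (-1) (4 * P.N + 12) 0 = (P.n + 1, 2 * P.g, P.T (P.n + 1) + 2) := by
  have := hP.g_pos
  have := hP.g_lt
  have a : 4 * P.N + 12 ≠ 0 := by omega
  simp [Par.nm, a]

theorem nmC0_Pl : P.nm (-2) 0 0 = (P.n + 1, -(2 * P.g + 2 * P.N), P.T (P.n + 1) + 2) := by
  simp [Par.nm]

theorem nmD0_Pl : P.nm (-3) 0 0 = (P.n + 1, 2 * P.g + 2 * P.N, P.T (P.n + 1) + 2) := by
  simp [Par.nm]

theorem nmC1_Pl (hP : P.Good) : P.nm (-2) (4 * P.N) 0 = (-1, 2 * P.N, 0) := by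
  have := hP.g_pos
  have := hP.g_lt
  have a : P.N ≠ 0 := by omega
  simp [Par.nm, a]

theorem nmD1_Pl (hP : P.Good) : P.nm (-3) (4 * P.N) 0 = (-1, 2 * P.N + 12, 0) := by
  have := hP.g_pos
  have := hP.g_lt
  have a : P.N ≠ 0 := by omega
  simp [Par.nm, a]

theorem lp_right_Pl (hc : Con K P.N P.g β β' γ) :
    lp β (2 * P.g) 0 = pp K P.N P.g γ (2 * P.N + 6) := by
  have := hc.mir_pp 0
  rw [hc.pp_zero, mir_lp, neg_neg, sub_zero] at this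
  exact this

theorem pos_nm_Pl (hP : P.Good) (h : P.Flip e dn) (hc : Con K P.N P.g β β' γ) {j X y : ℤ}
    (s : P.S j X y) : posPl K P e dn β β' γ (P.nm j X y) = posPl K P e dn β β' γ (j, X, y) := by
  rcases s with ⟨a, -⟩ | ⟨rfl, rfl, -⟩ | ⟨a, -, b⟩
  · rw [Par.nm, if_pos a]
    split_ifs with b
    · subst b
      have r : ∀ i, P.row dn i 0 y = y := fun i => by
        rw [Par.row, if_neg]
        exact fun c => (h.range _ _ c.2).2.2 (by decide)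
      rw [posA_Pl le_rfl, posA_Pl a, r, r, mul_zero, mul_zero]
    · rfl
  · by_cases a : X = 0
    · subst a
      rw [nmB0_Pl, tip_Pl hP h, posB_Pl, ← hc.pp_zero]
      rfl
    by_cases b : X = 4 * P.N + 12
    · subst b
      rw [nmB1_Pl hP, tip_Pl hP h, posB_Pl, lp_right_Pl hc]
      congr 1
      omega
    · rw [nm_path_Pl a b]
  · by_cases c : y = 0
    · subst c
      have b : X = 0 ∨ X = 4 * P.N := by omega
      rcases a with rfl | rfl <;> rcases b with rfl | rfl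
      · rw [nmC0_Pl, tip_Pl hP h, posC_Pl, sp_zero]
      · rw [nmC1_Pl hP, posB_Pl, posC_Pl, sp_tip (γ := γ)]
        congr 1
        omega
      · rw [nmD0_Pl, tip_Pl hP h, posD_Pl, sp_zero, mir_lp, neg_neg]
      · rw [nmD1_Pl hP, posB_Pl, posD_Pl, sp_tip (γ := γ), hc.mir_pp]
        congr 1
        omega
    · rcases a with rfl | rfl <;> simp [Par.nm, c]

theorem edge_Pl (hP : P.Good) (h : P.Flip e dn) (hc : Con K P.N P.g β β' γ) {u v : Nm}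
    (E : P.Edge u v) : nu K (posPl K P e dn β β' γ u - posPl K P e dn β β' γ v) = 1 := by
  have hK : 2 ≤ K := by have := hc.hK; omega
  obtain ⟨j, X, y, X', y', s, s', l, rfl, rfl⟩ := E
  rw [pos_nm_Pl hP h hc s, pos_nm_Pl hP h hc s']
  rcases s with ⟨a, a1, a2⟩ | ⟨rfl, rfl, a⟩ | ⟨rfl | rfl, -⟩
  · rcases s' with ⟨-, -, b⟩ | ⟨b, -⟩ | ⟨b, -⟩
    · have := h.edge hP a a1 a2 b l
      rw [posA_Pl a, posA_Pl a]
      refine hc.lp_edge ?_
      unfold ladj at this ⊢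
      omega
    · omega
    · omega
  · rcases s' with ⟨b, -⟩ | ⟨-, rfl, b⟩ | ⟨b, -⟩
    · omega
    · rw [posB_Pl, posB_Pl]
      have c : X / 2 = X' / 2 + 1 ∨ X' / 2 = X / 2 + 1 := by
        unfold ladj at l
        omega
      rcases c with c | c
      · rw [c, hc.pp_edge]
      · rw [c, nu_sub_comm hK, hc.pp_edge]
    · omega
  · rw [posC_Pl, posC_Pl, hc.sp_edge l]
  · rw [posD_Pl, posD_Pl, nu_mir hK, hc.sp_edge l]

/-- Points at distance at most one are equal or adjacent. -/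
def GoodPl (K : ℕ) (P : Par) (p : Nm → ℂ) (u v : Nm) : Prop :=
  nu K (p u - p v) ≤ 1 → u = v ∨ P.Edge u v

theorem GoodPl.symm (hK : 2 ≤ K) {p : Nm → ℂ} {u v : Nm} (h : GoodPl K P p u v) :
    GoodPl K P p v u := fun a => by
  rcases h (by rwa [nu_sub_comm hK]) with b | ⟨j, X, y, X', y', s, s', l, b, c⟩
  · exact .inl b.symm
  · exact .inr ⟨j, X', y', X, y, s', s, by unfold ladj at l ⊢; omega, c, b⟩

theorem same_Pl (hP : P.Good) (h : P.Flip e dn) (hc : Con K P.N P.g β β' γ) {j X y X' y' : ℤ}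
    (hj : j < 0) (s : P.S j X y) (s' : P.S j X' y') :
    GoodPl K P (posPl K P e dn β β' γ) (P.nm j X y) (P.nm j X' y') := fun a => by
  have hK : 2 ≤ K := by have := hc.hK; omega
  suffices k : (X = X' ∧ y = y') ∨ ladj X y X' y' by
    rcases k with ⟨rfl, rfl⟩ | k
    · exact .inl rfl
    · exact .inr ⟨j, X, y, X', y', s, s', k, rfl, rfl⟩
  rw [pos_nm_Pl hP h hc s, pos_nm_Pl hP h hc s'] at a
  rcases s with ⟨b, -⟩ | ⟨rfl, rfl, b⟩ | ⟨b, b1, -⟩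
  · omega
  · rcases s' with ⟨c, -⟩ | ⟨-, rfl, c⟩ | ⟨c, -⟩
    · omega
    · rw [posB_Pl, posB_Pl] at a
      have d1 : ¬X' / 2 + 2 ≤ X / 2 := fun d => (hc.pp_far d).not_ge a
      have d2 : ¬X / 2 + 2 ≤ X' / 2 := fun d => (hc.pp_far d).not_ge (by rwa [nu_sub_comm hK])
      unfold ladj
      omega
    · omega
  · rcases s' with ⟨c, -⟩ | ⟨c, -⟩ | ⟨-, c1, -⟩
    · omega
    · omega
    · rcases b with rfl | rfl
      · rw [posC_Pl, posC_Pl] at a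
        exact hc.sp_far b1 c1 a
      · rw [posD_Pl, posD_Pl, nu_mir hK] at a
        exact hc.sp_far b1 c1 a

/-- The points that carry their own name. -/
def CanPl (P : Par) (j X y : ℤ) : Prop :=
  (0 ≤ j ∧ j ≤ P.n + 1 ∧ P.Arm j X y) ∨
  (j = -1 ∧ y = 0 ∧ X % 2 = 0 ∧ 2 ≤ X ∧ X ≤ 4 * P.N + 10) ∨
  (j = -2 ∧ Strut P.N X y ∧ y ≠ 0) ∨ (j = -3 ∧ Strut P.N X y ∧ y ≠ 0)

theorem CanPl.S {j X y : ℤ} (h : CanPl P j X y) : P.S j X y := by
  rcases h with h | ⟨a, b, c, d, f⟩ | ⟨a, b, -⟩ | ⟨a, b, -⟩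
  · exact .inl h
  · exact .inr (.inl ⟨a, b, c, by omega, by omega⟩)
  · exact .inr (.inr ⟨.inl a, b⟩)
  · exact .inr (.inr ⟨.inr a, b⟩)

theorem can_tip_Pl (hP : P.Good) {X : ℤ}
    (h : X = 2 * P.g ∨ X = -(2 * P.g) ∨ X = 2 * P.g + 2 * P.N ∨ X = -(2 * P.g + 2 * P.N)) :
    ∃ j X' y, CanPl P j X' y ∧ (P.n + 1, X, P.T (P.n + 1) + 2) = P.nm j X' y := by
  have := hP.n_pos
  have := hP.g_pos
  have := hP.g_lt
  refine ⟨P.n + 1, X, P.T (P.n + 1) + 2, .inl ⟨by omega, le_rfl, .inr ⟨?_,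
    .inr (.inr (.inr (.inr ⟨rfl, rfl, h⟩)))⟩⟩, (nm_tip_Pl hP (by omega) _).symm⟩
  unfold Par.T
  omega

theorem exists_can_Pl (hP : P.Good) {j X y : ℤ} (s : P.S j X y) :
    ∃ j' X' y', CanPl P j' X' y' ∧ P.nm j X y = P.nm j' X' y' := by
  have := hP.g_pos
  have := hP.g_lt
  rcases s with s | ⟨rfl, rfl, a, b, c⟩ | ⟨a, b⟩
  · exact ⟨j, X, y, .inl s, rfl⟩
  · by_cases d : X = 0
    · subst d
      rw [nmB0_Pl]
      exact can_tip_Pl hP (by omega)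
    by_cases f : X = 4 * P.N + 12
    · subst f
      rw [nmB1_Pl hP]
      exact can_tip_Pl hP (by omega)
    · exact ⟨-1, X, 0, .inr (.inl ⟨rfl, rfl, a, by omega, by omega⟩), rfl⟩
  · by_cases c : y = 0
    · subst c
      have b : X = 0 ∨ X = 4 * P.N := by unfold Strut at b; omega
      rcases a with rfl | rfl <;> rcases b with rfl | rfl
      · rw [nmC0_Pl]
        exact can_tip_Pl hP (by omega)
      · rw [nmC1_Pl hP]
        exact ⟨-1, 2 * P.N, 0, .inr (.inl ⟨rfl, rfl, by omega, by omega, by omega⟩),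
          (nm_path_Pl (by omega) (by omega) _).symm⟩
      · rw [nmD0_Pl]
        exact can_tip_Pl hP (by omega)
      · rw [nmD1_Pl hP]
        exact ⟨-1, 2 * P.N + 12, 0, .inr (.inl ⟨rfl, rfl, by omega, by omega, by omega⟩),
          (nm_path_Pl (by omega) (by omega) _).symm⟩
    · rcases a with a | a
      · exact ⟨j, X, y, .inr (.inr (.inl ⟨a, b, c⟩)), rfl⟩
      · exact ⟨j, X, y, .inr (.inr (.inr ⟨a, b, c⟩)), rfl⟩

theorem low_Pl (hP : P.Good) (h : P.Flip e dn) (hc : Con K P.N P.g β β' γ) {j X y : ℤ}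
    (h0 : 0 ≤ j) (h1 : j ≤ P.n + 1) (a : P.Arm j X y) :
    (∃ A B, (A + B) % 2 = 0 ∧ B ≤ -1 ∧ posPl K P e dn β β' γ (P.nm j X y) = lp β A B) ∨
      (P.nm j X y = (P.n + 1, X, P.T (P.n + 1) + 2) ∧
        (X = 2 * P.g ∨ X = -(2 * P.g) ∨ X = 2 * P.g + 2 * P.N ∨ X = -(2 * P.g + 2 * P.N))) := by
  have := hP.g_pos
  have := hP.g_lt
  obtain ⟨b, c | ⟨rfl, rfl, -, c⟩⟩ := h.low hP h0 h1 a
  · refine .inl ⟨_, _, ?_, ?_, by rw [pos_nm_Pl hP h hc (.inl ⟨h0, h1, a⟩), posA_Pl h0]⟩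
    · unfold Par.T at *
      omega
    · omega
  · exact .inr ⟨nm_tip_Pl hP (by omega) _, c⟩

theorem AA_Pl (hP : P.Good) (h : P.Flip e dn) (hc : Con K P.N P.g β β' γ) {j X y j' X' y' : ℤ}
    (s : 0 ≤ j ∧ j ≤ P.n + 1 ∧ P.Arm j X y) (s' : 0 ≤ j' ∧ j' ≤ P.n + 1 ∧ P.Arm j' X' y') :
    GoodPl K P (posPl K P e dn β β' γ) (P.nm j X y) (P.nm j' X' y') := fun a => by
  rw [pos_nm_Pl hP h hc (.inl s), pos_nm_Pl hP h hc (.inl s'), posA_Pl s.1, posA_Pl s'.1] at a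
  have b := (h.low hP s.1 s.2.1 s.2.2).1
  have b' := (h.low hP s'.1 s'.2.1 s'.2.2).1
  have t : (P.T (P.n + 1) + 2) % 2 = 0 := by unfold Par.T; omega
  have c := hc.lp_far (by omega) (by omega) a
  refine h.far hP s.1 s.2.1 s'.1 s'.2.1 s.2.2 s'.2.2 ?_
  unfold ladj at c ⊢
  omega

theorem AB_Pl (hP : P.Good) (h : P.Flip e dn) (hc : Con K P.N P.g β β' γ) {j X y X' : ℤ}
    (s : 0 ≤ j ∧ j ≤ P.n + 1 ∧ P.Arm j X y) (b1 : X' % 2 = 0) (b2 : 2 ≤ X')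
    (b3 : X' ≤ 4 * P.N + 10) :
    GoodPl K P (posPl K P e dn β β' γ) (P.nm (-1) X' 0) (P.nm j X y) := by
  have s' : P.S (-1) X' 0 := .inr (.inl ⟨rfl, rfl, b1, by omega, by omega⟩)
  have far : ∀ A B : ℤ, (A + B) % 2 = 0 →
      (B ≤ -1 ∨ (B = 0 ∧ (A = 2 * P.g + 2 * P.N ∨ A = -(2 * P.g + 2 * P.N)))) →
      posPl K P e dn β β' γ (P.nm j X y) = lp β A B →
      GoodPl K P (posPl K P e dn β β' γ) (P.nm (-1) X' 0) (P.nm j X y) := fun A B c d f a => by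
    rw [pos_nm_Pl hP h hc s', posB_Pl, f] at a
    exact absurd a (hc.pp_lp (by omega) (by omega) c d).not_ge
  rcases low_Pl hP h hc s.1 s.2.1 s.2.2 with ⟨A, B, c, d, f⟩ | ⟨c, rfl | rfl | rfl | rfl⟩
  · exact far A B c (.inl d) f
  · rw [c, ← nmB1_Pl hP]
    exact same_Pl hP h hc (by omega) s' (.inr (.inl ⟨rfl, rfl, by omega, by omega, by omega⟩))
  · rw [c, ← nmB0_Pl]
    exact same_Pl hP h hc (by omega) s' (.inr (.inl ⟨rfl, rfl, by omega, by omega, by omega⟩))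
  · exact far (2 * P.g + 2 * P.N) 0 (by omega) (by omega) (by rw [c]; exact tip_Pl hP h _)
  · exact far (-(2 * P.g + 2 * P.N)) 0 (by omega) (by omega) (by rw [c]; exact tip_Pl hP h _)

theorem strut0_Pl (N : ℤ) : Strut N 0 0 := ⟨rfl, .inl ⟨rfl, .inl rfl⟩⟩

theorem strut1_Pl (N : ℤ) : Strut N (4 * N) 0 := ⟨by omega, .inl ⟨rfl, .inr rfl⟩⟩

theorem AC_Pl (hP : P.Good) (h : P.Flip e dn) (hc : Con K P.N P.g β β' γ) {j X y X' y' : ℤ}
    (s : 0 ≤ j ∧ j ≤ P.n + 1 ∧ P.Arm j X y) (b1 : Strut P.N X' y') (b2 : y' ≠ 0) :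
    GoodPl K P (posPl K P e dn β β' γ) (P.nm (-2) X' y') (P.nm j X y) := by
  have := hP.g_pos
  have := hP.g_lt
  have s' : P.S (-2) X' y' := .inr (.inr ⟨.inl rfl, b1⟩)
  have far : ∀ A B : ℤ, (B ≤ -1 ∨ (B = 0 ∧ 0 ≤ A)) →
      posPl K P e dn β β' γ (P.nm j X y) = lp β A B →
      GoodPl K P (posPl K P e dn β β' γ) (P.nm (-2) X' y') (P.nm j X y) := fun A B d f a => by
    rw [pos_nm_Pl hP h hc s', posC_Pl, f] at a
    exact absurd a (hc.sp_lp b1 b2 d).not_ge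
  rcases low_Pl hP h hc s.1 s.2.1 s.2.2 with ⟨A, B, -, d, f⟩ | ⟨c, rfl | rfl | rfl | rfl⟩
  · exact far A B (.inl d) f
  · exact far (2 * P.g) 0 (by omega) (by rw [c]; exact tip_Pl hP h _)
  · intro a
    rw [pos_nm_Pl hP h hc s', posC_Pl, c, tip_Pl hP h, ← hc.pp_zero] at a
    exact absurd a (hc.sp_pp b1 b2 le_rfl (by omega)).not_ge
  · exact far (2 * P.g + 2 * P.N) 0 (by omega) (by rw [c]; exact tip_Pl hP h _)
  · rw [c, ← nmC0_Pl]
    exact same_Pl hP h hc (by omega) s' (.inr (.inr ⟨.inl rfl, strut0_Pl _⟩))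

theorem AD_Pl (hP : P.Good) (h : P.Flip e dn) (hc : Con K P.N P.g β β' γ) {j X y X' y' : ℤ}
    (s : 0 ≤ j ∧ j ≤ P.n + 1 ∧ P.Arm j X y) (b1 : Strut P.N X' y') (b2 : y' ≠ 0) :
    GoodPl K P (posPl K P e dn β β' γ) (P.nm (-3) X' y') (P.nm j X y) := by
  have hK : 2 ≤ K := by have := hc.hK; omega
  have := hP.g_pos
  have := hP.g_lt
  have s' : P.S (-3) X' y' := .inr (.inr ⟨.inr rfl, b1⟩)
  have mir' : ∀ A B : ℤ, posPl K P e dn β β' γ (P.nm j X y) = lp β A B →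
      1 < nu K (sp K P.N P.g β' X' y' - lp β (-A) B) →
      GoodPl K P (posPl K P e dn β β' γ) (P.nm (-3) X' y') (P.nm j X y) := fun A B f d a => by
    rw [pos_nm_Pl hP h hc s', posD_Pl, f, ← neg_neg A, ← mir_lp, nu_mir hK] at a
    exact absurd a d.not_ge
  rcases low_Pl hP h hc s.1 s.2.1 s.2.2 with ⟨A, B, -, d, f⟩ | ⟨c, rfl | rfl | rfl | rfl⟩
  · exact mir' A B f (hc.sp_lp b1 b2 (.inl d))
  · refine mir' (2 * P.g) 0 (by rw [c]; exact tip_Pl hP h _) ?_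
    rw [← hc.pp_zero]
    exact hc.sp_pp b1 b2 le_rfl (by omega)
  · exact mir' (-(2 * P.g)) 0 (by rw [c]; exact tip_Pl hP h _) (hc.sp_lp b1 b2 (by omega))
  · rw [c, ← nmD0_Pl]
    exact same_Pl hP h hc (by omega) s' (.inr (.inr ⟨.inr rfl, strut0_Pl _⟩))
  · exact mir' (-(2 * P.g + 2 * P.N)) 0 (by rw [c]; exact tip_Pl hP h _)
      (hc.sp_lp b1 b2 (by omega))

theorem BC_Pl (hP : P.Good) (h : P.Flip e dn) (hc : Con K P.N P.g β β' γ) {X X' y' : ℤ}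
    (a1 : X % 2 = 0) (a2 : 2 ≤ X) (a3 : X ≤ 4 * P.N + 10) (b1 : Strut P.N X' y') (b2 : y' ≠ 0) :
    GoodPl K P (posPl K P e dn β β' γ) (P.nm (-2) X' y') (P.nm (-1) X 0) := by
  have s' : P.S (-2) X' y' := .inr (.inr ⟨.inl rfl, b1⟩)
  rw [nm_path_Pl (by omega) (by omega)]
  by_cases c : X = 2 * P.N
  · rw [c, ← nmC1_Pl hP]
    exact same_Pl hP h hc (by omega) s' (.inr (.inr ⟨.inl rfl, strut1_Pl _⟩))
  · intro a
    rw [pos_nm_Pl hP h hc s', posC_Pl, posB_Pl] at a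
    exact absurd a (hc.sp_pp b1 b2 (by omega) (by omega)).not_ge

theorem BD_Pl (hP : P.Good) (h : P.Flip e dn) (hc : Con K P.N P.g β β' γ) {X X' y' : ℤ}
    (a1 : X % 2 = 0) (a2 : 2 ≤ X) (a3 : X ≤ 4 * P.N + 10) (b1 : Strut P.N X' y') (b2 : y' ≠ 0) :
    GoodPl K P (posPl K P e dn β β' γ) (P.nm (-3) X' y') (P.nm (-1) X 0) := by
  have hK : 2 ≤ K := by have := hc.hK; omega
  have s' : P.S (-3) X' y' := .inr (.inr ⟨.inr rfl, b1⟩)
  rw [nm_path_Pl (by omega) (by omega)]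
  by_cases c : X = 2 * P.N + 12
  · rw [c, ← nmD1_Pl hP]
    exact same_Pl hP h hc (by omega) s' (.inr (.inr ⟨.inr rfl, strut1_Pl _⟩))
  · intro a
    rw [pos_nm_Pl hP h hc s', posD_Pl, posB_Pl, ← mir_mir (pp K P.N P.g γ (X / 2)), nu_mir hK,
      hc.mir_pp] at a
    exact absurd a (hc.sp_pp b1 b2 (by omega) (by omega)).not_ge

theorem CD_Pl (hP : P.Good) (h : P.Flip e dn) (hc : Con K P.N P.g β β' γ) {X y X' y' : ℤ}
    (a1 : Strut P.N X y) (b1 : Strut P.N X' y') :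
    GoodPl K P (posPl K P e dn β β' γ) (P.nm (-2) X y) (P.nm (-3) X' y') := fun a => by
  rw [pos_nm_Pl hP h hc (.inr (.inr ⟨.inl rfl, a1⟩)),
    pos_nm_Pl hP h hc (.inr (.inr ⟨.inr rfl, b1⟩)), posC_Pl, posD_Pl] at a
  exact absurd a (hc.sp_sp a1 b1).not_ge

theorem can_Pl (hP : P.Good) (h : P.Flip e dn) (hc : Con K P.N P.g β β' γ) {j X y j' X' y' : ℤ}
    (s : CanPl P j X y) (s' : CanPl P j' X' y') :
    GoodPl K P (posPl K P e dn β β' γ) (P.nm j X y) (P.nm j' X' y') := by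
  have hK : 2 ≤ K := by have := hc.hK; omega
  have t := s.S
  have t' := s'.S
  rcases s with s | ⟨rfl, rfl, a1, a2, a3⟩ | ⟨rfl, a1, a2⟩ | ⟨rfl, a1, a2⟩ <;>
    rcases s' with s' | ⟨rfl, rfl, b1, b2, b3⟩ | ⟨rfl, b1, b2⟩ | ⟨rfl, b1, b2⟩
  · exact AA_Pl hP h hc s s'
  · exact (AB_Pl hP h hc s b1 b2 b3).symm hK
  · exact (AC_Pl hP h hc s b1 b2).symm hK
  · exact (AD_Pl hP h hc s b1 b2).symm hK
  · exact AB_Pl hP h hc s' a1 a2 a3
  · exact same_Pl hP h hc (by omega) t t'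
  · exact (BC_Pl hP h hc a1 a2 a3 b1 b2).symm hK
  · exact (BD_Pl hP h hc a1 a2 a3 b1 b2).symm hK
  · exact AC_Pl hP h hc s' a1 a2
  · exact BC_Pl hP h hc b1 b2 b3 a1 a2
  · exact same_Pl hP h hc (by omega) t t'
  · exact CD_Pl hP h hc a1 b1
  · exact AD_Pl hP h hc s' a1 a2
  · exact BD_Pl hP h hc b1 b2 b3 a1 a2
  · exact (CD_Pl hP h hc b1 a1).symm hK
  · exact same_Pl hP h hc (by omega) t t'

end

theorem complete (hK : 3 ≤ K) {P : Par} (hP : P.Good) (h3 : 2 < hd K P.N P.g)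
    (h4 : hd K P.N P.g ≤ 3) {ν : ℤ → Bool} (hν : P.Split ν) :
    ∃ p : Nm → ℂ, (∀ u v, P.Edge u v → nu K (p u - p v) = 1) ∧
      ∀ j X y j' X' y', P.S j X y → P.S j' X' y' →
        nu K (p (P.nm j X y) - p (P.nm j' X' y')) ≤ 1 →
        P.nm j X y = P.nm j' X' y' ∨ P.Edge (P.nm j X y) (P.nm j' X' y') := by
  obtain ⟨e, dn, h⟩ := Par.exists_flip hP hν
  obtain ⟨β, β', γ, hc⟩ := exists_con hK hP.g_pos hP.g_lt h3 h4
  refine ⟨posPl K P e dn β β' γ, fun u v E => edge_Pl hP h hc E, fun j X y j' X' y' s s' => ?_⟩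
  obtain ⟨_, _, _, a, b⟩ := exists_can_Pl hP s
  obtain ⟨_, _, _, a', b'⟩ := exists_can_Pl hP s'
  rw [b, b']
  exact can_Pl hP h hc a a'

end Pool.Agent.Lib.MP_0e6856_lc
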