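import Pool.Agent.Lib.MP_0e6856_lc.All.Sound
import Pool.Agent.Lib.MP_0e6856_lc.All.Place
import Pool.Agent.Lib.MP_0e6856_lc.Hard

/-!
The reduction from monotone not-all-equal 3-SAT to contact graphs.
-/

namespace Pool.Agent.Lib.MP_0e6856_lc

open N68a2faeb Pool.Agent.Shared.PolyTime N487b59b3

/-- Half the row of the chain of the innermost armature. -/
def tN_ht (N g : ℕ) (φ : Inst) : ℕ := 3 * φ.length + 6 + g + N + 1

/-- The dimensions of the engine of a formula. -/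
def par_ht (N g : ℕ) (φ : Inst) : Par where
  n := nN φ
  M := φ.length
  N := N
  g := g
  t := tN_ht N g φ
  occ := fun j i => j = idx φ (φ.getD i.toNat (0, 0, 0)).1 ∨
    j = idx φ (φ.getD i.toNat (0, 0, 0)).2.1 ∨ j = idx φ (φ.getD i.toNat (0, 0, 0)).2.2

theorem par_good_ht {N g : ℕ} (h1 : 1 ≤ g) (h2 : g + 3 < N) (φ : Inst) :
    (par_ht N g φ).Good := by
  refine ⟨?_, ?_, ?_, ?_, ?_, ?_⟩ <;> simp only [par_ht, nN, tN_ht] <;> omega

theorem nae_iff_ht (N g : ℕ) (φ : Inst) : MonoNAE3 φ ↔ ∃ ν, (par_ht N g φ).Split ν := by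
  rw [nae_iff (K := 0)]
  refine exists_congr fun ν => ⟨fun h i h0 h1 σ => ?_, fun h i h1 σ => ?_⟩
  · have h2 : i.toNat < (geom 0 φ).M := by
      simp only [geom, par_ht] at h1 ⊢
      omega
    exact h i.toNat h2 σ
  · have h2 : (i : ℤ) < (par_ht N g φ).M := by
      simp only [geom, par_ht] at h1 ⊢
      omega
    have := h i (by omega) h2 σ
    simpa only [geom, par_ht, Int.toNat_natCast] using this

/-- A bound for all coordinates. -/
def bN_ht (N g : ℕ) (φ : Inst) : ℕ :=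
  2 * tN_ht N g φ + 10 * (nN φ + 1) + 6 * φ.length + 4 * N + 2 * g + 20

def ints_ht (N g : ℕ) (φ : Inst) : List ℤ :=
  (List.range (2 * bN_ht N g φ + 1)).map fun i : ℕ => (i : ℤ) - bN_ht N g φ

open Classical in
/-- The points of all parts. -/
noncomputable def pts_ht (N g : ℕ) (φ : Inst) : List Nm :=
  (ints_ht N g φ ×ˢ ints_ht N g φ ×ˢ ints_ht N g φ).filter
    fun v => decide ((par_ht N g φ).S v.1 v.2.1 v.2.2)

/-- The name of a point. -/
def nm_ht (N g : ℕ) (φ : Inst) (v : Nm) : Nm := (par_ht N g φ).nm v.1 v.2.1 v.2.2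

/-- Neighbours in one part. -/
def adj_ht (u v : Nm) : Prop := u.1 = v.1 ∧ ladj u.2.1 u.2.2 v.2.1 v.2.2

open Classical in
/-- The graph of the engine. -/
noncomputable def engine_ht (N g : ℕ) (φ : Inst) : List ℕ × List (ℕ × ℕ) :=
  ((pts_ht N g φ).map fun v => numberOf (nm_ht N g φ v),
    ((pts_ht N g φ ×ˢ pts_ht N g φ).filter fun e => decide (adj_ht e.1 e.2)).map
      fun e => (numberOf (nm_ht N g φ e.1), numberOf (nm_ht N g φ e.2)))

theorem mem_ints_ht {N g : ℕ} {φ : Inst} {z : ℤ} (h1 : -bN_ht N g φ ≤ z) (h2 : z ≤ bN_ht N g φ) :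
    z ∈ ints_ht N g φ :=
  List.mem_map.2 ⟨(z + bN_ht N g φ).toNat, List.mem_range.2 (by omega), by omega⟩

theorem box_ht {P : Par} (h : P.Good) {j X y B : ℤ} (hs : P.S j X y)
    (hB : B = 2 * P.t + 10 * (P.n + 1) + 6 * P.M + 4 * P.N + 2 * P.g + 20) :
    -B ≤ j ∧ j ≤ B ∧ -B ≤ X ∧ X ≤ B ∧ -B ≤ y ∧ y ≤ B := by
  obtain ⟨g0, g1, g2, g3, g4, g5⟩ := h
  rcases hs with ⟨a, b, c⟩ | c | ⟨a, -, c⟩
  · rcases c with ⟨-, c1, c2, c3, c4, -⟩ | ⟨-, c | ⟨c1, c2, -, c⟩ | ⟨c1, c2, -, c⟩ | c | c⟩ <;>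
      simp only [Par.T, col] at * <;> omega
  · omega
  · omega

theorem mem_pts_ht {N g : ℕ} (h1 : 1 ≤ g) (h2 : g + 3 < N) {φ : Inst} {v : Nm} :
    v ∈ pts_ht N g φ ↔ (par_ht N g φ).S v.1 v.2.1 v.2.2 := by
  simp only [pts_ht, List.mem_filter, decide_eq_true_eq, and_iff_right_iff_imp]
  intro hv
  obtain ⟨j, X, y⟩ := v
  have := box_ht (par_good_ht h1 h2 φ) hv (B := bN_ht N g φ)
    (by simp only [par_ht, bN_ht]; push_cast; ring)
  dsimp only at this
  simp only [List.mem_product]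
  exact ⟨mem_ints_ht (by omega) (by omega), mem_ints_ht (by omega) (by omega),
    mem_ints_ht (by omega) (by omega)⟩

theorem edge_symm_ht {P : Par} {u v : Nm} (h : P.Edge u v) : P.Edge v u := by
  obtain ⟨j, X, y, X', y', a, b, c, d, e⟩ := h
  refine ⟨j, X', y', X, y, b, a, ?_, e, d⟩
  unfold ladj at *
  omega

theorem edge_ne_ht {P : Par} (hP : P.Good) {u v : Nm} (h : P.Edge u v) : u ≠ v := by
  obtain ⟨j, X, y, X', y', a, b, c, rfl, rfl⟩ := h
  intro e
  have := Par.nm_inj hP a b e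
  unfold ladj at c
  omega

theorem mem_edges_ht {N g : ℕ} (h1 : 1 ≤ g) (h2 : g + 3 < N) {φ : Inst} (u v : Nm) :
    (numberOf u, numberOf v) ∈ (engine_ht N g φ).2 ↔ (par_ht N g φ).Edge u v := by
  simp only [engine_ht, List.mem_map, List.mem_filter, decide_eq_true_eq, Prod.mk.injEq,
    numberOf_injective.eq_iff]
  constructor
  · rintro ⟨⟨⟨j, X, y⟩, ⟨j', X', y'⟩⟩, ⟨a, b, c⟩, rfl, rfl⟩
    rw [List.mem_product, mem_pts_ht h1 h2, mem_pts_ht h1 h2] at a
    dsimp only at a b c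
    subst b
    exact ⟨j, X, y, X', y', a.1, a.2, c, rfl, rfl⟩
  · rintro ⟨j, X, y, X', y', a, b, c, rfl, rfl⟩
    exact ⟨((j, X, y), (j, X', y')), ⟨List.mem_product.2
      ⟨(mem_pts_ht h1 h2).2 a, (mem_pts_ht h1 h2).2 b⟩, rfl, c⟩, rfl, rfl⟩

theorem engine_adj_ht {N g : ℕ} (h1 : 1 ≤ g) (h2 : g + 3 < N) {φ : Inst} {u v : Nm}
    (a b : {x : ℕ // x ∈ (engine_ht N g φ).1}) (ha : a.1 = numberOf u) (hb : b.1 = numberOf v) :
    (listGraph (engine_ht N g φ)).Adj a b ↔ (par_ht N g φ).Edge u v := by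
  simp only [listGraph, SimpleGraph.fromRel_adj, ha, hb, mem_edges_ht h1 h2]
  refine ⟨fun h => h.2.elim id edge_symm_ht, fun h => ⟨fun e => ?_, Or.inl h⟩⟩
  exact edge_ne_ht (par_good_ht h1 h2 φ) h (numberOf_injective (by rw [← ha, ← hb, e]))

theorem engine_correct_ht {K : ℕ} (hK : 3 ≤ K) {N g : ℕ} (h1 : 1 ≤ g) (h2 : g + 3 < N)
    (h3 : 2 < hd K N g) (h4 : hd K N g ≤ 3) (φ : Inst) :
    MonoNAE3 φ ↔ ∃ p, TModel K (listGraph (engine_ht N g φ)) p := by
  have hP := par_good_ht h1 h2 φ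
  rw [nae_iff_ht N g]
  constructor
  · rintro ⟨ν, hν⟩
    obtain ⟨p, hp1, hp2⟩ := complete hK hP h3 h4 hν
    have : ∀ a : {x : ℕ // x ∈ (engine_ht N g φ).1}, ∃ v : Nm,
        (par_ht N g φ).S v.1 v.2.1 v.2.2 ∧ a.1 = numberOf (nm_ht N g φ v) := by
      rintro ⟨a, ha⟩
      obtain ⟨v, hv, rfl⟩ := List.mem_map.1 ha
      exact ⟨v, (mem_pts_ht h1 h2).1 hv, rfl⟩
    choose f hf hf' using this
    refine ⟨fun a => p (nm_ht N g φ (f a)), fun a b hab => ?_⟩
    have ne : nm_ht N g φ (f a) ≠ nm_ht N g φ (f b) :=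
      fun h => hab (Subtype.ext (by rw [hf', hf', h]))
    have key : nu K (p (nm_ht N g φ (f a)) - p (nm_ht N g φ (f b))) ≤ 1 →
        (par_ht N g φ).Edge (nm_ht N g φ (f a)) (nm_ht N g φ (f b)) := fun h =>
      (hp2 _ _ _ _ _ _ (hf a) (hf b) h).resolve_left ne
    rw [engine_adj_ht h1 h2 a b (hf' a) (hf' b)]
    refine ⟨?_, fun h => (hp1 _ _ h).le, key⟩
    by_contra hc
    have hc' := not_le.1 hc
    have := hp1 _ _ (key hc'.le)
    linarith
  · rintro ⟨p, hp⟩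
    classical
    have m : ∀ j X y, (par_ht N g φ).S j X y →
        numberOf ((par_ht N g φ).nm j X y) ∈ (engine_ht N g φ).1 := fun j X y hv =>
      List.mem_map.2 ⟨(j, X, y), (mem_pts_ht h1 h2).2 hv, rfl⟩
    refine sound hK hP (fun v => if h : numberOf v ∈ (engine_ht N g φ).1 then p ⟨_, h⟩ else 0)
      (fun j X y j' X' y' hu hv huv => ?_) (fun u v huv => ?_)
    · simp only [dif_pos (m _ _ _ hu), dif_pos (m _ _ _ hv)]
      exact (hp _ _ (fun h => huv (numberOf_injective (congrArg Subtype.val h)))).1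
    · have ne := edge_ne_ht hP huv
      have huv' := huv
      obtain ⟨j, X, y, X', y', a, b, -, rfl, rfl⟩ := huv'
      simp only [dif_pos (m _ _ _ a), dif_pos (m _ _ _ b)]
      have := hp ⟨_, m _ _ _ a⟩ ⟨_, m _ _ _ b⟩
        (fun h => ne (numberOf_injective (congrArg Subtype.val h)))
      exact le_antisymm (this.2.1 ((engine_adj_ht h1 h2 _ _ rfl rfl).2 huv)) this.1

theorem engine_polyTime_ht (N g : ℕ) : IsPolyTime (engine_ht N g) := by
  classical
  have h1 : IsPolyTime vars := by unfold vars; fun_prop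
  have h2 : IsPolyTime (fun z : Inst × ℕ => idx z.1 z.2) := by unfold idx; fun_prop
  have h3 : IsPolyTime nN := by unfold nN; fun_prop
  have h4 : IsPolyTime (tN_ht N g) := by unfold tN_ht; fun_prop
  have h7 : IsPolyTime (bN_ht N g) := by unfold bN_ht; fun_prop
  have h8 : PolyBdd (bN_ht N g) := by unfold bN_ht tN_ht nN; fun_prop
  have h9 : IsPolyTime (ints_ht N g) := by unfold ints_ht; fun_prop
  have h10 : IsPolyTime
      (fun z : Inst × Nm => decide ((par_ht N g z.1).S z.2.1 z.2.2.1 z.2.2.2)) := by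
    simp only [Par.S, Par.Arm, Vee, Strut, Par.Up, Par.Dn, Par.T, col, par_ht]
    fun_prop
  have h11 : IsPolyTime (pts_ht N g) := by unfold pts_ht; fun_prop
  have h12 : IsPolyTime (fun z : Nm × Nm => decide (adj_ht z.1 z.2)) := by
    simp only [adj_ht, ladj]
    fun_prop
  have h13 := isPolyTime_numberOf (V := Nm)
  have h14 : IsPolyTime (fun z : Inst × Nm => nm_ht N g z.1 z.2) := by
    simp only [nm_ht, Par.nm, Par.T, par_ht]
    fun_prop
  unfold engine_ht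
  fun_prop

theorem npHard_tModel {K : ℕ} (hK : 3 ≤ K) :
    NPHard (fun x : List ℕ × List (ℕ × ℕ) => ∃ p, TModel K (listGraph x) p) := by
  obtain ⟨N, g, h1, h2, h3, h4⟩ := exists_Ng hK
  exact npHardOn_monoNAE3.npHard_of_reduce (engine_ht N g) (engine_polyTime_ht N g)
    (fun φ _ => engine_correct_ht hK h1 h2 h3 h4 φ)

end Pool.Agent.Lib.MP_0e6856_lc
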