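import Pool.Agent.Lib.MP_0e6856_lc.Member

/-!
A solvable system of linear inequalities with coefficients that are sums of roots of unity has a
solution of small height.
-/

namespace Pool.Agent.Lib.MP_0e6856_lc

variable {K : ℕ}

/-- The real number `r` is a sum of at most `W` roots of unity of order `2K`. -/
def Sm (K W : ℕ) (r : ℝ) : Prop := ∃ L : List ℤ, L.length ≤ W ∧ pt K L = r

theorem Sm.mono_sm {W W' : ℕ} {r : ℝ} (h : Sm K W r) (hW : W ≤ W') : Sm K W' r := by
  obtain ⟨L, h1, h2⟩ := h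
  exact ⟨L, h1.trans hW, h2⟩

theorem zero_sm (W : ℕ) : Sm K W 0 := ⟨[], Nat.zero_le _, by simp [pt]⟩

theorem one_sm : Sm K 1 1 := ⟨[0], le_rfl, by simp [pt]⟩

theorem Sm.add_sm {W W' : ℕ} {r r' : ℝ} (h : Sm K W r) (h' : Sm K W' r') :
    Sm K (W + W') (r + r') := by
  obtain ⟨L, h1, h2⟩ := h
  obtain ⟨L', h1', h2'⟩ := h'
  refine ⟨L ++ L', by rw [List.length_append]; omega, ?_⟩
  unfold pt at *
  rw [List.map_append, List.sum_append, h2, h2']
  push_cast
  rfl

theorem pt_shift_sm (a : ℤ) (L : List ℤ) : pt K (L.map (a + ·)) = E K a * pt K L := by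
  induction L with
  | nil => simp [pt]
  | cons e L ih =>
    simp only [pt, List.map_cons, List.sum_cons] at *
    rw [ih, E_add]
    ring

theorem Sm.neg_sm (hK : 2 ≤ K) {W : ℕ} {r : ℝ} (h : Sm K W r) : Sm K W (-r) := by
  obtain ⟨L, h1, h2⟩ := h
  refine ⟨L.map ((K : ℤ) + ·), by rwa [List.length_map], ?_⟩
  rw [pt_shift_sm, E_K hK, h2]
  push_cast
  ring

theorem mul_aux_sm (L L' : List ℤ) :
    ∃ M : List ℤ, M.length = L.length * L'.length ∧ pt K M = pt K L * pt K L' := by
  induction L with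
  | nil => exact ⟨[], by simp, by simp [pt]⟩
  | cons e L ih =>
    obtain ⟨M, h1, h2⟩ := ih
    refine ⟨L'.map (e + ·) ++ M, ?_, ?_⟩
    · rw [List.length_append, List.length_map, h1, List.length_cons]
      ring
    · have h3 := pt_shift_sm (K := K) e L'
      unfold pt at *
      rw [List.map_append, List.sum_append, h3, h2, List.map_cons, List.sum_cons]
      ring

theorem Sm.mul_sm {W W' : ℕ} {r r' : ℝ} (h : Sm K W r) (h' : Sm K W' r') :
    Sm K (W * W') (r * r') := by
  obtain ⟨L, h1, h2⟩ := h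
  obtain ⟨L', h1', h2'⟩ := h'
  obtain ⟨M, h3, h4⟩ := mul_aux_sm (K := K) L L'
  refine ⟨M, h3 ▸ Nat.mul_le_mul h1 h1', ?_⟩
  rw [h4, h2, h2']
  push_cast
  rfl

theorem sum_sm {α : Type} (s : Finset α) {W : ℕ} {f : α → ℝ} (h : ∀ i, Sm K W (f i)) :
    Sm K (s.card * W) (∑ i ∈ s, f i) := by
  classical
  induction s using Finset.induction_on with
  | empty => simpa using zero_sm 0
  | insert a s ha ih =>
    rw [Finset.sum_insert ha, Finset.card_insert_of_notMem ha]
    exact ((h a).add_sm ih).mono_sm (le_of_eq (by ring))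

theorem prod_sm {α : Type} (s : Finset α) {W : ℕ} {f : α → ℝ} (h : ∀ i, Sm K W (f i)) :
    Sm K (W ^ s.card) (∏ i ∈ s, f i) := by
  classical
  induction s using Finset.induction_on with
  | empty => simpa using one_sm
  | insert a s ha ih =>
    rw [Finset.prod_insert ha, Finset.card_insert_of_notMem ha]
    exact ((h a).mul_sm ih).mono_sm (le_of_eq (by ring))

theorem det_sm (hK : 2 ≤ K) {ρ : Type} [Fintype ρ] [DecidableEq ρ] {W : ℕ} (M : Matrix ρ ρ ℝ)
    (h : ∀ i j, Sm K W (M i j)) :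
    Sm K ((Fintype.card ρ).factorial * W ^ Fintype.card ρ) M.det := by
  rw [Matrix.det_apply', ← Fintype.card_perm]
  refine sum_sm Finset.univ fun τ => ?_
  have h1 : Sm K (W ^ Fintype.card ρ) (∏ i, M (τ i) i) := prod_sm Finset.univ fun i => h _ _
  rcases Int.units_eq_one_or (Equiv.Perm.sign τ) with h2 | h2
  · simpa [h2] using h1
  · simpa [h2] using h1.neg_sm hK

theorem bound_sm {r n : ℕ} (h : r ≤ n) :
    r * (2 * (r * (r.factorial * (n * (2 * 2) + 1) ^ r * 2))) ≤ 2 ^ (12 * (n + 1) ^ 2) ∧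
      r.factorial * (n * (2 * 2) + 1) ^ r ≤ 2 ^ (12 * (n + 1) ^ 2) := by
  have h1 : n < 2 ^ n := Nat.lt_two_pow_self
  have h2 : n * (2 * 2) + 1 ≤ 2 ^ (n + 2) := by rw [pow_add]; omega
  have h3 : r ≤ 2 ^ (n + 2) := by omega
  have h4 : r.factorial * (n * (2 * 2) + 1) ^ r ≤ (2 ^ (n + 2)) ^ n * (2 ^ (n + 2)) ^ n := by
    have h5 : (2 ^ (n + 2)) ^ r ≤ (2 ^ (n + 2)) ^ n := Nat.pow_le_pow_right (by positivity) h
    exact Nat.mul_le_mul ((Nat.factorial_le_pow r).trans ((Nat.pow_le_pow_left h3 r).trans h5))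
      ((Nat.pow_le_pow_left h2 r).trans h5)
  constructor
  · calc _ ≤ 2 ^ (n + 2) * (2 * (2 ^ (n + 2) * ((2 ^ (n + 2)) ^ n * (2 ^ (n + 2)) ^ n * 2))) := by
          gcongr
      _ = 2 ^ ((n + 2) * (2 * n + 2) + 2) := by
          rw [← pow_mul]
          ring
      _ ≤ _ := Nat.pow_le_pow_right (by norm_num) (by nlinarith)
  · calc _ ≤ _ := h4
      _ = 2 ^ ((n + 2) * (2 * n)) := by
          rw [← pow_mul]
          ring
      _ ≤ _ := Nat.pow_le_pow_right (by norm_num) (by nlinarith)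

/-- A solvable system of equations. -/
theorem small_eq (hK : 2 ≤ K) {ι σ : Type} [Fintype σ] (A : ι → σ → ℝ) (b : ι → ℝ)
    (hA : ∀ i j, Sm K 2 (A i j)) (hb : ∀ i, Sm K 2 (b i)) (x : σ → ℝ)
    (hx : ∀ i, ∑ j, A i j * x j = b i) :
    ∃ (y : σ → ℝ) (D : ℝ), 0 < D ∧ Sm K (2 ^ (12 * (Fintype.card σ + 1) ^ 2)) D ∧
      (∀ j, Sm K (2 ^ (12 * (Fintype.card σ + 1) ^ 2)) (y j)) ∧
      ∀ i, ∑ j, A i j * y j = b i * D := by
  classical
  obtain ⟨S, hS, hspan, hli⟩ := exists_linearIndependent ℝ (Set.range A)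
  have hfin : Finite S := hli.finite_of_isNoetherian
  have : Fintype S := Fintype.ofFinite S
  have hr : Fintype.card S ≤ Fintype.card σ := by
    simpa using hli.fintype_card_le_finrank
  choose k hk using fun v : S => hS v.2
  let B : Matrix S σ ℝ := fun v j => v.1 j
  let G : Matrix S S ℝ := B * B.transpose
  let c : S → ℝ := fun v => b (k v)
  have hB : ∀ v j, Sm K 2 (B v j) := fun v j => by
    have := hA (k v) j
    rwa [hk v] at this
  have hG : ∀ v w, Sm K (Fintype.card σ * (2 * 2) + 1) (G v w) := fun v w =>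
    (sum_sm Finset.univ fun j => (hB v j).mul_sm (hB w j)).mono_sm (Nat.le_succ _)
  have hdet : G.det ≠ 0 := by
    intro h0
    obtain ⟨u, hu, hu0⟩ := Matrix.exists_mulVec_eq_zero_iff.2 h0
    have h1 : Matrix.vecMul u B ⬝ᵥ Matrix.vecMul u B = 0 := by
      have h2 : u ⬝ᵥ G.mulVec u = 0 := by rw [hu0, dotProduct_zero]
      rwa [← Matrix.mulVec_mulVec, Matrix.dotProduct_mulVec, Matrix.mulVec_transpose] at h2
    have h3 := dotProduct_self_eq_zero.1 h1
    refine hu (funext (Fintype.linearIndependent_iff.1 hli u ?_))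
    funext j
    have := congrFun h3 j
    simpa [Matrix.vecMul, dotProduct, B] using this
  let y : σ → ℝ := B.transpose.mulVec (G.adjugate.mulVec c)
  obtain ⟨b1, b2⟩ := bound_sm hr
  have hy : ∀ j, Sm K (2 ^ (12 * (Fintype.card σ + 1) ^ 2)) (y j) := fun j => by
    refine (sum_sm Finset.univ fun v => (hB v j).mul_sm (sum_sm Finset.univ fun w =>
      Sm.mul_sm (r := G.adjugate v w) ?_ (hb (k w)))).mono_sm b1
    rw [Matrix.adjugate_apply]
    refine det_sm hK _ fun i j => ?_
    rw [Matrix.updateRow_apply]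
    split_ifs
    · rw [Pi.single_apply]
      split_ifs
      · exact one_sm.mono_sm (by omega)
      · exact zero_sm _
    · exact hG _ _
  have hD := (det_sm hK G hG).mono_sm b2
  have key : ∀ w ∈ Submodule.span ℝ S, w ⬝ᵥ y = w ⬝ᵥ x * G.det := by
    intro w hw
    induction hw using Submodule.span_induction with
    | mem w hw =>
      have h1 : B.mulVec y = G.det • c := by
        rw [Matrix.mulVec_mulVec, Matrix.mulVec_mulVec, Matrix.mul_adjugate, Matrix.smul_mulVec,
          Matrix.one_mulVec]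
      have h2 := congrFun h1 ⟨w, hw⟩
      have h3 := hx (k ⟨w, hw⟩)
      rw [hk] at h3
      have h4 : w ⬝ᵥ x = c ⟨w, hw⟩ := h3
      rw [h4, mul_comm]
      exact h2
    | zero => simp
    | add u v _ _ h1 h2 => rw [add_dotProduct, add_dotProduct, h1, h2]; ring
    | smul a u _ h1 => rw [smul_dotProduct, smul_dotProduct, h1, smul_eq_mul, smul_eq_mul]; ring
  have key' : ∀ i, ∑ j, A i j * y j = b i * G.det := fun i => by
    rw [← hx i]
    exact key (A i) (hspan ▸ Submodule.subset_span ⟨i, rfl⟩)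
  rcases lt_or_gt_of_ne hdet with h | h
  · refine ⟨fun j => -y j, -G.det, by linarith, hD.neg_sm hK, fun j => (hy j).neg_sm hK,
      fun i => ?_⟩
    simp only [mul_neg, Finset.sum_neg_distrib, key']
  · exact ⟨y, G.det, h, hD, hy, key'⟩

/-- A face of a polyhedron on which all solutions of the tight equations are feasible. -/
theorem exists_face {ι σ : Type} [Fintype ι] [Fintype σ] (A : ι → σ → ℝ) (b : ι → ℝ) (j₀ : σ)
    (i₀ : ι) (h₀ : ∀ x : σ → ℝ, ∑ j, A i₀ j * x j = -x j₀) (x : σ → ℝ)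
    (hx : ∀ i, b i ≤ ∑ j, A i j * x j) :
    ∃ (T : Set ι) (z : σ → ℝ), (∀ i ∈ T, ∑ j, A i j * z j = b i) ∧ ∀ z' : σ → ℝ,
      (∀ i ∈ T, ∑ j, A i j * z' j = b i) → x j₀ ≤ z' j₀ ∧ ∀ i, b i ≤ ∑ j, A i j * z' j := by
  classical
  let N : (σ → ℝ) → Finset ι := fun z => Finset.univ.filter fun i => ∑ j, A i j * z j ≠ b i
  have hex : ∃ m, ∃ z : σ → ℝ, (x j₀ ≤ z j₀ ∧ ∀ i, b i ≤ ∑ j, A i j * z j) ∧ (N z).card = m :=
    ⟨_, x, ⟨le_rfl, hx⟩, rfl⟩
  obtain ⟨z, ⟨hz0, hz⟩, hm⟩ := Nat.find_spec hex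
  have hlin : ∀ (d : σ → ℝ) (t : ℝ) (i : ι),
      ∑ j, A i j * (z j + t * d j) = ∑ j, A i j * z j + t * ∑ j, A i j * d j := fun d t i => by
    rw [Finset.mul_sum, ← Finset.sum_add_distrib]
    exact Finset.sum_congr rfl fun j _ => by ring
  have key : ∀ d : σ → ℝ, (∀ i, ∑ j, A i j * z j = b i → ∑ j, A i j * d j = 0) → 0 ≤ d j₀ →
      ∀ i, 0 ≤ ∑ j, A i j * d j := by
    intro d hd hd0
    by_contra hcon
    push Not at hcon
    obtain ⟨i, hi⟩ := hcon
    obtain ⟨i₁, hi₁, hmin⟩ := Finset.exists_min_image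
      (Finset.univ.filter fun i => ∑ j, A i j * d j < 0)
      (fun i => (∑ j, A i j * z j - b i) / -∑ j, A i j * d j) ⟨i, by simpa using hi⟩
    have h1 : ∑ j, A i₁ j * d j < 0 := by simpa using hi₁
    set t := (∑ j, A i₁ j * z j - b i₁) / -∑ j, A i₁ j * d j with ht
    have ht0 : 0 ≤ t := div_nonneg (by linarith [hz i₁]) (by linarith)
    have ht1 : t * -∑ j, A i₁ j * d j = ∑ j, A i₁ j * z j - b i₁ :=
      div_mul_cancel₀ _ (by linarith)
    have h2 : (N fun j => z j + t * d j).card < (N z).card := by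
      refine Finset.card_lt_card ⟨fun i hi => ?_, fun H => ?_⟩
      · simp only [N, Finset.mem_filter, Finset.mem_univ, true_and, hlin] at hi ⊢
        intro h3
        exact hi (by rw [hd i h3, h3]; ring)
      · have h3 : i₁ ∈ N z := by
          simp only [N, Finset.mem_filter, Finset.mem_univ, true_and]
          intro h3
          exact h1.ne (hd i₁ h3)
        have h4 := H h3
        simp only [N, Finset.mem_filter, Finset.mem_univ, true_and, hlin] at h4
        exact h4 (by linarith)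
    refine Nat.find_min hex (hm ▸ h2) ⟨_, ⟨by nlinarith [mul_nonneg ht0 hd0], fun i => ?_⟩, rfl⟩
    rw [hlin]
    by_cases h3 : ∑ j, A i j * d j < 0
    · have h4 := hmin i (by simpa using h3)
      rw [le_div_iff₀ (by linarith)] at h4
      linarith
    · nlinarith [hz i, mul_nonneg ht0 (not_lt.1 h3)]
  refine ⟨{i | ∑ j, A i j * z j = b i}, z, fun i hi => hi, fun z' hz' => ?_⟩
  have e1 : ∀ i, ∑ j, A i j * (z' j - z j) = ∑ j, A i j * z' j - ∑ j, A i j * z j := fun i => by
    rw [← Finset.sum_sub_distrib]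
    exact Finset.sum_congr rfl fun j _ => by ring
  have e2 : ∀ i, ∑ j, A i j * (z j - z' j) = ∑ j, A i j * z j - ∑ j, A i j * z' j := fun i => by
    rw [← Finset.sum_sub_distrib]
    exact Finset.sum_congr rfl fun j _ => by ring
  have k1 := key (fun j => z' j - z j) fun i hi => by rw [e1, hz' i hi, hi, sub_self]
  have k2 := key (fun j => z j - z' j) fun i hi => by rw [e2, hz' i hi, hi, sub_self]
  have h1 : z j₀ ≤ z' j₀ := by
    by_contra h
    have h2 := k2 (by linarith) i₀
    rw [h₀] at h2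
    linarith
  refine ⟨hz0.trans h1, fun i => ?_⟩
  have h2 := k1 (by linarith) i
  rw [e1] at h2
  linarith [hz i]

theorem small_solution (hK : 2 ≤ K) {ι σ : Type} [Fintype ι] [Fintype σ] (A : ι → σ → ℝ)
    (b : ι → ℝ) (s : ι → Prop) (hA : ∀ i j, Sm K 2 (A i j)) (hb : ∀ i, Sm K 2 (b i)) (x : σ → ℝ)
    (hx : ∀ i, b i ≤ ∑ j, A i j * x j ∧ (s i → b i < ∑ j, A i j * x j)) :
    ∃ (y : σ → ℝ) (D : ℝ), 0 < D ∧ Sm K (2 ^ (12 * (Fintype.card σ + 2) ^ 2)) D ∧
      (∀ j, Sm K (2 ^ (12 * (Fintype.card σ + 2) ^ 2)) (y j)) ∧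
      ∀ i, b i * D ≤ ∑ j, A i j * y j ∧ (s i → b i * D < ∑ j, A i j * y j) := by
  classical
  let f : Option ι → ℝ := fun o => o.elim 1 fun i => if s i then ∑ j, A i j * x j - b i else 1
  obtain ⟨o, -, ho⟩ := Finset.exists_min_image Finset.univ f ⟨none, Finset.mem_univ _⟩
  have hε : 0 < f o := by
    rcases o with _ | i
    · exact one_pos
    · simp only [f, Option.elim]
      split_ifs with h
      · linarith [(hx i).2 h]
      · exact one_pos
  let A' : Option ι → Option σ → ℝ := fun o p =>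
    o.elim (p.elim (-1) fun _ => 0) fun i => p.elim (if s i then -1 else 0) fun j => A i j
  let b' : Option ι → ℝ := fun o => o.elim (-1) b
  have hm : Sm K 2 (-1) := (one_sm.neg_sm hK).mono_sm (by norm_num)
  have hA' : ∀ o p, Sm K 2 (A' o p) := by
    rintro (_ | i) (_ | j)
    · exact hm
    · exact zero_sm _
    · simp only [A', Option.elim]
      split_ifs
      · exact hm
      · exact zero_sm _
    · exact hA i j
  have hb' : ∀ o, Sm K 2 (b' o) := by
    rintro (_ | i)
    · exact hm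
    · exact hb i
  obtain ⟨T, z, hz, hT⟩ := exists_face A' b' none none (fun x => by simp [A'])
    (fun p => p.elim (f o) x) (by
      rintro (_ | i)
      · have := ho none (Finset.mem_univ _)
        simpa [A', b', f] using this
      · have h1 := ho (some i) (Finset.mem_univ _)
        rw [Fintype.sum_option]
        by_cases h : s i
        · simp only [A', b', f, Option.elim, if_pos h] at h1 ⊢
          linarith
        · simp only [A', b', Option.elim, if_neg h]
          linarith [(hx i).1])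
  obtain ⟨y, D, hD, h1, h2, h3⟩ := small_eq hK (fun i : T => A' i) (fun i : T => b' i)
    (fun i => hA' i) (fun i => hb' i) z fun i => hz i i.2
  rw [Fintype.card_option] at h1 h2
  have e1 : ∀ o, ∑ p, A' o p * (y p / D) = (∑ p, A' o p * y p) / D := fun o => by
    rw [Finset.sum_div]
    exact Finset.sum_congr rfl fun j _ => by ring
  obtain ⟨h4, h5⟩ := hT (fun p => y p / D) fun i hi => by
    rw [e1, h3 ⟨i, hi⟩, mul_div_cancel_right₀ _ hD.ne']
  have h6 : 0 < y none := by
    have h7 : 0 < y none / D := hε.trans_le h4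
    rwa [div_pos_iff_of_pos_right hD] at h7
  refine ⟨fun j => y (some j), D, hD, h1, fun j => h2 _, fun i => ?_⟩
  have h7 := h5 (some i)
  rw [e1, le_div_iff₀ hD, Fintype.sum_option] at h7
  by_cases h : s i
  · simp only [A', b', Option.elim, if_pos h] at h7
    exact ⟨by linarith, fun _ => by linarith⟩
  · simp only [A', b', Option.elim, if_neg h] at h7
    exact ⟨by linarith, fun h' => absurd h' h⟩

end Pool.Agent.Lib.MP_0e6856_lc
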