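import Pool.Agent.Lib.MP_0e6856_lc.Member

/-!
Sums of roots of unity with multiplicities written in binary.
-/

namespace Pool.Agent.Lib.MP_0e6856_lc

open N68a2faeb Pool.Agent.Shared.PolyTime N487b59b3

variable {K : ℕ}

/-- The list of exponents with the given multiplicities. -/
def expand (W : List (ℕ × ℤ)) : List ℤ := W.flatMap fun c => List.replicate c.1 c.2

theorem expand_cons_ws (c : ℕ × ℤ) (W : List (ℕ × ℤ)) :
    expand (c :: W) = List.replicate c.1 c.2 ++ expand W := by
  simp [expand]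

theorem expand_sum_ws {M : Type} [Semiring M] (f : ℤ → M) (W : List (ℕ × ℤ)) :
    ((expand W).map f).sum = (W.map fun c => (c.1 : M) * f c.2).sum := by
  induction W with
  | nil => simp [expand]
  | cons c W ih => simp [expand_cons_ws, ih]

theorem expand_length_ws (W : List (ℕ × ℤ)) : (expand W).length = (W.map fun c => c.1).sum := by
  induction W with
  | nil => simp [expand]
  | cons c W ih => simp [expand_cons_ws, ih]

theorem expand_shift_ws (W : List (ℕ × ℤ)) (k : ℤ) :
    expand (W.map fun c => (c.1, c.2 + k)) = (expand W).map fun r => r + k := by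
  induction W with
  | nil => simp [expand]
  | cons c W ih => simp [expand_cons_ws, ih]

open Classical in
theorem le_approx_ws {N : ℕ} (hN : 0 < N) (r : ℤ) (m : ℕ) :
    (m ≤ 2 * N ∧ ((((m : ℚ) - N) / N : ℚ) : ℝ) ≤ (E K r).re) ↔ m ≤ approx K N r := by
  have N0 : (0 : ℝ) < N := by exact_mod_cast hN
  constructor
  · rintro ⟨h1, h2⟩
    exact Nat.le_findGreatest (P := fun a => ((((a : ℚ) - N) / N : ℚ) : ℝ) ≤ (E K r).re) h1 h2
  · intro h
    refine ⟨h.trans (Nat.findGreatest_le _), ?_⟩
    have h1 := (approx_spec (K := K) hN r).1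
    have h2 : (m : ℝ) ≤ approx K N r := by exact_mod_cast h
    push_cast
    rw [div_le_iff₀ N0]
    linarith

theorem approx_polyTime_ws (hK : 2 ≤ K) :
    IsPolyTime (fun z : ℕ × ℤ => approx K (z.1 + 1) z.2) := by
  classical
  have h1 := le_cos_polyTime hK
  have h2 : IsPolyTime (fun y : (ℕ × ℤ) × ℕ =>
      decide (((((y.2 : ℚ) - (y.1.1 + 1 : ℕ)) / (y.1.1 + 1 : ℕ) : ℚ) : ℝ) ≤ (E K y.1.2).re)) :=
    IsPolyTime.decide_congr (h1.comp (g := fun y : (ℕ × ℤ) × ℕ =>
      (((y.2 : ℚ) - (y.1.1 + 1 : ℕ)) / (y.1.1 + 1 : ℕ), y.1.2)) (by fun_prop)) (fun _ => Iff.rfl)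
  have h3 : IsPolyTime (fun y : (ℕ × ℤ) × ℕ => decide (y.2 ≤ 2 * (y.1.1 + 1))) := by fun_prop
  refine IsPolyTime.binarySearch (P := fun (z : ℕ × ℤ) (m : ℕ) => decide (m ≤ 2 * (z.1 + 1)) &&
    decide (((((m : ℚ) - (z.1 + 1 : ℕ)) / (z.1 + 1 : ℕ) : ℚ) : ℝ) ≤ (E K z.2).re))
    (k := fun z => bsize (2 * (z.1 + 1))) (h3.and h2) (by fun_prop) (by fun_prop)
    (fun z => (Nat.findGreatest_le _).trans_lt (lt_two_pow_bsize _)) (fun z m => ?_)
  rw [← le_approx_ws (Nat.succ_pos _), Bool.and_eq_true, decide_eq_true_iff, decide_eq_true_iff]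

theorem wpos_polyTime (hK : 2 ≤ K) : IsPolyTime (fun W : List (ℕ × ℤ) =>
    @decide (0 < SS K (expand W)) (Classical.propDecidable _)) := by
  classical
  obtain ⟨d, hd⟩ := gap hK
  have h1 := approx_polyTime_ws hK
  let n : List (ℕ × ℤ) → ℕ := fun W =>
    2 * (W.map fun c => c.1).sum * (2 * (W.map fun c => c.1).sum) ^ d
  have hn : IsPolyTime n := by fun_prop
  let A : ℕ × ℤ → ℕ := fun z => approx K (z.1 + 1) z.2
  have hA : IsPolyTime A := h1
  have h3 : IsPolyTime (fun W : List (ℕ × ℤ) => decide (0 <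
      (W.map fun c => (c.1 : ℤ) * ((A (n W, c.2) : ℤ) - (n W + 1 : ℕ))).sum)) := by
    clear_value A n
    fun_prop
  refine IsPolyTime.decide_congr h3 (fun W => ?_)
  obtain ⟨a, b⟩ := approx_sum (K := K) (N := n W + 1) (by positivity) (expand W)
  have e := expand_sum_ws (fun r => (approx K (n W + 1) r : ℤ) - (n W + 1 : ℕ)) W
  simp only [A]
  rw [← e]
  have N0 : (0 : ℝ) < (n W + 1 : ℕ) := by positivity
  generalize ((expand W).map fun r => (approx K (n W + 1) r : ℤ) - (n W + 1 : ℕ)).sum = S at a b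
  constructor
  · intro h
    have : (0 : ℝ) < S := by exact_mod_cast h
    by_contra hc
    nlinarith
  · intro h
    have g := hd (expand W) h.ne'
    rw [abs_of_pos h] at g
    have : ((expand W).length : ℝ) < (n W + 1 : ℕ) * SS K (expand W) := by
      simp only [n, ← expand_length_ws]
      push_cast
      nlinarith [mul_le_mul_of_nonneg_left g (Nat.cast_nonneg (α := ℝ) (expand W).length)]
    have : (0 : ℝ) < S := by linarith
    exact_mod_cast this

theorem wnonneg_polyTime (hK : 2 ≤ K) : IsPolyTime (fun W : List (ℕ × ℤ) =>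
    @decide (0 ≤ SS K (expand W)) (Classical.propDecidable _)) := by
  have h := (wpos_polyTime hK).comp
    (g := fun W : List (ℕ × ℤ) => W.map fun c : ℕ × ℤ => (c.1, c.2 + K)) (by fun_prop)
  refine h.not.of_eq (fun W => ?_)
  rw [Bool.eq_iff_iff]
  simp [expand_shift_ws, SS_neg hK]

theorem count_sum_ws (hK : 2 ≤ K) (L : List ℤ) :
    ∑ i ∈ Finset.range (2 * K),
      (((L.map fun e : ℤ => (e % (2 * K)).toNat).count i : ℕ) : ℂ) * E K i = pt K L := by
  induction L with
  | nil => simp [pt]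
  | cons e L ih =>
    have h1 := Int.emod_nonneg e (show (2 * K : ℤ) ≠ 0 by omega)
    have h3 := Int.emod_lt_of_pos e (show (0 : ℤ) < 2 * K by omega)
    have h4 : E K ((e % (2 * K)).toNat : ℕ) = E K e := by
      rw [Int.toNat_of_nonneg h1, ← E_period hK (e % (2 * K)) (e / (2 * K)), Int.emod_add_mul_ediv]
    have h5 : (e % (2 * K)).toNat ∈ Finset.range (2 * K) := Finset.mem_range.2 (by omega)
    have h6 : pt K (e :: L) = pt K L + E K e := by simp [pt, add_comm]
    rw [h6, ← ih, ← h4]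
    simp only [List.map_cons, List.count_cons, Nat.cast_add, add_mul, Finset.sum_add_distrib,
      beq_iff_eq, Nat.cast_ite, Nat.cast_one, Nat.cast_zero, ite_mul, one_mul, zero_mul,
      Finset.sum_ite_eq, if_pos h5]

/-- A sum of at most `2 ^ m` roots of unity has a short code. -/
theorem compress (hK : 2 ≤ K) (L : List ℤ) {m : ℕ} (h : L.length ≤ 2 ^ m) :
    ∃ W : List (ℕ × ℤ), pt K (expand W) = pt K L ∧ bsize W ≤ 2 * K * (4 * m + 8 * K + 9) := by
  refine ⟨(List.range (2 * K)).map fun i : ℕ =>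
    ((L.map fun e : ℤ => (e % (2 * K)).toNat).count i, (i : ℤ)), ?_, ?_⟩
  · rw [← count_sum_ws hK L, pt, expand_sum_ws, List.map_map]
    rfl
  · refine (bsize_list_le _ (2 * m + 4 * K + 4) (fun c hc => ?_)).trans
      (by rw [List.length_map, List.length_range]; exact Nat.mul_le_mul_left _ (by omega))
    obtain ⟨i, hi, rfl⟩ := List.mem_map.1 hc
    have h1 : i < 2 * K := List.mem_range.1 hi
    have h2 : bsize ((L.map fun e : ℤ => (e % (2 * K)).toNat).count i) ≤ m + 1 := by
      rw [bsize_nat_le_iff]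
      have := List.count_le_length (a := i) (l := L.map fun e : ℤ => (e % (2 * K)).toNat)
      rw [List.length_map] at this
      have := Nat.two_pow_pos m
      omega
    have h3 := bsize_int_le (i : ℤ)
    rw [Int.natAbs_natCast] at h3
    have h4 := bsize_nat_le_self i
    rw [bsize_pair]
    omega

end Pool.Agent.Lib.MP_0e6856_lc
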