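import Pool.Agent.Lib.MP_0e6856_lc.All.Norm
import Pool.Agent.Lib.MP_0e6856_lc.All.WSign
import Pool.Agent.Lib.MP_0e6856_lc.All.Small

/-!
Membership in NP.
-/

namespace Pool.Agent.Lib.MP_0e6856_lc

open N68a2faeb Pool.Agent.Shared.PolyTime N487b59b3

variable {K : ℕ}

theorem SS_eq_mt (K : ℕ) (L : List ℤ) : SS K L = (pt K L).re := by
  induction L with
  | nil => simp [SS, pt]
  | cons e L ih =>
    simp only [SS, pt, List.map_cons, List.sum_cons, Complex.add_re] at *
    rw [ih]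

theorem pt_append_mt (K : ℕ) (A B : List ℤ) : pt K (A ++ B) = pt K A + pt K B := by
  simp [pt]

theorem pt_shift_mt (K : ℕ) (A : List ℤ) (r : ℤ) :
    pt K (A.map fun e => e + r) = pt K A * E K r := by
  induction A with
  | nil => simp [pt]
  | cons e A ih =>
    simp only [pt, List.map_cons, List.sum_cons, E_add] at *
    rw [ih, add_mul]

theorem E_I_mt (hK : 2 ≤ K) : E (2 * K) K = Complex.I := by
  have h0 : (K : ℝ) ≠ 0 := by positivity
  have h : (((K : ℤ) : ℝ) * (Real.pi / ((2 * K : ℕ) : ℝ))) = Real.pi / 2 := by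
    push_cast; field_simp
  apply Complex.ext
  · rw [E_re, h]; simp
  · rw [E_im, h]; simp

theorem E_neg_one_mt (hK : 2 ≤ K) : E (2 * K) (2 * K) = -1 := by
  have := E_K (K := 2 * K) (by omega)
  push_cast at this
  exact this

theorem re_E_one_mt : (E (2 * K) 1).re = rho K := by rw [E_re, rho_eq]

/-- Zero or a root of unity of order `4K`. -/
def ZR_mt (K : ℕ) (z : ℂ) : Prop := z = 0 ∨ ∃ r : ℤ, z = E (2 * K) r

theorem ZR_mt.mul {z w : ℂ} (hz : ZR_mt K z) (hw : ZR_mt K w) : ZR_mt K (z * w) := by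
  rcases hz with rfl | ⟨r, rfl⟩
  · exact Or.inl (zero_mul _)
  rcases hw with rfl | ⟨s, rfl⟩
  · exact Or.inl (mul_zero _)
  exact Or.inr ⟨r + s, (E_add r s).symm⟩

theorem ZR_mt.sm {z : ℂ} (hz : ZR_mt K z) : Sm (2 * K) 2 (2 * z.re) := by
  rcases hz with rfl | ⟨r, rfl⟩
  · exact ⟨[], by simp, by simp [pt]⟩
  · refine ⟨[r, -r], by simp, ?_⟩
    simp only [pt, List.map_cons, List.map_nil, List.sum_cons, List.sum_nil, add_zero]
    rw [← conj_E, Complex.add_conj]

theorem ZR_sign_mt (hK : 2 ≤ K) {c : ℝ} (hc : c = 0 ∨ c = 1 ∨ c = -1) : ZR_mt K (c : ℂ) := by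
  rcases hc with rfl | rfl | rfl
  · exact Or.inl (by simp)
  · exact Or.inr ⟨0, by simp⟩
  · exact Or.inr ⟨2 * K, by rw [E_neg_one_mt hK]; simp⟩

theorem Fn_sum_mt {σ : Type} (l : ℤ) (s : Finset σ) (x : σ → ℝ) (f : σ → ℂ) :
    Fn K l (∑ j ∈ s, (x j : ℂ) * f j) = ∑ j ∈ s, x j * Fn K l (f j) := by
  classical
  induction s using Finset.induction_on with
  | empty => simp [Fn]
  | insert a s ha ih => rw [Finset.sum_insert ha, Finset.sum_insert ha, Fn_add, Fn_smul, ih]

theorem forall_int_mt (hK : 2 ≤ K) {z : ℂ} {t : ℝ}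
    (h : ∀ l : Fin (2 * K), Fn K ((l : ℕ) : ℤ) z ≤ t) (l : ℤ) : Fn K l z ≤ t := by
  by_contra hc
  obtain ⟨m, hm, hl⟩ := (exists_int_iff hK (P := fun l => t < Fn K l z)
    (fun l n h => by rwa [Fn_period hK])).1 ⟨l, not_le.1 hc⟩
  exact absurd (h ⟨m, hm⟩) (not_le.2 hl)

/-- A model with small coordinates, scaled by `t / rho K`. -/
theorem small_model (hK : 2 ≤ K) {V : Type} [Fintype V] {G : SimpleGraph V} {p : V → ℂ}
    (hp : TModel K G p) : ∃ (L : V → List ℤ) (T : List ℤ),
      (∀ v, (L v).length ≤ 2 ^ (12 * (2 * Fintype.card V + 2) ^ 2 + 1)) ∧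
      T.length ≤ 2 ^ (12 * (2 * Fintype.card V + 2) ^ 2 + 1) ∧ 0 < SS (2 * K) T ∧
      TModel K G (fun v => (rho K / SS (2 * K) T : ℝ) * pt (2 * K) (L v)) := by
  classical
  choose lu hlu using fun u v : V => exists_nu hK (p u - p v)
  let e : V × Bool → V → ℂ := fun j v => if j.1 = v then (if j.2 then Complex.I else 1) else 0
  let q : (V × Bool → ℝ) → V → ℂ := fun x v => x (v, false) + x (v, true) * Complex.I
  have hq : ∀ x v, ∑ j, (x j : ℂ) * e j v = q x v := by
    intro x v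
    rw [Fintype.sum_prod_type, Finset.sum_eq_single v]
    · simp [e, q, add_comm]
    · intro b _ hb
      simp [e, hb]
    · simp
  let c : V × V × Option (Fin (2 * K)) → ℝ := fun i =>
    match i.2.2 with
    | none => if i.1 = i.2.1 then 0 else 1
    | some _ => if G.Adj i.1 i.2.1 then -1 else 0
  let li : V × V × Option (Fin (2 * K)) → ℤ := fun i =>
    match i.2.2 with
    | none => lu i.1 i.2.1
    | some l => ((l : ℕ) : ℤ)
  let s : V × V × Option (Fin (2 * K)) → Prop := fun i =>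
    i.2.2 = none ∧ i.1 ≠ i.2.1 ∧ ¬ G.Adj i.1 i.2.1
  let A : V × V × Option (Fin (2 * K)) → V × Bool → ℝ := fun i j =>
    c i * (2 * Fn K (li i) (e j i.1 - e j i.2.1))
  let b : V × V × Option (Fin (2 * K)) → ℝ := fun i => c i * (2 * rho K)
  have hc : ∀ i, ZR_mt K (c i : ℂ) := by
    rintro ⟨u, v, _ | l⟩
    · refine ZR_sign_mt hK ?_
      simp only [c]
      split_ifs <;> simp
    · refine ZR_sign_mt hK ?_
      simp only [c]
      split_ifs <;> simp
  have he : ∀ j u v, ZR_mt K (e j u - e j v) := by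
    intro j u v
    have h1 : ZR_mt K (if j.2 then Complex.I else 1) := by
      split_ifs
      · exact Or.inr ⟨K, (E_I_mt hK).symm⟩
      · exact Or.inr ⟨0, by simp⟩
    have h2 : e j u - e j v = (((if j.1 = u then 1 else 0) - (if j.1 = v then 1 else 0) : ℝ) : ℂ) *
        (if j.2 then Complex.I else 1) := by
      simp only [e]
      split_ifs <;> simp
    rw [h2]
    refine (ZR_sign_mt hK ?_).mul h1
    split_ifs <;> simp
  have hA : ∀ i j, Sm (2 * K) 2 (A i j) := by
    intro i j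
    have := (((hc i).mul (he j i.1 i.2.1)).mul (Or.inr ⟨-(2 * li i + 1), rfl⟩)).sm
    convert this using 1
    simp only [A, Fn, mul_assoc, Complex.re_ofReal_mul]
    ring
  have hb : ∀ i, Sm (2 * K) 2 (b i) := by
    intro i
    have := ((hc i).mul (Or.inr ⟨1, rfl⟩)).sm
    convert this using 1
    simp only [b, Complex.re_ofReal_mul, re_E_one_mt]
    ring
  have hrow : ∀ (x : V × Bool → ℝ) i, ∑ j, A i j * x j =
      c i * (2 * Fn K (li i) (q x i.1 - q x i.2.1)) := by
    intro x i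
    rw [← hq, ← hq, ← Finset.sum_sub_distrib]
    simp only [← mul_sub]
    rw [Fn_sum_mt, Finset.mul_sum, Finset.mul_sum]
    exact Finset.sum_congr rfl fun j _ => by simp only [A]; ring
  let x : V × Bool → ℝ := fun j => if j.2 then (p j.1).im else (p j.1).re
  have hx : ∀ v, q x v = p v := fun v => by simp [q, x]
  have r0 := rho_pos hK
  obtain ⟨y, D, D0, ⟨LD, LD1, LD2⟩, hy, hrows⟩ := small_solution (K := 2 * K) (by omega) A b s hA hb x
    (by
      rintro ⟨u, v, _ | l⟩
      · rw [hrow x (u, v, none), hx, hx]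
        simp only [b, c, li, s, hlu]
        by_cases huv : u = v
        · simp [huv]
        · obtain ⟨h1, h2⟩ := hp u v huv
          simp only [if_neg huv]
          refine ⟨by nlinarith, fun h => ?_⟩
          have := not_le.1 (fun t => h.2.2 (h2.2 t))
          nlinarith
      · rw [hrow x (u, v, some l), hx, hx]
        simp only [b, c, li, s]
        refine ⟨?_, fun h => by simp at h⟩
        by_cases huv : G.Adj u v
        · have h1 := (nu_le_iff hK).1 ((hp u v huv.ne).2.1 huv) ((l : ℕ) : ℤ)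
          simp only [if_pos huv]
          linarith
        · simp [huv])
  choose Ly Ly1 Ly2 using hy
  have hcard : Fintype.card (V × Bool) = 2 * Fintype.card V := by simp [mul_comm]
  rw [hcard] at LD1 Ly1
  have hT : SS (2 * K) (LD.map fun e => e + 1) = D * rho K := by
    rw [SS_eq_mt, pt_shift_mt, LD2, Complex.re_ofReal_mul, re_E_one_mt]
  refine ⟨fun v => Ly (v, false) ++ (Ly (v, true)).map fun e : ℤ => e + K, LD.map fun e => e + 1,
    fun v => ?_, ?_, ?_, ?_⟩
  · have a1 := Ly1 (v, false)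
    have a2 := Ly1 (v, true)
    rw [List.length_append, List.length_map, pow_succ]
    omega
  · rw [List.length_map, pow_succ]
    omega
  · rw [hT]
    positivity
  · intro u v huv
    have hpt : ∀ v, pt (2 * K) (Ly (v, false) ++ (Ly (v, true)).map fun e : ℤ => e + K) = q y v := by
      intro v
      rw [pt_append_mt, pt_shift_mt, Ly2, Ly2, E_I_mt hK]
    have hD : rho K / (D * rho K) = D⁻¹ := by field_simp
    simp only [hpt, hT, hD, ← mul_sub]
    have hF : ∀ l, Fn K l (q y u - q y v) = Fn K l ((D⁻¹ : ℝ) * (q y u - q y v)) * D := by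
      intro l
      rw [Fn_smul]
      field_simp
    obtain ⟨n1, n2⟩ := hrows (u, v, none)
    rw [hrow y (u, v, none)] at n1 n2
    simp only [b, c, li, s, if_neg huv] at n1 n2
    rw [hF] at n1 n2
    refine ⟨(le_nu_iff hK).2 ⟨lu u v, le_of_mul_le_mul_right (by linarith) D0⟩, fun h => ?_,
      fun h => ?_⟩
    · refine (nu_le_iff hK).2 (forall_int_mt hK fun l => ?_)
      have m1 := (hrows (u, v, some l)).1
      rw [hrow y (u, v, some l)] at m1
      simp only [b, c, li, if_pos h] at m1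
      rw [hF] at m1
      exact le_of_mul_le_mul_right (by linarith) D0
    · by_contra hn
      have m1 := n2 ⟨trivial, huv, hn⟩
      have m2 := mul_le_mul_of_nonneg_right ((nu_le_iff hK).1 h (lu u v)) D0.le
      linarith

/-- Shift of all exponents of a weighted list. -/
def shift_mt (W : List (ℕ × ℤ)) (r : ℤ) : List (ℕ × ℤ) := W.map fun c => (c.1, c.2 + r)

theorem expand_shift_mt (W : List (ℕ × ℤ)) (r : ℤ) :
    expand (shift_mt W r) = (expand W).map fun e => e + r := by
  induction W with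
  | nil => simp [expand, shift_mt]
  | cons c W ih =>
    simp only [expand, shift_mt, List.map_cons, List.flatMap_cons, List.map_append,
      List.map_replicate] at *
    rw [ih]

theorem expand_append_mt (A B : List (ℕ × ℤ)) : expand (A ++ B) = expand A ++ expand B := by
  simp [expand]

/-- The weighted cosines whose sum is `Fn l (A - B) - T`. -/
def cl_mt (K : ℕ) (l : ℤ) (A B T : List (ℕ × ℤ)) : List (ℕ × ℤ) :=
  shift_mt A (-(2 * l + 1)) ++ shift_mt B (-(2 * l + 1) + 2 * K) ++ shift_mt T (2 * K)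

theorem SS_cl_mt (hK : 2 ≤ K) (l : ℤ) (A B T : List (ℕ × ℤ)) :
    SS (2 * K) (expand (cl_mt K l A B T)) =
      Fn K l (pt (2 * K) (expand A) - pt (2 * K) (expand B)) - SS (2 * K) (expand T) := by
  simp only [cl_mt, expand_append_mt, expand_shift_mt, SS_eq_mt, pt_append_mt, pt_shift_mt, E_add,
    E_neg_one_mt hK, Fn, sub_mul, Complex.add_re, Complex.sub_re, mul_neg, mul_one, Complex.neg_re]
  ring

abbrev Cert_mt : Type := List (ℕ × ℤ) × List (List (ℕ × ℤ))

/-- The weighted exponents attached to a vertex. -/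
def look_mt (x : GI) (w : Cert_mt) (v : ℕ) : List (ℕ × ℤ) := w.2.getD (x.1.idxOf v) []

/-- The test made by the verifier. -/
def Chk_mt (K : ℕ) (x : GI) (w : Cert_mt) : Prop :=
  0 < SS (2 * K) (expand w.1) ∧ ∀ u ∈ x.1, ∀ v ∈ x.1, u ≠ v →
    (∃ l < 2 * K, 0 ≤ SS (2 * K) (expand (cl_mt K (l : ℕ) (look_mt x w u) (look_mt x w v) w.1))) ∧
    (((u, v) ∈ x.2 ∨ (v, u) ∈ x.2) ↔ ¬ ∃ l < 2 * K,
      0 < SS (2 * K) (expand (cl_mt K (l : ℕ) (look_mt x w u) (look_mt x w v) w.1)))

theorem chk_iff_mt (hK : 2 ≤ K) (x : GI) (w : Cert_mt) :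
    Chk_mt K x w ↔ 0 < SS (2 * K) (expand w.1) ∧ TModel K (listGraph x)
      (fun v => (rho K / SS (2 * K) (expand w.1) : ℝ) * pt (2 * K) (expand (look_mt x w v.1))) := by
  have key : ∀ u v : {v // v ∈ x.1}, u ≠ v →
      ((listGraph x).Adj u v ↔ ((u.1, v.1) ∈ x.2 ∨ (v.1, u.1) ∈ x.2)) := fun u v h => by
    simp [listGraph, h]
  refine and_congr_right fun t0 => ?_
  simp only [SS_cl_mt hK, TModel, ← mul_sub]
  generalize SS (2 * K) (expand w.1) = t at t0 ⊢
  have r0 := rho_pos hK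
  have e1 : ∀ z, (∃ l < 2 * K, 0 ≤ Fn K (l : ℕ) z - t) ↔ 1 ≤ nu K ((rho K / t : ℝ) * z) := fun z => by
    rw [le_nu_iff hK, exists_int_iff hK (P := fun l => 1 * rho K ≤ Fn K l ((rho K / t : ℝ) * z))
      (fun l n h => by rwa [Fn_period hK])]
    refine exists_congr fun l => and_congr_right fun _ => ?_
    rw [Fn_smul, div_mul_eq_mul_div, le_div_iff₀ t0, one_mul, mul_le_mul_iff_right₀ r0, sub_nonneg]
  have e2 : ∀ z, (¬ ∃ l < 2 * K, 0 < Fn K (l : ℕ) z - t) ↔ nu K ((rho K / t : ℝ) * z) ≤ 1 := fun z => by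
    rw [nu_le_iff hK, ← exists_int_iff hK (P := fun l => 0 < Fn K l z - t)
      (fun l n h => by rwa [Fn_period hK]), not_exists]
    refine forall_congr' fun l => ?_
    rw [Fn_smul, div_mul_eq_mul_div, div_le_iff₀ t0, one_mul, mul_le_mul_iff_right₀ r0, not_lt,
      sub_nonpos]
  simp only [e1, e2]
  constructor
  · intro h u v huv
    rw [key u v huv]
    exact h u.1 u.2 v.1 v.2 (fun e => huv (Subtype.ext e))
  · intro h u hu v hv huv
    have ne : (⟨u, hu⟩ : {v // v ∈ x.1}) ≠ ⟨v, hv⟩ := fun e => huv (congrArg Subtype.val e)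
    have := h _ _ ne
    rwa [key _ _ ne] at this

open Classical in
theorem chk_polyTime_mt (hK : 2 ≤ K) :
    IsPolyTime (fun z : GI × Cert_mt => decide (Chk_mt K z.1 z.2)) := by
  have h1 := wpos_polyTime (K := 2 * K) (by omega)
  have h2 := wnonneg_polyTime (K := 2 * K) (by omega)
  have h3 : IsPolyTime (fun z : ℤ × List (ℕ × ℤ) × List (ℕ × ℤ) × List (ℕ × ℤ) =>
      cl_mt K z.1 z.2.1 z.2.2.1 z.2.2.2) := by
    unfold cl_mt shift_mt; fun_prop
  have h4 : IsPolyTime (fun z : GI × Cert_mt × ℕ => look_mt z.1 z.2.1 z.2.2) := by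
    unfold look_mt; fun_prop
  let P : List (ℕ × ℤ) → Bool := fun L => decide (0 < SS (2 * K) (expand L))
  let N : List (ℕ × ℤ) → Bool := fun L => decide (0 ≤ SS (2 * K) (expand L))
  have hP : IsPolyTime P := h1
  have hN : IsPolyTime N := h2
  have eP : ∀ L, 0 < SS (2 * K) (expand L) ↔ P L = true := fun L => by simp [P]
  have eN : ∀ L, 0 ≤ SS (2 * K) (expand L) ↔ N L = true := fun L => by simp [N]
  clear_value P N
  simp only [Chk_mt, eP, eN]
  fun_prop

/-- The bound for the size of one weighted list. -/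
def bd_mt (K n : ℕ) : ℕ :=
  2 * (2 * K) * (4 * (12 * ((2 * n + 2) * (2 * n + 2)) + 1) + 8 * (2 * K) + 9)

theorem exists_cert_mt (hK : 2 ≤ K) (x : GI) {p : {v // v ∈ x.1} → ℂ}
    (hp : TModel K (listGraph x) p) : ∃ w : Cert_mt, w.2.length = x.1.length ∧
      bsize w.1 ≤ bd_mt K x.1.length ∧ (∀ W ∈ w.2, bsize W ≤ bd_mt K x.1.length) ∧
      Chk_mt K x w := by
  classical
  have card : Fintype.card {v // v ∈ x.1} ≤ x.1.length := by
    rw [Fintype.card_of_subtype x.1.toFinset (fun v => List.mem_toFinset)]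
    exact List.toFinset_card_le x.1
  obtain ⟨L, T, l1, l2, l3, l4⟩ := small_model hK hp
  have hm : 2 ^ (12 * (2 * Fintype.card {v // v ∈ x.1} + 2) ^ 2 + 1) ≤
      2 ^ (12 * ((2 * x.1.length + 2) * (2 * x.1.length + 2)) + 1) := by
    rw [← sq]
    gcongr
    norm_num
  obtain ⟨WT, t1, t2⟩ := compress (K := 2 * K) (by omega) T (l2.trans hm)
  choose W w1 w2 using fun v => compress (K := 2 * K) (by omega) (L v) ((l1 v).trans hm)
  have t3 : SS (2 * K) (expand WT) = SS (2 * K) T := by rw [SS_eq_mt, SS_eq_mt, t1]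
  refine ⟨(WT, x.1.map fun v => if h : v ∈ x.1 then W ⟨v, h⟩ else []), by simp, t2, ?_, ?_⟩
  · intro M hM
    obtain ⟨v, hv, rfl⟩ := List.mem_map.1 hM
    rw [dif_pos hv]
    exact w2 _
  · rw [chk_iff_mt hK]
    have lk : ∀ v : {v // v ∈ x.1},
        look_mt x (WT, x.1.map fun v => if h : v ∈ x.1 then W ⟨v, h⟩ else []) v.1 = W v := by
      intro v
      have := List.idxOf_lt_length_iff.2 v.2
      simp [look_mt, List.getElem?_eq_getElem this, v.2]
    simp only [lk, t3, w1]
    exact ⟨l3, l4⟩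

theorem tModel_mem_NP (hK : 2 ≤ K) :
    langOf (fun x : List ℕ × List (ℕ × ℕ) => ∃ p, TModel K (listGraph x) p) ∈ NP := by
  classical
  refine langOf_mem_NP PolyDecode.dec PolyDecode.dec
    (fun x (w : Cert_mt) => decide (Chk_mt K x w)) (chk_polyTime_mt hK)
    (fun x => 2 * bd_mt K x.1.length + 1 + x.1.length * (2 * bd_mt K x.1.length + 1))
    (by unfold bd_mt; fun_prop) (fun x hx => ?_) (fun x w h => ?_)
  · obtain ⟨p, hp⟩ := hx
    obtain ⟨w, w1, w2, w3, w4⟩ := exists_cert_mt hK x hp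
    refine ⟨w, ?_, by simpa using w4⟩
    have := bsize_list_le w.2 _ w3
    rw [w1] at this
    rw [bsize_prod]
    omega
  · exact ⟨_, ((chk_iff_mt hK x w).1 (by simpa using h)).2⟩

end Pool.Agent.Lib.MP_0e6856_lc
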