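import Pool.Agent.Lib.MP_0e6856_lc.All.Defs
import Pool.Agent.Lib.MP_0e6856_lc.Polygon

/-!
The norm whose unit ball is the regular `2K`-gon.
-/

namespace Pool.Agent.Lib.MP_0e6856_lc

open Real

variable {K : ℕ}

/-- The norm whose unit ball is the regular `2K`-gon with corners `E K i`. -/
noncomputable def nu (K : ℕ) (z : ℂ) : ℝ := (⨆ l : ℤ, Fn K l z) / rho K

theorem Fn_le_nu (hK : 2 ≤ K) (l : ℤ) (z : ℂ) : Fn K l z ≤ nu K z * rho K := by
  rw [nu, div_mul_cancel₀ _ (rho_pos hK).ne']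
  exact le_ciSup (f := fun l => Fn K l z) ⟨‖z‖, by rintro _ ⟨l, rfl⟩; exact Fn_le_norm l z⟩ l

theorem nu_sector (hK : 2 ≤ K) (z : ℂ) : ∃ (i : ℤ) (α β : ℝ), 0 ≤ α ∧ 0 ≤ β ∧
    z = α * E K i + β * E K (i + 1) ∧ Fn K i z = (α + β) * rho K ∧ nu K z = α + β := by
  obtain ⟨i, α, β, a, b, c, d⟩ := sector_one hK z
  refine ⟨i, α, β, a, b, c, d, le_antisymm ?_ ?_⟩
  · rw [nu, div_le_iff₀ (rho_pos hK)]
    refine ciSup_le fun l => ?_
    rw [c, Fn_add, Fn_smul, Fn_smul, add_mul]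
    exact add_le_add (mul_le_mul_of_nonneg_left (Fn_E_le hK _ _) a)
      (mul_le_mul_of_nonneg_left (Fn_E_le hK _ _) b)
  · exact le_of_mul_le_mul_right (d ▸ Fn_le_nu hK i z) (rho_pos hK)

theorem exists_nu (hK : 2 ≤ K) (z : ℂ) : ∃ l, Fn K l z = nu K z * rho K := by
  obtain ⟨i, α, β, -, -, -, d, e⟩ := nu_sector hK z
  exact ⟨i, by rw [d, e]⟩

theorem nu_le_iff (hK : 2 ≤ K) {z : ℂ} {t : ℝ} : nu K z ≤ t ↔ ∀ l, Fn K l z ≤ t * rho K := by
  refine ⟨fun h l => (Fn_le_nu hK l z).trans (mul_le_mul_of_nonneg_right h (rho_pos hK).le),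
    fun h => ?_⟩
  obtain ⟨l, hl⟩ := exists_nu hK z
  exact le_of_mul_le_mul_right (hl ▸ h l) (rho_pos hK)

theorem le_nu_iff (hK : 2 ≤ K) {z : ℂ} {t : ℝ} : t ≤ nu K z ↔ ∃ l, t * rho K ≤ Fn K l z := by
  refine ⟨fun h => ?_, fun ⟨l, hl⟩ =>
    le_of_mul_le_mul_right (hl.trans (Fn_le_nu hK l z)) (rho_pos hK)⟩
  obtain ⟨l, hl⟩ := exists_nu hK z
  exact ⟨l, hl ▸ mul_le_mul_of_nonneg_right h (rho_pos hK).le⟩

theorem nu_nonneg (hK : 2 ≤ K) (z : ℂ) : 0 ≤ nu K z := by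
  obtain ⟨i, α, β, a, b, -, -, e⟩ := nu_sector hK z
  linarith

theorem norm_le_nu (hK : 2 ≤ K) (z : ℂ) : ‖z‖ ≤ nu K z := by
  obtain ⟨i, α, β, a, b, c, -, e⟩ := nu_sector hK z
  rw [e]
  refine (le_of_eq (congrArg _ c)).trans ((norm_add_le _ _).trans (le_of_eq ?_))
  simp [abs_of_nonneg a, abs_of_nonneg b]

theorem nu_le_norm (hK : 2 ≤ K) (z : ℂ) : nu K z * rho K ≤ ‖z‖ := by
  obtain ⟨l, hl⟩ := exists_nu hK z
  exact hl ▸ Fn_le_norm l z

theorem nu_add_le (hK : 2 ≤ K) (z w : ℂ) : nu K (z + w) ≤ nu K z + nu K w :=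
  (nu_le_iff hK).2 fun l => by
    rw [Fn_add, add_mul]
    exact add_le_add (Fn_le_nu hK l z) (Fn_le_nu hK l w)

theorem nu_smul (hK : 2 ≤ K) {t : ℝ} (ht : 0 ≤ t) (z : ℂ) : nu K (t * z) = t * nu K z := by
  refine le_antisymm ((nu_le_iff hK).2 fun l => ?_) ((le_nu_iff hK).2 ?_)
  · rw [Fn_smul, mul_assoc]
    exact mul_le_mul_of_nonneg_left (Fn_le_nu hK l z) ht
  · obtain ⟨l, hl⟩ := exists_nu hK z
    exact ⟨l, by rw [Fn_smul, hl, mul_assoc]⟩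

theorem nu_congr (hK : 2 ≤ K) {z w : ℂ} (h : ∀ l, ∃ l', Fn K l z = Fn K l' w)
    (h' : ∀ l, ∃ l', Fn K l w = Fn K l' z) : nu K z = nu K w :=
  le_antisymm ((nu_le_iff hK).2 fun l => by
      obtain ⟨l', e⟩ := h l
      exact e ▸ Fn_le_nu hK l' w)
    ((nu_le_iff hK).2 fun l => by
      obtain ⟨l', e⟩ := h' l
      exact e ▸ Fn_le_nu hK l' z)

theorem Fn_E_mul (l r : ℤ) (z : ℂ) : Fn K l (E K r * z) = Fn K (l - r) z := by
  rw [Fn, Fn, ← E_two, mul_comm _ z, mul_assoc, ← E_add]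
  congr 3
  ring

theorem Fn_conj (l : ℤ) (z : ℂ) : Fn K l ((starRingEnd ℂ) z) = Fn K (-l - 1) z := by
  rw [Fn, Fn, ← Complex.conj_re, map_mul, Complex.conj_conj, conj_E]
  congr 3
  ring

theorem Fn_neg (l : ℤ) (z : ℂ) : Fn K l (-z) = -Fn K l z := by simp [Fn]

theorem Fn_add_K (hK : 2 ≤ K) (l : ℤ) (z : ℂ) : Fn K (l + K) z = -Fn K l z := by
  rw [← Fn_neg, ← neg_one_mul, ← E_K hK, ← sub_add_cancel l K, Fn_E_mul,
    show l - K + K + K = l - K + K - K + 2 * K * 1 by ring, Fn, Fn,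
    ← E_period (K := 2 * K) (by omega) (-(2 * (l - K + K - K) + 1)) (-1)]
  congr 3
  push_cast
  ring

theorem nu_E_mul (hK : 2 ≤ K) (r : ℤ) (z : ℂ) : nu K (E K r * z) = nu K z :=
  nu_congr hK (fun l => ⟨_, Fn_E_mul l r z⟩) fun l => ⟨l + r, by rw [Fn_E_mul, add_sub_cancel_right]⟩

theorem nu_conj (hK : 2 ≤ K) (z : ℂ) : nu K ((starRingEnd ℂ) z) = nu K z :=
  nu_congr hK (fun l => ⟨_, Fn_conj l z⟩) fun l => ⟨-l - 1, by rw [Fn_conj]; congr 1; ring⟩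

theorem nu_neg (hK : 2 ≤ K) (z : ℂ) : nu K (-z) = nu K z := by
  rw [← neg_one_mul, ← E_K hK, nu_E_mul hK]

theorem nu_sub_comm (hK : 2 ≤ K) (z w : ℂ) : nu K (z - w) = nu K (w - z) := by
  rw [← nu_neg hK, neg_sub]

theorem Fn_E_self (i : ℤ) : Fn K i (E K i) = rho K := by
  rw [Fn_E, rho_eq, E_re, show 2 * i - (2 * i + 1) = -1 by ring]; simp

theorem Fn_E_succ (i : ℤ) : Fn K i (E K (i + 1)) = rho K := by
  rw [Fn_E, rho_eq, E_re, show 2 * (i + 1) - (2 * i + 1) = 1 by ring]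

theorem nu_E (hK : 2 ≤ K) (r : ℤ) : nu K (E K r) = 1 :=
  le_antisymm ((nu_le_iff hK).2 fun l => by rw [one_mul]; exact Fn_E_le hK l r)
    ((le_nu_iff hK).2 ⟨r, by rw [one_mul, Fn_E_self]⟩)

theorem nu_one (hK : 2 ≤ K) : nu K 1 = 1 := by simpa using nu_E hK 0

theorem one_lt_nu (hK : 2 ≤ K) {z : ℂ} (h : 1 < ‖z‖) : 1 < nu K z := h.trans_le (norm_le_nu hK z)

theorem nu_continuous (hK : 2 ≤ K) : Continuous (nu K) := by
  have key : ∀ z w, nu K z - nu K w ≤ (rho K)⁻¹ * dist z w := fun z w => by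
    have a := nu_add_le hK w (z - w)
    have b := nu_le_norm hK (z - w)
    rw [add_sub_cancel] at a
    rw [dist_eq_norm, inv_mul_eq_div, le_div_iff₀ (rho_pos hK)]
    nlinarith [rho_pos hK]
  refine (LipschitzWith.of_dist_le' (K := (rho K)⁻¹) fun z w => ?_).continuous
  rw [Real.dist_eq, abs_le]
  have := key w z
  rw [dist_comm] at this
  exact ⟨by linarith, key z w⟩

/-- A ray that starts in the unit ball meets the unit circle. -/
theorem exists_unit (hK : 2 ≤ K) {z w : ℂ} (hz : nu K z ≤ 1) (hw : w ≠ 0) :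
    ∃ t : ℝ, 0 ≤ t ∧ nu K (z + t * w) = 1 := by
  have w0 : 0 < ‖w‖ := norm_pos_iff.2 hw
  have c : Continuous fun t : ℝ => nu K (z + t * w) := (nu_continuous hK).comp (by fun_prop)
  have h2 : 1 ≤ nu K (z + (2 / ‖w‖ : ℝ) * w) := by
    refine le_trans ?_ (norm_le_nu hK _)
    have a := norm_sub_norm_le ((2 / ‖w‖ : ℝ) * w) (-z)
    have b : ‖((2 / ‖w‖ : ℝ) : ℂ) * w‖ = 2 := by
      rw [norm_mul, Complex.norm_real, Real.norm_of_nonneg (by positivity)]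
      field_simp
    rw [b, norm_neg, sub_neg_eq_add, add_comm] at a
    linarith [norm_le_nu hK z]
  obtain ⟨t, ht, e⟩ := intermediate_value_Icc (show (0 : ℝ) ≤ 2 / ‖w‖ by positivity) c.continuousOn
    (show (1 : ℝ) ∈ Set.Icc _ _ from ⟨by simpa using hz, h2⟩)
  exact ⟨t, ht.1, e⟩

/-- The sine of half the angle between consecutive corners. -/
noncomputable def sn (K : ℕ) : ℝ := sin (π / (2 * K))

theorem rho_sn : rho K ^ 2 + sn K ^ 2 = 1 := cos_sq_add_sin_sq _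

theorem sn_pos (hK : 2 ≤ K) : 0 < sn K := by
  have hK' : (2 : ℝ) ≤ K := by exact_mod_cast hK
  refine sin_pos_of_pos_of_lt_pi (by positivity) ?_
  rw [div_lt_iff₀ (by positivity)]
  nlinarith [pi_pos]

theorem sn_le (hK : 3 ≤ K) : sn K ≤ 1 / 2 := by
  have hK' : (3 : ℝ) ≤ K := by exact_mod_cast hK
  rw [← sin_pi_div_six]
  refine sin_le_sin_of_le_of_le_pi_div_two ?_ (by linarith [pi_pos]) ?_
  · have : 0 ≤ π / (2 * K) := by positivity
    linarith [pi_pos]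
  · exact div_le_div_of_nonneg_left pi_pos.le (by norm_num) (by linarith)

theorem rho_ge (hK : 3 ≤ K) : 3 / 4 ≤ rho K ^ 2 := by
  nlinarith [rho_sn (K := K), sn_le hK, sn_pos (K := K) (by omega)]

theorem E_one_re : (E K 1).re = 1 - 2 * sn K ^ 2 := by
  rw [E_re, sn, show ((1 : ℤ) : ℝ) * (π / K) = 2 * (π / (2 * K)) by push_cast; ring, cos_two_mul,
    cos_sq']
  ring

theorem E_one_im : (E K 1).im = 2 * rho K * sn K := by
  rw [E_im, sn, rho, show ((1 : ℤ) : ℝ) * (π / K) = 2 * (π / (2 * K)) by push_cast; ring,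
    sin_two_mul]
  ring

theorem E_half : E (2 * K) 1 = rho K + sn K * Complex.I := by
  have a : (E (2 * K) 1).re = rho K := by rw [E_re, rho_eq]
  have b : (E (2 * K) 1).im = sn K := by simp [E_im, sn]
  apply Complex.ext <;> simp [a, b]

theorem Fn_zero (z : ℂ) : Fn K 0 z = rho K * z.re + sn K * z.im := by
  have : E (2 * K) (-(2 * 0 + 1)) = (starRingEnd ℂ) (E (2 * K) 1) := by rw [conj_E]; norm_num
  rw [Fn, this, E_half]
  simp
  ring

/-- The arithmetic form of a contact representation. -/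
def TModel (K : ℕ) {V : Type} (G : SimpleGraph V) (p : V → ℂ) : Prop :=
  ∀ u v, u ≠ v → 1 ≤ nu K (p u - p v) ∧ (G.Adj u v ↔ nu K (p u - p v) ≤ 1)

theorem contactCoin_iff {k : ℕ} (hk : 3 ≤ k) {a : ℂ} (ha : a ≠ 0) {V : Type}
    (G : SimpleGraph V) : ContactCoin k a G ↔ ∃ p, TModel (KK k) G p := by
  obtain ⟨lam, h0, h⟩ := polygon_rel hk ha
  have hK := two_le_KK hk
  have key : ∀ c c' z, c - c' = lam * z →
      (Disjoint (interior (polygon k a c)) (interior (polygon k a c')) ↔ 1 ≤ nu (KK k) z) ∧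
      ((polygon k a c ∩ polygon k a c').Nonempty ↔ nu (KK k) z ≤ 1) := by
    intro c c' z e
    obtain ⟨h1, h2, -⟩ := h c c' z e
    rw [h1, ← Set.not_disjoint_iff_nonempty_inter, h2, le_nu_iff hK, nu_le_iff hK]
    simp
  constructor
  · rintro ⟨c, hc⟩
    refine ⟨fun v => c v / lam, fun u v huv => ?_⟩
    obtain ⟨h1, h2⟩ := key (c u) (c v) (c u / lam - c v / lam) (by field_simp)
    exact ⟨h1.1 (hc u v huv).1, (hc u v huv).2.trans h2⟩
  · rintro ⟨p, hp⟩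
    refine ⟨fun v => lam * p v, fun u v huv => ?_⟩
    obtain ⟨h1, h2⟩ := key (lam * p u) (lam * p v) (p u - p v) (by ring)
    exact ⟨h1.2 (hp u v huv).1, (hp u v huv).2.trans h2.symm⟩

end Pool.Agent.Lib.MP_0e6856_lc
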