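import Pool.Agent.Lib.MP_0e6856_lc.All.Eng

/-!
The placement of the armatures in the triangular lattice.
-/

namespace Pool.Agent.Lib.MP_0e6856_lc

/-- Armature `j` is mirrored if `e j = -1`, and its flag in column `i` is turned down if
`dn j i`. -/
structure Par.Flip (P : Par) (e : ℤ → ℤ) (dn : ℤ → ℤ → Prop) : Prop where
  sgn : ∀ j, e j = 1 ∨ e j = -1
  top : e (P.n + 1) = 1
  range : ∀ j i, dn j i → 1 ≤ j ∧ j ≤ P.n ∧ i ≠ 0
  clash : ∀ j i i', 0 ≤ j → j ≤ P.n → e j * i = e (j + 1) * i' → i ≠ 0 → -P.M ≤ i → i ≤ P.M →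
    P.Up j i → ¬dn j i → (j = P.n ∨ (P.Up (j + 1) i' ∧ dn (j + 1) i')) → False

theorem Par.exists_flip {P : Par} (_hP : P.Good) {ν : ℤ → Bool} (h : P.Split ν) :
    ∃ e dn, P.Flip e dn := by
  classical
  have key : ∀ c : ℤ, ∃ k, c ≠ 0 → -P.M ≤ c → c ≤ P.M → 1 ≤ k ∧ k ≤ P.n ∧
      ∀ i, (if ν k = true then 1 else -1) * i = c → 0 < i ∧ P.occ k (i - 1) := fun c => by
    by_cases hc : c ≠ 0 ∧ -P.M ≤ c ∧ c ≤ P.M
    · rcases lt_or_gt_of_ne hc.1 with g | g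
      · obtain ⟨k, a, b, o, v⟩ := h (-c - 1) (by omega) (by omega) false
        refine ⟨k, fun _ _ _ => ⟨a, b, fun i e => ?_⟩⟩
        rw [v, if_neg (by simp)] at e
        obtain rfl : i = -c := by omega
        exact ⟨by omega, o⟩
      · obtain ⟨k, a, b, o, v⟩ := h (c - 1) (by omega) (by omega) true
        refine ⟨k, fun _ _ _ => ⟨a, b, fun i e => ?_⟩⟩
        rw [v, if_pos rfl] at e
        obtain rfl : i = c := by omega
        exact ⟨by omega, o⟩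
    · exact ⟨0, fun a b d => absurd ⟨a, b, d⟩ hc⟩
  choose k hk using key
  obtain ⟨e, he⟩ : ∃ e : ℤ → ℤ, ∀ j,
      e j = if 1 ≤ j ∧ j ≤ P.n then (if ν j = true then 1 else -1) else 1 := ⟨_, fun _ => rfl⟩
  have sg : ∀ j, e j = 1 ∨ e j = -1 := fun j => by
    rw [he]
    split_ifs <;> simp
  refine ⟨e, fun j i => 1 ≤ j ∧ j ≤ P.n ∧ i ≠ 0 ∧ k (e j * i) < j, sg,
    by rw [he, if_neg (by omega)], fun j i h => ⟨h.1, h.2.1, h.2.2.1⟩, ?_⟩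
  intro j i i' j0 j1 ee i0 i1 i2 u nd hh
  obtain ⟨a, b, c⟩ := hk (e j * i) (by rcases sg j with g | g <;> rw [g] <;> omega)
    (by rcases sg j with g | g <;> rw [g] <;> omega) (by rcases sg j with g | g <;> rw [g] <;> omega)
  have lt : j < k (e j * i) := by
    by_contra hc
    have e1 : k (e j * i) = j := by
      by_contra hn
      exact nd ⟨by omega, j1, i0, by omega⟩
    rw [e1] at a c
    obtain ⟨c1, c2⟩ := c i (by rw [he j, if_pos (And.intro a j1)])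
    rcases u.2 with g | g | g
    · omega
    · omega
    · exact g c2
  rcases hh with rfl | ⟨-, -, -, -, g⟩
  · omega
  · rw [← ee] at g
    omega

open Classical in
/-- The row of a point after the flags are turned. -/
noncomputable def Par.row (P : Par) (dn : ℤ → ℤ → Prop) (j X y : ℤ) : ℤ :=
  if P.T j < y ∧ dn j (col X) then 2 * P.T j - y else y

variable {P : Par} {e : ℤ → ℤ} {dn : ℤ → ℤ → Prop}

/-- The four kinds of points of an armature, with the row after turning the flags. -/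
theorem Par.Flip.kind (hP : P.Good) (h : P.Flip e dn) {j X y : ℤ} (h0 : 0 ≤ j)
    (a : P.Arm j X y) : ∃ c r, c = col X ∧ r = P.row dn j X y ∧ 6 * c - 2 ≤ X ∧ X ≤ 6 * c + 3 ∧
      (X + y) % 2 = 0 ∧
      ((r = y ∧ -6 * j ≤ y ∧ y ≤ P.T j ∧ X ≤ y + 6 * j ∧ -X ≤ y + 6 * j ∧ (j = 0 ∨ y = P.T j ∨
        y + 6 * j - 2 ≤ X ∨ y + 6 * j - 2 ≤ -X ∨ (X ≤ -6 * j + 6 - y ∧ -X ≤ -6 * j + 6 - y))) ∨
      (-P.M ≤ c ∧ c ≤ P.M ∧ P.Up j c ∧ j ≤ P.n ∧ P.T j < y ∧ X - 6 * c ≤ P.T j + 2 - y ∧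
        6 * c - X ≤ P.T j + 2 - y ∧
        ((¬dn j c ∧ r = y) ∨ (dn j c ∧ 1 ≤ j ∧ c ≠ 0 ∧ r = 2 * P.T j - y))) ∨
      (r = y ∧ -P.M ≤ c ∧ c ≤ P.M ∧ ((1 ≤ j ∧ c = 0) ∨ j = P.n + 1) ∧ y < P.T j ∧
        X - 6 * c ≤ y + 2 - P.T j ∧ 6 * c - X ≤ y + 2 - P.T j) ∨
      (r = y ∧ j = P.n + 1 ∧ P.T j < y ∧ y ≤ P.T j + 2)) := by
  obtain ⟨g0, g1, g2, g3, g4, g5⟩ := hP
  have hT : P.T j = 2 * P.t + 4 * j := rfl
  have low : y ≤ P.T j → P.row dn j X y = y := fun g => if_neg fun c => by omega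
  have top : j = P.n + 1 → P.row dn j X y = y := fun g => if_neg fun c => by
    have := h.range _ _ c.2
    omega
  refine ⟨_, _, rfl, rfl, by unfold col; omega, by unfold col; omega, ?_⟩
  rcases a with a | ⟨p, a | ⟨a1, a2, a3, a4, a5⟩ | ⟨a1, a2, a3, a4, a5⟩ | a | a⟩
  · unfold Vee at a
    exact ⟨a.1, Or.inl ⟨low a.2.2.1, by omega⟩⟩
  · exact ⟨p, Or.inl ⟨low a.1.le, by omega⟩⟩
  · refine ⟨p, Or.inr (Or.inl ⟨a1, a2, a3, a3.1, a4, a5.1, a5.2, ?_⟩)⟩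
    by_cases d : dn j (col X)
    · exact Or.inr ⟨d, (h.range _ _ d).1, (h.range _ _ d).2.2, if_pos ⟨a4, d⟩⟩
    · exact Or.inl ⟨d, if_neg fun c => d c.2⟩
  · exact ⟨p, Or.inr (Or.inr (Or.inl ⟨low a4.le, a1, a2, a3, a4, a5⟩))⟩
  · exact ⟨p, Or.inr (Or.inr (Or.inr ⟨top a.1, a.1, by omega⟩))⟩
  · exact ⟨p, Or.inr (Or.inr (Or.inr ⟨top a.1, a.1, by omega⟩))⟩

theorem refl_pl {T X y X' y' : ℤ} (a : T < y) (b : y ≤ T + 2)
    (h : y' = T ∨ X + 3 ≤ X' ∨ X' + 3 ≤ X ∨ y' + 4 ≤ T) :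
    (ladj X y X' y' ↔ ladj X (2 * T - y) X' y') ∧ (X = X' → 2 * T - y ≠ y') := by
  unfold ladj
  rcases h with h | h | h | h <;> refine ⟨⟨fun l => ?_, fun l => ?_⟩, by omega⟩ <;> omega

theorem ladj_symm_pl {X y X' y' : ℤ} : ladj X y X' y' ↔ ladj X' y' X y := by
  unfold ladj
  constructor <;> intro l <;> omega

theorem turned_pl (hP : P.Good) (h : P.Flip e dn) {j X y X' y' : ℤ} (h0 : 0 ≤ j)
    (a : P.Arm j X y) (a' : P.Arm j X' y') (t : P.row dn j X y ≠ y) (t' : P.row dn j X' y' = y') :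
    P.row dn j X y = 2 * P.T j - y ∧ P.T j < y ∧ y ≤ P.T j + 2 ∧
      (y' = P.T j ∨ X + 3 ≤ X' ∨ X' + 3 ≤ X ∨ y' + 4 ≤ P.T j) := by
  obtain ⟨c, r, -, hr, -, -, -, b⟩ := h.kind hP h0 a
  obtain ⟨c', r', -, hr', -, -, -, d⟩ := h.kind hP h0 a'
  obtain ⟨-, g1, -, -, g4, -⟩ := hP
  have hT : P.T j = 2 * P.t + 4 * j := rfl
  rw [← hr] at t ⊢
  rw [← hr'] at t'
  rcases b with b | ⟨b4, b5, -, b6, b7, b8, b9, ⟨-, b⟩ | ⟨x, b1, b2, b3⟩⟩ | b | b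
  · exact absurd b.1 t
  · exact absurd b t
  · refine ⟨b3, b7, by omega, ?_⟩
    rcases d with ⟨-, d1, d2, d3, d4, d | d | d | d | d⟩ |
      ⟨d4, d5, -, d6, d7, d8, d9, ⟨x', d⟩ | ⟨x', d⟩⟩ | d | d
    all_goals try omega
    have : c ≠ c' := fun e => x' (e ▸ x)
    omega
  · exact absurd b.1 t
  · exact absurd b.1 t

theorem same_pl (hP : P.Good) (h : P.Flip e dn) {j X y X' y' : ℤ} (h0 : 0 ≤ j)
    (a : P.Arm j X y) (a' : P.Arm j X' y') :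
    (ladj X y X' y' ↔ ladj X (P.row dn j X y) X' (P.row dn j X' y')) ∧
      (X = X' → P.row dn j X y = P.row dn j X' y' → y = y') := by
  have two : ∀ X y, P.row dn j X y ≠ y → P.row dn j X y = 2 * P.T j - y := fun X y t => by
    unfold Par.row at *
    split_ifs at * with c
    · rfl
    · exact absurd rfl t
  by_cases t : P.row dn j X y = y <;> by_cases t' : P.row dn j X' y' = y'
  · rw [t, t']
    exact ⟨Iff.rfl, fun _ e => e⟩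
  · obtain ⟨b1, b2, b3, b4⟩ := turned_pl hP h h0 a' a t' t
    obtain ⟨c1, c2⟩ := refl_pl b2 b3 b4
    rw [t, b1]
    exact ⟨ladj_symm_pl.trans (c1.trans ladj_symm_pl), fun e e' => absurd e'.symm (c2 e.symm)⟩
  · obtain ⟨b1, b2, b3, b4⟩ := turned_pl hP h h0 a a' t t'
    obtain ⟨c1, c2⟩ := refl_pl b2 b3 b4
    rw [t', b1]
    exact ⟨c1, fun e e' => absurd e' (c2 e)⟩
  · rw [two _ _ t, two _ _ t']
    unfold ladj
    refine ⟨⟨fun l => ?_, fun l => ?_⟩, by omega⟩ <;> omega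

theorem sgn_pl (h : P.Flip e dn) (j X y X' y' : ℤ) :
    ladj (e j * X) y (e j * X') y' ↔ ladj X y X' y' := by
  unfold ladj
  rcases h.sgn j with g | g <;> rw [g] <;> omega

theorem Par.Flip.edge (hP : P.Good) (h : P.Flip e dn) {j X y X' y' : ℤ} (h0 : 0 ≤ j)
    (_h1 : j ≤ P.n + 1) (a : P.Arm j X y) (a' : P.Arm j X' y') (l : ladj X y X' y') :
    ladj (e j * X) (P.row dn j X y) (e j * X') (P.row dn j X' y') :=
  (sgn_pl h ..).2 ((same_pl hP h h0 a a').1.1 l)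

theorem pivot_pl (hP : P.Good) {j y : ℤ} (h0 : 0 ≤ j) (h1 : j ≤ P.n)
    (hy : y = -6 * j ∨ y = P.T j + 2) : P.Arm j 0 y ∧ P.Arm (j + 1) 0 y := by
  obtain ⟨g0, g1, g2, g3, g4, g5⟩ := hP
  have hT : P.T j = 2 * P.t + 4 * j := rfl
  have hT' : P.T (j + 1) = 2 * P.t + 4 * (j + 1) := rfl
  have c : col 0 = 0 := rfl
  rcases hy with rfl | rfl
  · exact ⟨Or.inl (by unfold Vee; omega), Or.inl (by unfold Vee; omega)⟩
  · exact ⟨Or.inr ⟨by omega, Or.inr (Or.inl ⟨by omega, by omega, ⟨h1, Or.inl c.le⟩, by omega⟩)⟩,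
      Or.inr ⟨by omega, Or.inr (Or.inr (Or.inl ⟨by omega, by omega, Or.inl ⟨by omega, c⟩,
        by omega⟩))⟩⟩

theorem cross_pl (hP : P.Good) (h : P.Flip e dn) {j X y j' X' y' : ℤ} (h0 : 0 ≤ j) (hj : j < j')
    (h1' : j' ≤ P.n + 1) (a : P.Arm j X y) (a' : P.Arm j' X' y')
    (l : (e j * X = e j' * X' ∧ P.row dn j X y = P.row dn j' X' y') ∨
      ladj (e j * X) (P.row dn j X y) (e j' * X') (P.row dn j' X' y')) :
    j' = j + 1 ∧ ((X = X' ∧ y = y') ∨ ladj X y X' y') ∧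
      ((X = 0 ∧ (y = -6 * j ∨ y = P.T j + 2)) ∨ (X' = 0 ∧ (y' = -6 * j ∨ y' = P.T j + 2))) := by
  obtain ⟨c, r, -, hr, -, -, b3, b⟩ := h.kind hP h0 a
  obtain ⟨c', r', -, hr', -, -, d3, d⟩ := h.kind hP (by omega) a'
  have cl := h.clash j c c' h0 (by omega)
  obtain ⟨-, g1, -, -, g4, -⟩ := hP
  have hT : P.T j = 2 * P.t + 4 * j := rfl
  have hT' : P.T j' = 2 * P.t + 4 * j' := rfl
  rw [← hr, ← hr'] at l
  clear hr hr' a a'
  have s := h.sgn j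
  have s' := h.sgn j'
  obtain ⟨U, hU⟩ : ∃ U, U = e j * X := ⟨_, rfl⟩
  obtain ⟨U', hU'⟩ : ∃ U, U = e j' * X' := ⟨_, rfl⟩
  rw [← hU, ← hU'] at l
  obtain ⟨l1, l2, l3, l4, l5, l6⟩ : U - U' + (r - r') ≤ 2 ∧ U - U' + (r' - r) ≤ 2 ∧
      U' - U + (r - r') ≤ 2 ∧ U' - U + (r' - r) ≤ 2 ∧ r - r' ≤ 1 ∧ r' - r ≤ 1 := by
    unfold ladj at l
    clear b d
    omega
  clear l
  have u : U = X ∨ U = -X := by rcases s with s | s <;> rw [hU, s] <;> simp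
  have u' : U' = X' ∨ U' = -X' := by rcases s' with s | s <;> rw [hU', s] <;> simp
  obtain ⟨p1, p2, p3⟩ : X ≤ r + 6 * j ∧ -X ≤ r + 6 * j ∧ r ≤ P.T j + 2 := by
    clear d
    rcases b with ⟨b1, b2, b4, b5, b6, -⟩ | ⟨b4, b5, -, b6, b7, b8, b9, ⟨-, b⟩ | ⟨-, b⟩⟩ | b | b <;>
      omega
  have flag : r' < P.T j' → ∀ c', X' - 6 * c' ≤ r' + 2 - P.T j' → 6 * c' - X' ≤ r' + 2 - P.T j' →
      j' = j + 1 ∧ -P.M ≤ c ∧ c ≤ P.M ∧ P.Up j c ∧ ¬dn j c ∧ r = y ∧ X - 6 * c ≤ P.T j + 2 - y ∧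
        6 * c - X ≤ P.T j + 2 - y ∧ e j * c = e j' * c' := fun q1 c' q2 q3 => by
    clear d
    rcases b with ⟨b1, b2, b4, -⟩ | ⟨b4, b5, b0, b6, b7, b8, b9, ⟨x, b⟩ | ⟨-, b⟩⟩ | b | b
    · omega
    · refine ⟨by omega, b4, b5, b0, x, b, b8, b9, ?_⟩
      rcases s with s | s <;> rcases s' with s' | s' <;> rw [s] at hU ⊢ <;> rw [s'] at hU' ⊢ <;>
        omega
    · omega
    · omega
    · omega
  rcases d with ⟨d0, d1, d2, d4, d5, d | d | d | d | d⟩ |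
    ⟨d4, d5, d0, d6, d7, d8, d9, ⟨-, d⟩ | ⟨x', d1, d2, d⟩⟩ | ⟨d0, d1, d2, d4, d5, d6, d7⟩ | d
  · omega
  · clear b
    omega
  · clear b
    omega
  · clear b
    omega
  · have ry : r = y := by
      rcases b with b | ⟨b4, b5, -, b6, b7, b8, b9, ⟨-, b⟩ | ⟨-, b⟩⟩ | b | b
      exacts [b.1, b, by omega, b.1, b.1]
    clear b
    obtain rfl : j' = j + 1 := by omega
    unfold ladj
    refine ⟨rfl, ?_, ?_⟩ <;> omega
  · clear b
    omega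
  · obtain ⟨rfl, k1, k2, k3, k4, k5, k6, k7, k8⟩ := flag (by omega) c' (by omega) (by omega)
    refine (cl k8 (fun z => d2 ?_) k1 k2 k3 k4 (Or.inr ⟨d0, x'⟩)).elim
    rcases s' with s' | s' <;> rw [s', z] at k8 <;> omega
  · obtain ⟨rfl, k1, k2, k3, k4, k5, k6, k7, k8⟩ := flag (by omega) c' (by omega) (by omega)
    clear b
    by_cases z : c = 0
    · obtain rfl : c' = 0 := by rcases s' with s' | s' <;> rw [s', z] at k8 <;> omega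
      unfold ladj
      refine ⟨rfl, ?_, ?_⟩ <;> omega
    · refine (cl k8 z k1 k2 k3 k4 (Or.inl ?_)).elim
      rcases d4 with ⟨-, rfl⟩ | d4
      · rcases s with s | s <;> rw [s] at k8 <;> omega
      · omega
  · clear b
    omega

theorem Par.Edge.symm_pl {u v : Nm} (h : P.Edge u v) : P.Edge v u := by
  obtain ⟨j, X, y, X', y', a, b, c, d, e⟩ := h
  exact ⟨j, X', y', X, y, b, a, ladj_symm_pl.1 c, e, d⟩

theorem lt_pl (hP : P.Good) (h : P.Flip e dn) {j X y j' X' y' : ℤ} (h0 : 0 ≤ j) (hj : j < j')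
    (h1' : j' ≤ P.n + 1) (a : P.Arm j X y) (a' : P.Arm j' X' y')
    (l : (e j * X = e j' * X' ∧ P.row dn j X y = P.row dn j' X' y') ∨
      ladj (e j * X) (P.row dn j X y) (e j' * X') (P.row dn j' X' y')) :
    P.nm j X y = P.nm j' X' y' ∨ P.Edge (P.nm j X y) (P.nm j' X' y') := by
  obtain ⟨rfl, b, c⟩ := cross_pl hP h h0 hj h1' a a' l
  have ax : ∀ y, P.nm j 0 y = P.nm (j + 1) 0 y := fun y => by
    rw [Par.nm, Par.nm, if_pos h0, if_pos (by omega : 0 ≤ j + 1), if_pos rfl, if_pos rfl]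
  rcases c with ⟨rfl, c⟩ | ⟨rfl, c⟩
  · rcases b with ⟨rfl, rfl⟩ | b
    · exact Or.inl (ax _)
    · exact Or.inr ⟨j + 1, _, _, _, _, Or.inl ⟨by omega, h1', (pivot_pl hP h0 (by omega) c).2⟩,
        Or.inl ⟨by omega, h1', a'⟩, b, ax _, rfl⟩
  · rcases b with ⟨rfl, rfl⟩ | b
    · exact Or.inl (ax _)
    · exact Or.inr ⟨j, _, _, _, _, Or.inl ⟨h0, by omega, a⟩,
        Or.inl ⟨h0, by omega, (pivot_pl hP h0 (by omega) c).1⟩, b, rfl, (ax _).symm⟩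

theorem Par.Flip.far (hP : P.Good) (h : P.Flip e dn) {j X y j' X' y' : ℤ} (h0 : 0 ≤ j)
    (h1 : j ≤ P.n + 1) (h0' : 0 ≤ j') (h1' : j' ≤ P.n + 1) (a : P.Arm j X y) (a' : P.Arm j' X' y')
    (l : (e j * X = e j' * X' ∧ P.row dn j X y = P.row dn j' X' y') ∨
      ladj (e j * X) (P.row dn j X y) (e j' * X') (P.row dn j' X' y')) :
    P.nm j X y = P.nm j' X' y' ∨ P.Edge (P.nm j X y) (P.nm j' X' y') := by
  rcases lt_trichotomy j j' with g | rfl | g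
  · exact lt_pl hP h h0 g h1' a a' l
  · obtain ⟨s1, s2⟩ := same_pl hP h h0 a a'
    rcases l with ⟨l1, l2⟩ | l
    · obtain rfl : X = X' := by rcases h.sgn j with g | g <;> rw [g] at l1 <;> omega
      exact Or.inl (by rw [s2 rfl l2])
    · exact Or.inr ⟨j, _, _, _, _, Or.inl ⟨h0, h1, a⟩, Or.inl ⟨h0, h1, a'⟩,
        s1.2 ((sgn_pl h ..).1 l), rfl, rfl⟩
  · exact (lt_pl hP h h0' g h1 a' a (l.imp (fun l => ⟨l.1.symm, l.2.symm⟩) ladj_symm_pl.1)).imp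
      Eq.symm Par.Edge.symm_pl

theorem Par.Flip.low (hP : P.Good) (h : P.Flip e dn) {j X y : ℤ} (h0 : 0 ≤ j)
    (h1 : j ≤ P.n + 1) (a : P.Arm j X y) :
    (e j * X + P.row dn j X y) % 2 = 0 ∧ (P.row dn j X y ≤ P.T (P.n + 1) + 1 ∨
      (j = P.n + 1 ∧ y = P.T (P.n + 1) + 2 ∧ P.row dn j X y = y ∧
        (X = 2 * P.g ∨ X = -(2 * P.g) ∨ X = 2 * P.g + 2 * P.N ∨ X = -(2 * P.g + 2 * P.N)))) := by
  obtain ⟨c, r, -, hr, b1, b2, b3, b⟩ := h.kind hP h0 a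
  have hT : P.T j = 2 * P.t + 4 * j := rfl
  have hT' : P.T (P.n + 1) = 2 * P.t + 4 * (P.n + 1) := rfl
  rw [← hr]
  refine ⟨?_, ?_⟩
  · rcases h.sgn j with g | g <;> rw [g] <;>
      rcases b with b | ⟨b4, b5, -, b6, b7, b8, b9, ⟨-, b⟩ | ⟨-, b⟩⟩ | b | b <;> omega
  · rcases b with b | ⟨b4, b5, -, b6, b7, b8, b9, ⟨-, b⟩ | ⟨-, b⟩⟩ | b | b
    · omega
    · omega
    · omega
    · omega
    · rcases a with a | ⟨p, a | ⟨a1, a2, a3, a4, a5⟩ | ⟨a1, a2, a3, a4, a5⟩ | a | a⟩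
      · have := a.2.2.1
        omega
      · omega
      · have := a3.1
        omega
      · omega
      · omega
      · omega

end Pool.Agent.Lib.MP_0e6856_lc
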