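import Pool.Agent.Lib.MP_0e6856_lc.All.Descent

/-!
A placement of the engine gives an assignment that splits every clause.
-/

namespace Pool.Agent.Lib.MP_0e6856_lc

variable {K : ℕ}

theorem arm_up_snd {P : Par} {j i X y : ℤ} (h1 : -P.M ≤ i) (h2 : i ≤ P.M) (h : P.Up j i)
    (p : (X + y) % 2 = 0) (a : P.T j < y) (b : X - 6 * i ≤ P.T j + 2 - y)
    (c : 6 * i - X ≤ P.T j + 2 - y) : P.Arm j X y := by
  obtain rfl : i = col X := by unfold col; omega
  exact Or.inr ⟨p, Or.inr (Or.inl ⟨h1, h2, h, a, b, c⟩)⟩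

theorem arm_dn_snd {P : Par} {j i X y : ℤ} (h1 : -P.M ≤ i) (h2 : i ≤ P.M) (h : P.Dn j i)
    (p : (X + y) % 2 = 0) (a : y < P.T j) (b : X - 6 * i ≤ y + 2 - P.T j)
    (c : 6 * i - X ≤ y + 2 - P.T j) : P.Arm j X y := by
  obtain rfl : i = col X := by unfold col; omega
  exact Or.inr ⟨p, Or.inr (Or.inr (Or.inl ⟨h1, h2, h, a, b, c⟩))⟩

theorem arm_row_snd {P : Par} {j X : ℤ} (p : X % 2 = 0) (b : X ≤ P.T j + 6 * j)
    (c : -X ≤ P.T j + 6 * j) : P.Arm j X (P.T j) :=
  Or.inr ⟨by unfold Par.T; omega, Or.inl ⟨rfl, b, c⟩⟩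

theorem sound (hK : 3 ≤ K) {P : Par} (hP : P.Good) (p : Nm → ℂ)
    (h1 : ∀ j X y j' X' y', P.S j X y → P.S j' X' y' → P.nm j X y ≠ P.nm j' X' y' →
      1 ≤ nu K (p (P.nm j X y) - p (P.nm j' X' y')))
    (h2 : ∀ u v, P.Edge u v → nu K (p u - p v) = 1) : ∃ ν, P.Split ν := by
  classical
  have hK2 : 2 ≤ K := by omega
  obtain ⟨g0, g1, g2, g3, g4, g5⟩ := id hP
  have hT : ∀ j, P.T j = 2 * P.t + 4 * j := fun _ => rfl
  obtain ⟨q, hq⟩ : ∃ q : ℤ → ℤ → ℤ → ℂ, ∀ j X y, q j X y = p (P.nm j X y) := ⟨_, fun _ _ _ => rfl⟩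
  have emb : ∀ j, Emb K (P.S j) (q j) := fun j X y X' y' s s' => by
    rw [hq, hq]
    exact ⟨fun ne => h1 _ _ _ _ _ _ s s' fun e => ne (Par.nm_inj hP s s' e),
      fun l => h2 _ _ ⟨j, X, y, X', y', s, s', l, rfl, rfl⟩⟩
  have arm : ∀ j, 0 ≤ j → j ≤ P.n + 1 → Emb K (P.Arm j) (q j) := fun j a b X y X' y' s s' =>
    emb j X y X' y' (Or.inl ⟨a, b, s⟩) (Or.inl ⟨a, b, s'⟩)
  have strut : ∀ j, j = -2 ∨ j = -3 → Emb K (Strut P.N) (q j) := fun j a X y X' y' s s' =>
    emb j X y X' y' (Or.inr (Or.inr ⟨a, s⟩)) (Or.inr (Or.inr ⟨a, s'⟩))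
  have same : ∀ {j X y j' X' y'}, P.nm j X y = P.nm j' X' y' → q j X y = q j' X' y' :=
    fun e => by rw [hq, hq, e]
  have nmA : ∀ j X y, 0 ≤ j → X ≠ 0 → P.nm j X y = (j, X, y) := fun j X y a b => by
    rw [Par.nm, if_pos a, if_neg b]
  have axis : ∀ j j' y, 0 ≤ j → 0 ≤ j' → q j 0 y = q j' 0 y := fun j j' y a b =>
    same (by rw [Par.nm, Par.nm, if_pos a, if_pos b, if_pos rfl, if_pos rfl])
  obtain ⟨o, a, b, t, hv⟩ := vee_rigid hK (arm (P.n + 1) (by omega) le_rfl) (fill := P.n + 1 = 0)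
    (A := -6 * (P.n + 1)) (T := P.T (P.n + 1)) (by omega) (by rw [hT]; omega) fun X y h => Or.inl h
  have out := arm_rigid hK hP (Or.inr rfl) (arm (P.n + 1) (by omega) le_rfl) hv
  have tip : ∀ X, (X = 2 * P.g ∨ X = -(2 * P.g) ∨ X = 2 * P.g + 2 * P.N ∨
      X = -(2 * P.g + 2 * P.N)) → ∀ {j X' y'}, P.nm j X' y' = (P.n + 1, X, P.T (P.n + 1) + 2) →
      q j X' y' = lat o a (2 * b - a) X (P.T (P.n + 1) + 2) := fun X h j X' y' e => by
    rw [← out X _ (Or.inr ⟨by rw [hT]; omega, Or.inr (Or.inr (Or.inr (Or.inr ⟨rfl, rfl, h⟩)))⟩)]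
    exact same (by rw [e, nmA _ _ _ (by omega) (by omega)])
  have r : Root K a := by
    obtain ⟨u, hu, eu⟩ := strut_rigid hK (by omega) (strut (-2) (Or.inl rfl))
    obtain ⟨u', hu', eu'⟩ := strut_rigid hK (by omega) (strut (-3) (Or.inr rfl))
    have n1 : 4 * P.N ≠ 0 := by omega
    have w0 := tip (-(2 * P.g)) (by omega) (j := -1) (X' := 2 * 0) (y' := 0) (by simp [Par.nm])
    have w1 := tip (2 * P.g) (by omega) (j := -1) (X' := 2 * (2 * P.N + 6)) (y' := 0) (by
      rw [Par.nm, if_neg (by omega), if_pos rfl, if_neg (by omega), if_pos (by omega)])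
    have w2 := tip (-(2 * P.g + 2 * P.N)) (by omega) (j := -2) (X' := 0) (y' := 0)
      (by simp [Par.nm])
    have w3 := tip (2 * P.g + 2 * P.N) (by omega) (j := -3) (X' := 0) (y' := 0) (by simp [Par.nm])
    have w4 : q (-2) (4 * P.N) 0 = q (-1) (2 * P.N) 0 := same (by
      rw [Par.nm, Par.nm, if_neg (by omega), if_neg (by omega), if_neg (by omega), if_pos rfl,
        if_neg n1, if_neg (by omega), if_pos rfl, if_neg (by omega), if_neg (by omega)])
    have w5 : q (-3) (4 * P.N) 0 = q (-1) (2 * (P.N + 6)) 0 := same (by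
      rw [Par.nm, Par.nm, if_neg (by omega), if_neg (by omega), if_neg (by omega),
        if_neg (by omega), if_neg n1, if_neg (by omega), if_pos rfl, if_neg (by omega),
        if_neg (by omega), show 2 * (P.N + 6) = 2 * P.N + 12 by ring])
    refine gadget_root hK2 (N := P.N) (g := P.g) (by omega) g3 t.1 hu hu'
      (w := fun i => q (-1) (2 * i) 0) (fun i i0 i1 => ((emb (-1) _ _ _ _
        (Or.inr (Or.inl ⟨rfl, rfl, by omega, by omega, by omega⟩))
        (Or.inr (Or.inl ⟨rfl, rfl, by omega, by omega, by omega⟩))).2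
        (Or.inl ⟨rfl, Or.inl (by ring)⟩)).le) ?_ ?_ ?_
    · rw [w0, w1, lat, lat]
      push_cast
      ring
    · rw [← eu, w4, w0, w2, lat, lat]
      push_cast
      ring
    · rw [← eu', w5, w1, w3, lat, lat]
      push_cast
      ring
  have l0 : ∀ a' y, lat o a' (2 * b - a) 0 y = lat o a (2 * b - a) 0 y := fun a' y => by simp [lat]
  have fix : ∀ j, j ≤ P.n + 1 → 0 ≤ j → P.Fixed j (q j) o a (2 * b - a) := by
    intro j hj
    induction j, hj using Int.leInductionDown with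
    | base =>
      refine fun _ => ⟨a, Or.inl rfl, fun X y h => out X y ?_⟩
      rcases h with h | ⟨c, rfl, d, e⟩
      · exact Or.inl h
      · exact arm_row_snd c d e
    | pred j hj ih =>
      intro j0
      obtain ⟨a', ha, f⟩ := ih (by omega)
      have hj' := hT j
      refine descent hK hP j0 (by omega) (arm _ j0 (by omega)) r t ?_ ?_
      · rw [axis _ j _ j0 (by omega), f _ _ (Or.inl (by unfold Vee; omega)), l0]
      · have := flag_tip hK (arm j (by omega) hj) (o := o) t ha (c := 0) (T := P.T j) (Or.inr rfl)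
          (arm_row_snd (by omega) (by omega) (by omega))
          (arm_row_snd (by omega) (by omega) (by omega))
          (arm_dn_snd (i := 0) (by omega) g1 (Or.inl ⟨by omega, rfl⟩) (by omega) (by omega)
            (by omega) (by omega))
          (arm_dn_snd (i := 0) (by omega) g1 (Or.inl ⟨by omega, rfl⟩) (by omega) (by omega)
            (by omega) (by omega))
          (arm_dn_snd (i := 0) (by omega) g1 (Or.inl ⟨by omega, rfl⟩) (by omega) (by omega)
            (by omega) (by omega))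
          (f _ _ (Or.inr (by omega))) (f _ _ (Or.inr (by omega)))
        rw [axis _ j _ j0 (by omega), show P.T (j - 1) + 2 = P.T j + 2 * -1 by rw [hT]; omega,
          show P.T (j - 1) + 6 = P.T j + 2 by rw [hT]; omega, ← l0 a', ← l0 a' (P.T j + 2)]
        exact this.symm.imp_left fun e => e.trans (by rw [show P.T j + 2 * -1 = P.T j - 2 by ring])
  choose! f hf hf' using fix
  refine ⟨fun j => decide (f j = a), fun i i0 i1 σ => ?_⟩
  by_contra hc
  obtain ⟨c, hc0, hσ⟩ : ∃ c : ℤ, (c = i + 1 ∨ c = -(i + 1)) ∧ (σ = true ↔ c = i + 1) := by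
    cases σ
    · exact ⟨-(i + 1), Or.inr rfl, by simp; omega⟩
    · exact ⟨i + 1, Or.inl rfl, by simp⟩
  obtain ⟨d, hd, hd'⟩ : ∃ d : ℤ → ℤ, (∀ j, (f j = a ∧ d j = c) ∨ (f j ≠ a ∧ d j = -c)) ∧
      ∀ j, j ≤ P.n + 1 → 0 ≤ j → ∀ y,
        lat o (f j) (2 * b - a) (6 * d j) y = lat o a (2 * b - a) (6 * c) y := by
    refine ⟨fun j => if f j = a then c else -c, fun j => by by_cases e : f j = a <;> simp [e],
      fun j j1 j0 y => ?_⟩
    by_cases e : f j = a
    · simp only [e, if_true]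
    · simp only [if_neg e]
      rw [(hf j j1 j0).resolve_left e, lat, lat]
      push_cast
      ring
  have up : ∀ j, j ≤ P.n → 0 ≤ j → P.Up j (d j) := fun j j1 j0 => by
    refine ⟨j1, ?_⟩
    by_contra hn
    simp only [not_or, not_not] at hn
    obtain ⟨n1, n2, n3⟩ := hn
    have e : d j - 1 = i := by have := hd j; omega
    refine hc ⟨j, by omega, j1, e ▸ n3, ?_⟩
    rw [Bool.eq_iff_iff, hσ, decide_eq_true_eq]
    rcases hd j with ⟨x, y⟩ | ⟨x, y⟩
    · exact iff_of_true x (by omega)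
    · exact iff_of_false x (by omega)
  have dc : ∀ j, d j ≠ 0 ∧ -P.M ≤ d j ∧ d j ≤ P.M := fun j => by have := hd j; omega
  have top : ∀ j, j ≤ P.n → 0 ≤ j → P.Arm j (6 * d j) (P.T j + 2 * 1) := fun j j1 j0 =>
    arm_up_snd (dc j).2.1 (dc j).2.2 (up j j1 j0) (by rw [hT]; omega) (by omega) (by omega)
      (by omega)
  have clash : ∀ j X y j' X' y', 0 ≤ j → j < j' → j' ≤ P.n + 1 → X ≠ 0 → X' ≠ 0 → P.Arm j X y →
      P.Arm j' X' y' → q j X y ≠ q j' X' y' := fun j X y j' X' y' a1 a2 a3 a4 a5 s s' e => by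
    have := h1 j X y j' X' y' (Or.inl ⟨a1, by omega, s⟩) (Or.inl ⟨by omega, a3, s'⟩) (by
      rw [nmA _ _ _ a1 a4, nmA _ _ _ (by omega) a5]
      exact fun e => a2.ne (congrArg Prod.fst e))
    rw [← hq, ← hq, e, sub_self, nu_zero_tri hK2] at this
    linarith
  have all : ∀ j, 0 ≤ j → j ≤ P.n →
      q j (6 * d j) (P.T j + 2 * 1) = lat o a (2 * b - a) (6 * c) (P.T j + 2 * 1) := by
    intro j j0
    induction j, j0 using Int.leInduction with
    | base =>
      intro j1
      rw [← hd' 0 (by omega) le_rfl]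
      exact arm_rigid hK hP (Or.inl rfl) (arm 0 le_rfl (by omega))
        (fun X y h => hf' 0 (by omega) le_rfl X y (Or.inl h)) _ _ (top 0 j1 le_rfl)
    | succ j j0 ih =>
      intro j1
      obtain ⟨d0, d1, d2⟩ := dc (j + 1)
      have hj := hT (j + 1)
      have u := up (j + 1) j1 (by omega)
      have k := hf' (j + 1) (by omega) (by omega)
      rcases flag_tip hK (arm (j + 1) (by omega) (by omega)) (o := o) t
        (hf (j + 1) (by omega) (by omega)) (c := 6 * d (j + 1)) (T := P.T (j + 1)) (Or.inl rfl)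
        (arm_row_snd (by omega) (by omega) (by omega))
        (arm_row_snd (by omega) (by omega) (by omega))
        (arm_up_snd d1 d2 u (by omega) (by omega) (by omega) (by omega))
        (arm_up_snd d1 d2 u (by omega) (by omega) (by omega) (by omega))
        (top _ j1 (by omega)) (k _ _ (Or.inr (by omega))) (k _ _ (Or.inr (by omega))) with e | e
      · rw [e, hd' _ (by omega) (by omega), mul_one]
      · refine absurd ?_ (clash j _ _ (j + 1) _ _ j0 (by omega) (by omega) (by have := dc j; omega)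
          (by omega) (top j (by omega) j0) (top _ j1 (by omega)))
        rw [e, hd' _ (by omega) (by omega), ih (by omega), hj, hT]
        congr 1
        ring
  have last : P.Arm (P.n + 1) (6 * c) (P.T P.n + 2 * 1) := by
    have := hT P.n
    have := hT (P.n + 1)
    exact arm_dn_snd (i := c) (by omega) (by omega) (Or.inr rfl) (by omega) (by omega) (by omega)
      (by omega)
  exact clash P.n _ _ (P.n + 1) _ _ (by omega) (by omega) le_rfl (by have := dc P.n; omega)
    (by omega) (top _ le_rfl (by omega)) last (by rw [all _ (by omega) le_rfl, out _ _ last])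

end Pool.Agent.Lib.MP_0e6856_lc
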