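import Pool.Agent.Lib.MP_0e6856_lc.All.Norm

/-!
Unit triangles of the polygonal norm.
-/

namespace Pool.Agent.Lib.MP_0e6856_lc

open Real

variable {K : ℕ}

/-- The points `0`, `a`, `b` form a unit triangle. -/
def Tri (K : ℕ) (a b : ℂ) : Prop := nu K a = 1 ∧ nu K b = 1 ∧ nu K (b - a) = 1

theorem Tri.flip (hK : 2 ≤ K) {a b : ℂ} (h : Tri K a b) : Tri K a (a - b) :=
  ⟨h.1, by rw [nu_sub_comm hK, h.2.2], by rw [sub_sub_cancel_left, nu_neg hK, h.2.1]⟩

theorem side_tri (hK : 2 ≤ K) {z : ℂ} (hz : nu K z ≤ 1) (ez : Fn K 0 z = rho K) :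
    ∃ τ : ℝ, 0 ≤ τ ∧ τ ≤ 1 ∧ z = 1 + τ * (E K 1 - 1) := by
  have r := rho_pos hK
  have s := sn_pos hK
  have rs := rho_sn (K := K)
  have n : z.re ^ 2 + z.im ^ 2 ≤ 1 := by
    have := pow_le_one₀ (n := 2) (norm_nonneg z) ((norm_le_nu hK z).trans hz)
    rwa [Complex.sq_norm, Complex.normSq_apply, ← sq, ← sq] at this
  rw [Fn_zero] at ez
  obtain ⟨τ, hτ⟩ : ∃ τ, z.im = τ * (2 * rho K * sn K) :=
    ⟨_, (div_mul_cancel₀ _ (by positivity)).symm⟩
  have e : z.re = 1 - τ * (2 * sn K ^ 2) := by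
    refine mul_left_cancel₀ r.ne' ?_
    rw [hτ] at ez
    linarith
  have k : τ * (τ - 1) ≤ 0 := by
    rw [e, hτ] at n
    refine le_of_mul_le_mul_left (a := 4 * sn K ^ 2) ?_ (by positivity)
    have : (τ * (2 * rho K * sn K)) ^ 2 = 4 * sn K ^ 2 * τ ^ 2 * (1 - sn K ^ 2) := by
      rw [← rs]; ring
    nlinarith
  refine ⟨τ, by nlinarith, by nlinarith, ?_⟩
  apply Complex.ext <;> simp [E_one_re, E_one_im, e, hτ, sub_eq_add_neg]

theorem side_le_tri (hK : 3 ≤ K) : nu K (E K 1 - 1) ≤ 1 := by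
  have h2 : 2 ≤ K := by omega
  rcases hK.eq_or_lt with rfl | h
  · have : E 3 1 - 1 = E 3 2 := by
      have a := E_add (K := 3) 1 1
      have b := E_add (K := 3) 2 1
      have c := E_K (K := 3) le_add_self
      have d : E 3 1 ≠ -1 := fun e => by
        have := E_inj' (K := 3) le_add_self (e.trans c.symm) (by norm_num) (by norm_num)
        norm_num at this
      norm_num at a b c
      refine mul_left_cancel₀ (a := E 3 1 + 1) (fun e => d (eq_neg_of_add_eq_zero_left e)) ?_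
      rw [a] at b ⊢
      rw [c] at b
      linear_combination b
    rw [this, nu_E h2]
  · have r := rho_pos h2
    have s := sn_pos h2
    have rs := rho_sn (K := K)
    have c : sqrt 2 / 2 ≤ (E K 1).re := by
      rw [E_re, ← cos_pi_div_four, Int.cast_one, one_mul]
      have hK' : (4 : ℝ) ≤ K := by exact_mod_cast h
      refine cos_le_cos_of_nonneg_of_le_pi (by positivity) (by linarith [pi_pos]) ?_
      exact div_le_div_of_nonneg_left pi_pos.le (by norm_num) hK'
    have c2 : (1.4 : ℝ) ≤ sqrt 2 := le_sqrt_of_sq_le (by norm_num)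
    rw [E_one_re] at c
    refine le_of_mul_le_mul_right ((nu_le_norm h2 _).trans ?_) r
    refine le_of_sq_le_sq ?_ (by linarith)
    rw [Complex.sq_norm, Complex.normSq_apply]
    simp only [Complex.sub_re, Complex.sub_im, Complex.one_re, Complex.one_im, E_one_re, E_one_im]
    have : 2 * rho K * sn K * (2 * rho K * sn K) = 4 * sn K ^ 2 * (1 - sn K ^ 2) := by
      rw [← rs]; ring
    nlinarith

/-- A side of the polygon has length at most one. -/
theorem facet_diam (hK : 3 ≤ K) {l : ℤ} {z w : ℂ} (hz : nu K z ≤ 1) (hw : nu K w ≤ 1)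
    (ez : Fn K l z = rho K) (ew : Fn K l w = rho K) : nu K (z - w) ≤ 1 := by
  have h2 : 2 ≤ K := by omega
  obtain ⟨τ, a, b, c⟩ := side_tri h2 (z := E K (-l) * z) (by rwa [nu_E_mul h2])
    (by rw [Fn_E_mul]; simpa using ez)
  obtain ⟨τ', a', b', c'⟩ := side_tri h2 (z := E K (-l) * w) (by rwa [nu_E_mul h2])
    (by rw [Fn_E_mul]; simpa using ew)
  have k := side_le_tri hK
  have k0 := nu_nonneg h2 (E K 1 - 1)
  rw [← nu_E_mul h2 (-l), mul_sub, c, c']
  rcases le_total τ τ' with h | h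
  · rw [nu_sub_comm h2, show (1 + τ' * (E K 1 - 1) - (1 + τ * (E K 1 - 1)) : ℂ) =
      (τ' - τ : ℝ) * (E K 1 - 1) by push_cast; ring, nu_smul h2 (by linarith)]
    nlinarith
  · rw [show (1 + τ * (E K 1 - 1) - (1 + τ' * (E K 1 - 1)) : ℂ) =
      (τ - τ' : ℝ) * (E K 1 - 1) by push_cast; ring, nu_smul h2 (by linarith)]
    nlinarith

theorem end_tri (hK : 3 ≤ K) {a b : ℂ} (h : Tri K a b) {t : ℝ} (ht : nu K (b + t * a) ≤ 1) :
    t ≤ 0 := by
  have h2 : 2 ≤ K := by omega
  by_contra hc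
  have t0 := not_le.1 hc
  obtain ⟨l, hl⟩ := exists_nu h2 b
  have a1 := (nu_le_iff h2).1 ht l
  have a2 := (nu_le_iff h2).1 h.2.2.le l
  rw [h.2.1] at hl
  rw [Fn_add, Fn_smul] at a1
  rw [Fn_sub] at a2
  have a3 : Fn K l a = 0 := by nlinarith
  have := facet_diam hK (l := l) ht h.2.2.le (by rw [Fn_add, Fn_smul, a3]; linarith)
    (by rw [Fn_sub, a3]; linarith)
  rw [show b + t * a - (b - a) = (t + 1 : ℝ) * a by push_cast; ring, nu_smul h2 (by linarith),
    h.1] at this
  linarith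

theorem combo_tri (hK : 2 ≤ K) {z w : ℂ} (hz : nu K z = 1) (hw : nu K w = 1) {t : ℝ} (h0 : 0 ≤ t)
    (h1 : t ≤ 1) : nu K ((1 - t : ℝ) * z + t * w) ≤ 1 := by
  have := nu_add_le hK ((1 - t : ℝ) * z) (t * w)
  rw [nu_smul hK (by linarith), nu_smul hK h0, hz, hw] at this
  linarith

theorem high_tri (hK : 3 ≤ K) {a b b' : ℂ} (h : Tri K a b) (h' : Tri K a b') {x t : ℝ}
    (h0 : 0 < t) (h1 : t ≤ 1) (e : t * b' = x * a + b) : b' = b := by
  have h2 : 2 ≤ K := by omega
  have a1 := end_tri hK h (t := x + 1 - t) (by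
    have := combo_tri h2 h.1 h'.2.1 h0.le h1
    rwa [e, show (1 - t : ℝ) * a + (x * a + b) = b + (x + 1 - t : ℝ) * a by push_cast; ring] at this)
  have a2 := end_tri hK (h.flip h2) (t := -x) (by
    have := combo_tri h2 ((nu_neg h2 a).trans h.1) h'.2.2 h0.le h1
    rwa [mul_sub, e, ← nu_neg h2, show -((1 - t : ℝ) * -a + (x * a + b - t * a)) =
      a - b + (-x : ℝ) * a by push_cast; ring] at this)
  obtain rfl : t = 1 := by linarith
  obtain rfl : x = 0 := by linarith
  simpa using e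

theorem line_tri (hK : 2 ≤ K) {a b : ℂ} (h : Tri K a b) (x : ℝ) : b ≠ x * a := by
  rintro rfl
  obtain ⟨h1, h2, h3⟩ := h
  have key : ∀ t : ℝ, nu K (t * a) = |t| := fun t => by
    rcases le_total 0 t with g | g
    · rw [nu_smul hK g, h1, abs_of_nonneg g, mul_one]
    · rw [← nu_neg hK, ← neg_mul, ← Complex.ofReal_neg, nu_smul hK (by linarith), h1,
        abs_of_nonpos g, mul_one]
  rw [show x * a - a = (x - 1 : ℝ) * a by push_cast; ring, key] at h3
  rw [key] at h2
  rcases abs_cases x with g | g <;> rcases abs_cases (x - 1) with g' | g' <;> linarith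

theorem basis_tri (hK : 2 ≤ K) {a b : ℂ} (h : Tri K a b) (z : ℂ) :
    ∃ x y : ℝ, z = x * a + y * b := by
  have a0 : a ≠ 0 := fun e => line_tri hK (h.flip hK) 0 (by
    have := h.1
    rw [e, ← zero_mul 0, ← Complex.ofReal_zero, nu_smul hK le_rfl] at this
    simp at this)
  have i0 : (b / a).im ≠ 0 := fun e => line_tri hK h (b / a).re (by
    rw [← div_eq_iff a0]
    apply Complex.ext <;> simp [e])
  refine ⟨(z / a).re - (z / a).im / (b / a).im * (b / a).re, (z / a).im / (b / a).im, ?_⟩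
  have hb : b = b / a * a := (div_mul_cancel₀ _ a0).symm
  have hz : z = z / a * a := (div_mul_cancel₀ _ a0).symm
  generalize b / a = u at *
  generalize z / a = v at *
  rw [hb, hz, ← mul_assoc, ← add_mul]
  congr 1
  apply Complex.ext
  · simp only [Complex.add_re, Complex.ofReal_re, Complex.re_ofReal_mul]
    ring
  · simp only [Complex.add_im, Complex.ofReal_im, Complex.im_ofReal_mul]
    field_simp
    ring

theorem same_tri (hK : 3 ≤ K) {a b b' : ℂ} (h : Tri K a b) (h' : Tri K a b') {x y : ℝ}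
    (h0 : 0 < y) (e : b' = x * a + y * b) : b' = b := by
  have y0 : (y : ℂ) ≠ 0 := by exact_mod_cast h0.ne'
  rcases le_total y 1 with g | g
  · exact (high_tri hK h' h (x := -x) h0 g (by rw [e]; push_cast; ring)).symm
  · exact high_tri hK h h' (x := x / y) (t := 1 / y) (by positivity) ((div_le_one h0).2 g)
      (by rw [e]; push_cast; field_simp)

/-- There is one unit triangle on each side of a unit segment. -/
theorem Tri.unique (hK : 3 ≤ K) {a b b' : ℂ} (h : Tri K a b) (h' : Tri K a b') :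
    b' = b ∨ b' = a - b := by
  have h2 : 2 ≤ K := by omega
  obtain ⟨x, y, e⟩ := basis_tri h2 h b'
  rcases lt_trichotomy y 0 with g | rfl | g
  · exact Or.inr (same_tri hK (h.flip h2) h' (x := x + y) (y := -y) (by linarith)
      (by rw [e]; push_cast; ring))
  · exact absurd (by simpa using e) (line_tri h2 h' x)
  · exact Or.inl (same_tri hK h h' g e)

theorem nu_zero_tri (hK : 2 ≤ K) : nu K 0 = 0 := by simpa using nu_smul hK le_rfl 0

/-- Two unit triangles on a common side form a parallelogram. -/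
theorem rhomb (hK : 3 ≤ K) {p₁ p₂ p₃ p₄ : ℂ} (h12 : nu K (p₁ - p₂) = 1) (h13 : nu K (p₁ - p₃) = 1)
    (h23 : nu K (p₂ - p₃) = 1) (h24 : nu K (p₂ - p₄) = 1) (h34 : nu K (p₃ - p₄) = 1)
    (h14 : 1 ≤ nu K (p₁ - p₄)) : p₄ = p₂ + p₃ - p₁ := by
  have h2 : 2 ≤ K := by omega
  rw [nu_sub_comm h2] at h23 h24 h34
  rcases Tri.unique hK (a := p₃ - p₂) (b := p₁ - p₂) (b' := p₄ - p₂)
    ⟨h23, h12, by rwa [sub_sub_sub_cancel_right]⟩ ⟨h23, h24, by rwa [sub_sub_sub_cancel_right]⟩
    with e | e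
  · rw [sub_left_inj.1 e, sub_self, nu_zero_tri h2] at h14
    linarith
  · linear_combination e

theorem span_tri (hK : 2 ≤ K) (i : ℤ) (z : ℂ) :
    ∃ x y : ℝ, z = x * E K i + y * E K (i + 1) := by
  have r := rho_pos hK
  have s := sn_pos hK
  obtain ⟨w, rfl⟩ : ∃ w, z = E K i * w := ⟨E K (-i) * z, by rw [← mul_assoc, E_mul_neg, one_mul]⟩
  refine ⟨w.re - w.im / (E K 1).im * (E K 1).re, w.im / (E K 1).im, ?_⟩
  have i0 : (E K 1).im ≠ 0 := by rw [E_one_im]; positivity
  rw [E_add, mul_comm (E K i) (E K 1), ← mul_assoc, ← add_mul, mul_comm]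
  congr 1
  apply Complex.ext
  · simp only [Complex.add_re, Complex.ofReal_re, Complex.re_ofReal_mul]
    ring
  · simp only [Complex.add_im, Complex.ofReal_im, Complex.im_ofReal_mul]
    field_simp
    ring

/-- A unit vector that is not a corner lies on one side only. -/
theorem smooth (hK : 2 ≤ K) {a : ℂ} (ha : nu K a = 1) (hr : ¬Root K a) {l l' : ℤ}
    (e : Fn K l a = rho K) (e' : Fn K l' a = rho K) (z : ℂ) : Fn K l z = Fn K l' z := by
  obtain ⟨i, α, β, a0, b0, c, -, d⟩ := nu_sector hK a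
  rw [ha] at d
  have a1 : 0 < α := a0.lt_of_ne fun h => hr ⟨i + 1, by
    rw [c, ← h, show β = 1 by linarith]; simp⟩
  have b1 : 0 < β := b0.lt_of_ne fun h => hr ⟨i, by
    rw [c, ← h, show α = 1 by linarith]; simp⟩
  have key : ∀ l, Fn K l a = rho K → Fn K l (E K i) = rho K ∧ Fn K l (E K (i + 1)) = rho K := by
    intro l e
    rw [c, Fn_add, Fn_smul, Fn_smul] at e
    have p := Fn_E_le hK l i
    have q := Fn_E_le hK l (i + 1)
    have u : rho K = α * rho K + β * rho K := by rw [← add_mul, ← d, one_mul]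
    constructor <;> nlinarith
  obtain ⟨x, y, rfl⟩ := span_tri hK i z
  simp only [Fn_add, Fn_smul, key l e, key l' e']

/-- A chain of unit steps is not longer than the number of its steps. -/
theorem chain_le (hK : 2 ≤ K) {q : ℤ → ℂ} {m n : ℤ} (hmn : m ≤ n)
    (h : ∀ i, m ≤ i → i < n → nu K (q (i + 1) - q i) ≤ 1) : nu K (q n - q m) ≤ (n : ℝ) - m := by
  induction n, hmn using Int.leInduction with
  | base => simp [nu_zero_tri hK]
  | succ n hn ih =>
    have a := ih fun i a b => h i a (by omega)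
    have b := h n hn (by omega)
    have c := nu_add_le hK (q (n + 1) - q n) (q n - q m)
    rw [sub_add_sub_cancel] at c
    push_cast
    linarith

/-- The steps of a taut chain lie on a common side. -/
theorem taut (hK : 2 ≤ K) {q : ℤ → ℂ} {m n : ℤ} {l : ℤ}
    (h : ∀ i, m ≤ i → i < n → nu K (q (i + 1) - q i) ≤ 1)
    (e : Fn K l (q n - q m) = ((n : ℝ) - m) * rho K) {i : ℤ} (h1 : m ≤ i) (h2 : i ≤ n) :
    Fn K l (q i - q m) = ((i : ℝ) - m) * rho K := by
  have a := (nu_le_iff hK).1 (chain_le hK h1 fun k a b => h k a (by omega)) l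
  have b := (nu_le_iff hK).1 (chain_le hK h2 fun k a b => h k (by omega) b) l
  simp only [Fn_sub] at *
  linarith

/-- A chain that is taut in the direction of a corner is straight. -/
theorem taut_root (hK : 2 ≤ K) {q : ℤ → ℂ} {m n : ℤ} {a : ℂ} (ha : Root K a)
    (h : ∀ i, m ≤ i → i < n → nu K (q (i + 1) - q i) ≤ 1)
    (e : q n - q m = ((n : ℂ) - m) * a) {i : ℤ} (h1 : m ≤ i) (h2 : i ≤ n) :
    q i - q m = ((i : ℂ) - m) * a := by
  obtain ⟨r, rfl⟩ := ha
  have k : ∀ l, Fn K l (E K r) = rho K →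
      Fn K l (E K r * (E K (-r) * (q i - q m) - ((i : ℝ) - m : ℝ))) = 0 := fun l hl => by
    have := taut hK (l := l) h (by
      rw [e, ← hl, ← Fn_smul]
      push_cast
      rfl) h1 h2
    rw [mul_sub, ← mul_assoc, E_mul_neg, one_mul, Fn_sub, this, mul_comm (E K r), Fn_smul, hl,
      sub_self]
  have a := k r (Fn_E_self r)
  have b := k (r - 1) (by simpa using Fn_E_succ (K := K) (r - 1))
  rw [Fn_E_mul, sub_self, Fn_zero] at a
  rw [Fn_E_mul, show r - 1 - r = -0 - 1 by ring, ← Fn_conj, Fn_zero, Complex.conj_re,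
    Complex.conj_im] at b
  have r0 := rho_pos hK
  have s0 := sn_pos hK
  have z : E K (-r) * (q i - q m) - ((i : ℝ) - m : ℝ) = 0 :=
    Complex.ext (mul_left_cancel₀ r0.ne' (by rw [Complex.zero_re]; linarith))
      (mul_left_cancel₀ s0.ne' (by rw [Complex.zero_im]; linarith))
  push_cast at z
  linear_combination E K r * z - (q i - q m) * E_mul_neg (K := K) r

end Pool.Agent.Lib.MP_0e6856_lc
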